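import Mathlib

/-!
# Project GX (helper242), page MP_ae5b4e_an

GOAL: for EVERY closed convex curve `γ` with smooth support function `p` and positive radius of curvature
`p + p''` there is a `C^∞` foliation by closed convex curves of an exterior
neighbourhood of `γ` such that for every point of `γ` the involution `σ` of the tangent line is, near the point,
the point reflection (so it is projective). So the hypothesis of the page's question imposes no condition on `γ`.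

Conventions: points of the plane are complex numbers, `e α = (cos α, sin α)`, `nu α = (sin α, -cos α)` (outer
normal at the point where the tangent direction is `e α`), `ip` the real inner product,
`gam p α = p α • nu α + p' α • e α` (the point of `γ` with outer normal `nu α`; `gam' = (p + p'') • e`),
`Psi p φ y = gam p φ + y • nu φ`, `body p` the convex body with support function `p`.
Everything periodic has the period `2 π`.
-/

open Set Filter Topology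
open scoped ContDiff

namespace Pool.Agent.H242.GX

/-! ### Definitions of the problem (copies of the library definitions `H719R2.PI.Defs`) -/

/-- `K` is the disc bounded by a smooth closed strictly convex curve. -/
def IsTable (K : Set ℂ) : Prop :=
  IsCompact K ∧ StrictConvex ℝ K ∧ (interior K).Nonempty ∧
    ∃ γ : ℝ → ℂ, ContDiff ℝ ∞ γ ∧ Function.Periodic γ 1 ∧ InjOn γ (Ico 0 1) ∧
      (∀ t, deriv γ t ≠ 0) ∧ range γ = frontier K

/-- The leaf with index `c` of the foliation of `U` minus the open disc by the level sets of `Y`. -/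
def leaf (K U : Set ℂ) (Y : ℂ → ℝ) (c : ℝ) : Set ℂ :=
  {z | z ∈ U ∧ z ∉ interior K ∧ Y z = c}

/-- The level sets of `Y` form a smooth foliation, by closed convex curves, of the one-sided
(exterior) neighbourhood `U \ interior K` of the curve `frontier K`, and the curve itself is the
leaf with index `0`. -/
structure IsExteriorFoliation (K U : Set ℂ) (Y : ℂ → ℝ) : Prop where
  isOpen : IsOpen U
  frontier_subset : frontier K ⊆ U
  smooth : ContDiffOn ℝ ∞ Y U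
  regular : ∀ z ∈ U, fderiv ℝ Y z ≠ 0
  nonneg : ∀ z ∈ U, z ∉ interior K → 0 ≤ Y z
  leaf_zero : leaf K U Y 0 = frontier K
  convex : ∀ c, (leaf K U Y c).Nonempty →
    ∃ B : Set ℂ, IsCompact B ∧ Convex ℝ B ∧ (interior B).Nonempty ∧ leaf K U Y c = frontier B

/-- `v` spans the tangent line of `frontier K` at `p`. -/
def IsTangentDir (K : Set ℂ) (p v : ℂ) : Prop :=
  v ≠ 0 ∧ ∀ t : ℝ, p + t • v ∉ interior K

/-- On the line `t ↦ p + t v`, near `t = 0`, every leaf close to the leaf through `p` has exactly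
one point on each side of `p`, and the involution which exchanges these two points coincides near `p`
with the restriction of the projective transformation `t ↦ (a t + b) / (c t + d)`. -/
def SigmaProjective (U : Set ℂ) (Y : ℂ → ℝ) (p v : ℂ) : Prop :=
  ∃ ε > 0, (∀ t : ℝ, |t| ≤ ε → p + t • v ∈ U) ∧
    StrictAntiOn (fun t : ℝ => Y (p + t • v)) (Icc (-ε) 0) ∧
    StrictMonoOn (fun t : ℝ => Y (p + t • v)) (Icc 0 ε) ∧
    ∃ a b c d : ℝ, a * d - b * c ≠ 0 ∧ ∃ δ > 0, δ ≤ ε ∧ ∀ t : ℝ, |t| < δ →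
      c * t + d ≠ 0 ∧ |(a * t + b) / (c * t + d)| ≤ ε ∧
        (t ≠ 0 → t * ((a * t + b) / (c * t + d)) < 0) ∧
        Y (p + ((a * t + b) / (c * t + d)) • v) = Y (p + t • v)

/-- The polynomial of degree at most two with coefficients `q`. -/
def quad (q : Fin 6 → ℝ) (z : ℂ) : ℝ :=
  q 0 * z.re ^ 2 + q 1 * (z.re * z.im) + q 2 * z.im ^ 2 + q 3 * z.re + q 4 * z.im + q 5

/-- The (real, affine part of the) conic with coefficients `q`. -/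
def conic (q : Fin 6 → ℝ) : Set ℂ := {z | quad q z = 0}

/-! ### The curve -/

/-- The tangent direction with angle `α`. -/
noncomputable def e (α : ℝ) : ℂ := ⟨Real.cos α, Real.sin α⟩

/-- The outer normal belonging to the tangent direction `e α`. -/
noncomputable def nu (α : ℝ) : ℂ := ⟨Real.sin α, -Real.cos α⟩

/-- The real inner product. -/
def ip (z w : ℂ) : ℝ := z.re * w.re + z.im * w.im

/-- The convex body with support function `p` (in the direction `nu α`). -/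
def body (p : ℝ → ℝ) : Set ℂ := {z | ∀ α, ip z (nu α) ≤ p α}

/-- The boundary point with outer normal `nu α`. -/
noncomputable def gam (p : ℝ → ℝ) (α : ℝ) : ℂ := p α • nu α + deriv p α • e α

/-- Normal coordinates. -/
noncomputable def Psi (p : ℝ → ℝ) (φ y : ℝ) : ℂ := gam p φ + y • nu φ

/-- Smooth support functions of ovals. -/
structure Supp (p : ℝ → ℝ) : Prop where
  smooth : ContDiff ℝ ∞ p
  per : ∀ α, p (α + 2 * Real.pi) = p α
  pos : ∀ α, 0 < p α + deriv (deriv p) α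

/-! ### Part G: geometry -/

/-- **GX-KEY.** PROOF. Put `D α = p α + y - ip (Psi p θ y) (nu α)`. `nu' = e`, `e' = - nu`, so `D θ = 0`, `D' θ = p' θ - ip (Psi p θ y) (e θ) = 0` and `D'' + D = p + p'' + y > 0`.
For `θ < α ≤ θ + π`: the function `u ↦ D' u sin (α - u) + D u cos (α - u)` has the derivative `(D'' + D) u sin (α - u) > 0` on `(θ, α)`, it is `0` at `u = θ` and `D α` at `u = α`; so `D α > 0`. The same for
`θ - π ≤ α < θ`. By periodicity `D α > 0` for all `α` not of the form `θ + 2πk`, and `D α = 0` for those. -/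
def S_KEY : Prop := ∀ p : ℝ → ℝ, Supp p → ∀ θ y : ℝ, (∀ α, 0 < p α + deriv (deriv p) α + y) → ∀ α : ℝ,
  ip (Psi p θ y) (nu α) ≤ p α + y ∧ (ip (Psi p θ y) (nu α) = p α + y → ∃ k : ℤ, α = θ + k * (2 * Real.pi))

/-- **GX-MAX.** PROOF. `α ↦ ip z (nu α) - p α` is continuous and periodic, so it has a maximum `y`, at `φ`. The derivative vanishes there: `ip z (e φ) = p' φ`; and `ip z (nu φ) = p φ + y`. As `e φ`, `nu φ` is an orthonormal basis,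
`z = (p φ + y) nu φ + p' φ e φ = Psi p φ y`. -/
def S_MAX : Prop := ∀ p : ℝ → ℝ, Supp p → ∀ z : ℂ, ∃ φ y : ℝ, Psi p φ y = z ∧ ∀ α : ℝ, ip z (nu α) ≤ p α + y

/-- **GX-SUPP.** Every compact strictly convex set whose boundary is a smooth closed curve with nonvanishing curvature is `body p`. PROOF. `p α = max_{z ∈ K} ip z (nu α)`. `K = body p` by Hahn-Banach (a point outside
a compact convex set is strictly separated by a functional `ip · (nu α)`). The maximum is attained at a unique point (strict convexity), it is in the frontier, so `= γ t`, `t` unique modulo `1`; by compactness and uniqueness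
the maximum point depends continuously on `α`. At it `ip (γ' t) (nu α) = 0` and `ip (γ'' t) (nu α) ≤ 0`; it is `≠ 0` because `γ', γ''` are linearly independent and `γ' ⟂ nu α`. The implicit function theorem
for `ip (γ' t) (nu α) = 0` gives near each `α₀` a smooth `t (α)`, and `γ (t α)` is the maximum point (by continuity of the maximum point and uniqueness in the implicit function theorem; `γ` is a homeomorphism of the circle onto the frontier).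
So `p α = ip (γ (t α)) (nu α)` is smooth, `p' = ip (γ t) (e α)` and `p + p'' = t' ip (γ' t) (e α)`; differentiating `ip (γ' (t α)) (nu α) = 0` gives `t' ip (γ'' t) (nu α) = - ip (γ' t) (e α)`, so
`p + p'' = - (ip (γ' t) (e α))² / ip (γ'' t) (nu α) > 0`. -/
def S_SUPP : Prop := ∀ (K : Set ℂ) (γ : ℝ → ℂ), IsCompact K → StrictConvex ℝ K → (interior K).Nonempty →
  ContDiff ℝ ∞ γ → Function.Periodic γ 1 → InjOn γ (Ico 0 1) → (∀ t, deriv γ t ≠ 0) → range γ = frontier K →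
  (∀ t, (deriv γ t).re * (deriv (deriv γ) t).im - (deriv γ t).im * (deriv (deriv γ) t).re ≠ 0) →
  ∃ p : ℝ → ℝ, Supp p ∧ K = body p

/-- **GX-BODY.** `body p` is a table with boundary `gam p`. From GX-KEY, GX-MAX.
PROOF. GX-KEY with `y = 0`: `ip (gam p θ) (nu α) < p α` unless `α ∈ θ + 2πℤ`, where there is equality. So `gam p θ ∈ body p`.
`A = {z | ∀ α, ip z (nu α) < p α}` is open (compactness of `[0, 2π]` and periodicity) so contained in the interior. A point `z` of the body which is not in `A`: by GX-MAX `z = Psi p φ y` with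
`ip z (nu α) ≤ p α + y`; `ip z (nu φ) = p φ + y ≤ p φ` so `y ≤ 0`, and `y ≥ 0` as `z ∉ A`; so `z = gam p φ`; it is not in the interior, since `z + s nu φ ∉ body p` for `s > 0`.
So `interior = A` and, the body being closed, `frontier = body \ A = range (gam p)`. The body is closed,
convex (intersection of half planes) and bounded (`|z| = ip z (nu α)` for the `α` with `nu α = z/|z|`), so compact.
Interior point: `(1/2) (gam p 0 + gam p 1)`: for every `α` one of the two inequalities is strict.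
StrictConvex: let `x ≠ y` be in the body, `0 < a, b`, `a + b = 1`. `a x + b y ∈ A`: otherwise `ip x (nu α) = p α = ip y (nu α)` for one `α`; the function `ip x (nu ·) - p ≤ 0` has a maximum at `α`, its derivative vanishes, so
`ip x (e α) = p' α` and `x = gam p α`; the same for `y`, so `x = y`.
Curve: `γ t = gam p (2 π t)`, derivative `2 π ρ e ≠ 0`, injective on `[0,1)` by GX-KEY. -/
def S_BODY : Prop := ∀ p : ℝ → ℝ, Supp p →
  IsTable (body p) ∧ Convex ℝ (body p) ∧ frontier (body p) = range (gam p) ∧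
    interior (body p) = {z | ∀ α, ip z (nu α) < p α}

/-- **GX-PSI.** Normal coordinates. `Psi p` is injective modulo `2π` where `y > -y₁`, and its image there contains
all points which are not in the interior of the body; `y > 0` outside. From GX-KEY, GX-MAX, GX-BODY.
PROOF. Choose `y₁ > 0` smaller than the minimum of `ρ = p + p''` (continuous, periodic, positive). If `Psi p φ y = Psi p φ' y' = z` then GX-KEY for both at `α = φ'`, `α = φ`: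
`ip z (nu φ') = p φ' + y' ≤ p φ' + y` and `ip z (nu φ) = p φ + y ≤ p φ + y'`, so `y = y'` and then the equality case gives `φ' = φ + 2πk`. If `y > 0` then `ip z (nu φ) = p φ + y > p φ`, so
`z ∉ body p`. If `z` is not in the interior `{z | ∀ α, ip z (nu α) < p α}` then GX-MAX gives `z = Psi p φ y` with `y ≥ 0`. -/
def S_PSI : Prop := ∀ p : ℝ → ℝ, Supp p → ∃ y₁ : ℝ, 0 < y₁ ∧
  (∀ φ φ' y y' : ℝ, -y₁ < y → -y₁ < y' → Psi p φ y = Psi p φ' y' →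
    y = y' ∧ ∃ k : ℤ, φ' = φ + k * (2 * Real.pi)) ∧
  (∀ φ y : ℝ, 0 < y → Psi p φ y ∉ body p) ∧
  (∀ z : ℂ, z ∉ interior (body p) → ∃ φ y : ℝ, 0 ≤ y ∧ Psi p φ y = z) ∧
  (∀ φ y : ℝ, -y₁ < y → p φ + deriv (deriv p) φ + y ≠ 0)

/-- **GX-DESC.** A smooth function of the normal coordinates which is periodic in `φ` is a smooth function on the
plane. PROOF. Let `D = {(φ, y) : -y₁ < y}` and `V = Psi (D)`. `Ψ : (φ, y) ↦ Psi p φ y` is `C^∞` with derivative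
`(a, b) ↦ a (ρ φ + y) • e φ + b • nu φ`, invertible on `D` (hypothesis `hne`, `ρ = p + p''`). So `V` is open and near each
point `z₀ = Ψ x₀` of `V` there is a smooth local inverse `g` (inverse function theorem,
`ContDiffAt.toOpenPartialHomeomorph` / `ContDiffAt.to_localInverse`) with `g z₀ = x₀`. Define
`Y z = H (any x ∈ D with Ψ x = z)` (choice), `0` off `V`. By injectivity modulo periods and periodicity of `H`,
`Y (Ψ x) = H x` on `D`, and `Y = H ∘ g` near `z₀`, so `Y` is smooth. -/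
def S_DESC : Prop := ∀ (p : ℝ → ℝ) (y₁ : ℝ) (H : ℝ × ℝ → ℝ), Supp p → 0 < y₁ →
  (∀ φ φ' y y' : ℝ, -y₁ < y → -y₁ < y' → Psi p φ y = Psi p φ' y' →
    y = y' ∧ ∃ k : ℤ, φ' = φ + k * (2 * Real.pi)) →
  (∀ φ y : ℝ, -y₁ < y → p φ + deriv (deriv p) φ + y ≠ 0) →
  ContDiff ℝ ∞ H → (∀ φ y, H (φ + 2 * Real.pi, y) = H (φ, y)) →
  ∃ (V : Set ℂ) (Y : ℂ → ℝ), IsOpen V ∧ ContDiffOn ℝ ∞ Y V ∧
    (∀ φ y : ℝ, -y₁ < y → Psi p φ y ∈ V ∧ Y (Psi p φ y) = H (φ, y)) ∧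
    (∀ z ∈ V, ∃ φ y : ℝ, -y₁ < y ∧ Psi p φ y = z)

/-- **GX-CONV.** The level curves of a function near a convex curve are convex if its Hessian is positive on the
tangents of the curve.
PROOF. Put `d z = infDist z K` and `N δ = {z : z ∉ interior K, d z ≤ δ}` (compact, decreasing to `frontier K` as
`δ → 0`; for `δ` small `N δ ⊆ V` by compactness). By compactness (of `{(z, w) : z ∈ frontier K, ‖w‖ = 1}`) and continuity of the first and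
second derivatives on `V`, there is `δ > 0` with: on `N δ`, `fderiv Y z ≠ 0`, and
`fderiv Y z w = 0, w ≠ 0 ⟹ 0 < D²Y z w w` (otherwise take a sequence `z_n → z ∈ frontier K`, `‖w_n‖ = 1`, and a
limit). The set `{d z = δ}` is compact, in `V`, outside `K`, so `Y ≥ c₀ > 0` on it.
`U := {z ∈ V : d z < δ, (z ∈ interior K → fderiv Y z ≠ 0), Y z < c₀}` - more precisely take `U` the open set of the
`z ∈ V` with `d z < δ`, `fderiv Y z ≠ 0`, `Y z < c₀`; it contains `frontier K`.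
For `0 ≤ c < c₀` put `B c = K ∪ {z : z ∉ interior K, d z ≤ δ, Y z ≤ c}` (`B 0 = K`).
(a) `B c` is compact (`K ∪` a closed subset of the compact `N δ`), and no point of it outside `K` has `d z = δ`.
(b) `B c` is convex: let `x, y ∈ B c` and suppose a point of the segment is not in `B c`. All points of the segment
are in the closed `δ`-neighbourhood of `K`, which is convex. Let `(s, t)` be a maximal open interval of parameters
with points outside `B c`; its ends are in `B c` (closedness), the function `f = Y(segment)` is `> c` on it and at the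
ends it is `≤ c` if the end is not in interior `K`, (the end is not in `interior K`, because points near it
are outside `K`), and `f` is continuous on `[s, t]`. So `f` has an interior maximum at some `u ∈ (s, t)`: `f' (u) = 0`, `f'' (u) ≤ 0`, but the
direction `w` of the segment satisfies `fderiv Y z w = 0` at `z = ` the point, so `f'' (u) = D²Y z w w > 0`, contradiction.
(c) for `0 ≤ c < c₀`: `leaf c = frontier (B c)`. A point `z ∉ interior K`, `d z < δ`, `Y z = c` is in `B c` and has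
points with `Y > c` arbitrarily near (as `fderiv ≠ 0`); if `c > 0` they are outside `B c`; if `c = 0` then `z ∈ frontier K`.
Conversely a boundary point `z` of `B c` lies in `B c` (closed); if `c = 0`, fine; if `c > 0`: `K ⊆ interior (B c)` since `Y < c`
near `frontier K`; so `z ∉ K`, `d z < δ`, and `Y z < c` would give an interior point; so `Y z = c`, `z ∈ U`.
The interior of `B c` contains that of `K`. A nonempty leaf has index `0 ≤ c < c₀`. -/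
def S_CONV : Prop := ∀ (K V : Set ℂ) (Y : ℂ → ℝ), IsCompact K → Convex ℝ K → (interior K).Nonempty →
  IsOpen V → frontier K ⊆ V → ContDiffOn ℝ ∞ Y V → (∀ z ∈ frontier K, Y z = 0) →
  (∀ z ∈ V, z ∉ K → 0 < Y z) → (∀ z ∈ frontier K, fderiv ℝ Y z ≠ 0) →
  (∀ z ∈ frontier K, ∀ w : ℂ, w ≠ 0 → fderiv ℝ Y z w = 0 → 0 < fderiv ℝ (fderiv ℝ Y) z w w) →
  ∃ U : Set ℂ, U ⊆ V ∧ IsExteriorFoliation K U Y

/-- **GX-TAN.** The tangent directions. PROOF. The line does not meet the open convex set `interior (body p)`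
(nonempty), so (Hahn-Banach, `geometric_hahn_banach_open`, with the convex set the line) there is a real linear functional `f ≠ 0`,
`f z = ip z n`, `n ≠ 0`, with `f < f (gam p θ)` on the interior and `f v = 0` (a line bounded on one side). Put
`n = |n| nu α`. By continuity `ip z (nu α) ≤ ip (gam p θ) (nu α)` on the body (closure of its interior), in
particular for `z = gam p α`: `p α = ip (gam p α) (nu α) ≤ ip (gam p θ) (nu α) ≤ p α`. So equality, and by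
GX-KEY (`y = 0`) `α = θ` mod `2π`. So `ip v (nu θ) = 0`, `v = l • e θ`. From GX-KEY, GX-BODY. -/
def S_TAN : Prop := ∀ p : ℝ → ℝ, Supp p → ∀ (θ : ℝ) (v : ℂ), IsTangentDir (body p) (gam p θ) v →
  ∃ l : ℝ, l ≠ 0 ∧ v = l • e θ

/-- **GX-SIG.** If `Y` is even and strictly convex along the line near `z` then `σ` is the reflection there.
PROOF. `f t = Y (z + t v)` is `C^∞` near `0`, `f'' 0 > 0`, so `f'' > 0` on some `[-ε, ε]`, `f' 0 = 0` since `f` is even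
near `0`; so `f' > 0` on `(0, ε]`, `f' < 0` on `[-ε, 0)`. Take `(a, b, c, d) = (-1, 0, 0, 1)`. -/
def S_SIG : Prop := ∀ (U : Set ℂ) (Y : ℂ → ℝ) (z v : ℂ) (r : ℝ), IsOpen U → z ∈ U → ContDiffOn ℝ ∞ Y U → 0 < r →
  (∀ t : ℝ, |t| < r → Y (z + t • v) = Y (z - t • v)) → 0 < fderiv ℝ (fderiv ℝ Y) z v v →
  SigmaProjective U Y z v

/-- **GX-NONC.** The oval with support function `1 + cos (3 α) / 20` is not contained in a conic.
PROOF. `p + p'' = 1 - (2/5) cos 3α > 0`. With `ω = e^{iα}`: `gam p α = -i (ω - ε ω⁴ + 2 ε ω⁻²)`, `ε = 1/20`.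
If `quad q` vanishes on the curve, `quad q (gam p α)` is a trigonometric polynomial which vanishes identically; write
`quad q z = a z² + ā z̄² + c |z|² + b z + b̄ z̄ + d`; the coefficient of `ω^8` is `- a ε²`, so `a = 0`; then the
coefficient of `ω^6` is `-2 ε² c` so `c = 0`; then that of `ω^4` is `i ε b + 2 ε ...` etc. (or evaluate at enough points
`α`, e.g. multiples of `π/6`, and solve the linear system). -/
def S_NONC : Prop := ∃ p : ℝ → ℝ, Supp p ∧ ∀ q : Fin 6 → ℝ, q ≠ 0 → ¬ range (gam p) ⊆ conic q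

/-! ### The web of the tangent lines

`X (θ, t) = (φ, r)` means that the point `gam p θ + t • e θ` of the tangent line with the angle `θ` is the point
`Psi p φ (r²)`, where the sign of `r` is the sign of `t`; `Z` is the inverse map. -/

structure Web (X Z : ℝ × ℝ → ℝ × ℝ) : Prop where
  smX : ContDiff ℝ ∞ X
  smZ : ContDiff ℝ ∞ Z
  left : ∀ x, Z (X x) = x
  right : ∀ x, X (Z x) = x
  per : ∀ θ t : ℝ, X (θ + 2 * Real.pi, t) = ((X (θ, t)).1 + 2 * Real.pi, (X (θ, t)).2)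
  axis : ∀ θ : ℝ, X (θ, 0) = (θ, 0)
  sgn : ∀ θ t : ℝ, 0 < t → 0 < (X (θ, t)).2
  sgn' : ∀ θ t : ℝ, t < 0 → (X (θ, t)).2 < 0
  der1 : ∀ θ : ℝ, 0 < deriv (fun t => (X (θ, t)).1) 0
  der2 : ∀ θ : ℝ, 0 < deriv (fun t => (X (θ, t)).2) 0

/-- The web of the curve `gam p`. -/
structure TWeb (p : ℝ → ℝ) (X Z : ℝ × ℝ → ℝ × ℝ) : Prop extends Web X Z where
  supp : Supp p
  rel : ∀ θ t : ℝ, Psi p (X (θ, t)).1 ((X (θ, t)).2 ^ 2) = gam p θ + t • e θ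

/-- The radius of curvature. -/
noncomputable def rho (p : ℝ → ℝ) (α : ℝ) : ℝ := p α + deriv (deriv p) α

/-- The cube root of the radius of curvature. -/
noncomputable def cr (p : ℝ → ℝ) (α : ℝ) : ℝ := (rho p α) ^ ((1 : ℝ) / 3)

/-- **GX-INV.** A parametric inverse function. PROOF. For fixed `θ` the function `β ↦ f (θ, β)` is strictly increasing
and continuous on `(-a, a)` and onto `ℝ` by the intermediate value theorem: this defines `g`. The map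
`(θ, β) ↦ (θ, f (θ, β))` is smooth with invertible derivative on the open set `|β| < a`; near each point `(θ₀, t₀)` the
local inverse (inverse function theorem) has the form `(θ, t) ↦ (θ, g (θ, t))` by uniqueness, so `g` is smooth. -/
def S_INV : Prop := ∀ (a : ℝ) (f : ℝ × ℝ → ℝ), 0 < a → ContDiffOn ℝ ∞ f {x | |x.2| < a} →
  (∀ θ β : ℝ, |β| < a → 0 < deriv (fun b => f (θ, b)) β) →
  (∀ θ T : ℝ, ∃ β₁ β₂ : ℝ, |β₁| < a ∧ |β₂| < a ∧ f (θ, β₁) ≤ T ∧ T ≤ f (θ, β₂)) →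
  ∃ g : ℝ × ℝ → ℝ, ContDiff ℝ ∞ g ∧ (∀ x, |g x| < a) ∧ (∀ θ t : ℝ, f (θ, g (θ, t)) = t) ∧
    ∀ θ β : ℝ, |β| < a → g (θ, f (θ, β)) = β

/-- `N θ β = ip (gam (θ+β) - gam θ) (e (θ+β))`. -/
noncomputable def Nf (p : ℝ → ℝ) (θ β : ℝ) : ℝ :=
  deriv p (θ + β) + p θ * Real.sin β - deriv p θ * Real.cos β

/-- `D θ β = p (θ+β) - ip (gam θ) (nu (θ+β))`. -/
noncomputable def Df (p : ℝ → ℝ) (θ β : ℝ) : ℝ :=
  p (θ + β) - p θ * Real.cos β - deriv p θ * Real.sin β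

/-- `E = N sin β - D cos β`. -/
noncomputable def Ef (p : ℝ → ℝ) (θ β : ℝ) : ℝ :=
  Nf p θ β * Real.sin β - Df p θ β * Real.cos β

/-- The parameter on the tangent line number `θ` of the point whose foot has the normal `nu (θ+β)`. -/
noncomputable def tau (p : ℝ → ℝ) (x : ℝ × ℝ) : ℝ := Nf p x.1 x.2 / Real.cos x.2

/-- **GX-TAU.** PROOF (`ρ = p + p''`, `p θ`, `p' θ` fixed, derivatives in `β`): `D' = N`, `N' = ρ (θ+β) - D`,
`E' = ρ (θ+β) sin β`, `E = 0` at `β = 0`, so `E > 0` for `0 < |β| < π`. `(N / cos)' = (N' cos + N sin)/cos² = (ρ (θ+β) cos β + E)/cos² > 0`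
for `|β| < π/2`. As `N = 0` at `β = 0` and `N sin β = E + D cos β` one has `N (θ, ±π/2) sin (±π/2) = E > 0`, hence
`N (θ, β) / cos β → ± ∞` as `β → ± π/2`. The last formula: multiply by `cos β` and compare the components along `e φ` and
`nu φ`, `φ = θ + β`: `ip (gam θ) (e φ) = - p θ sin β + p' θ cos β`, `ip (gam θ) (nu φ) = p θ cos β + p' θ sin β`,
`ip (e θ) (e φ) = cos β`, `ip (e θ) (nu φ) = sin β`. -/
def S_TAU : Prop := ∀ p : ℝ → ℝ, Supp p →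
  ContDiffOn ℝ ∞ (tau p) {x | |x.2| < Real.pi / 2} ∧
  (∀ θ β : ℝ, |β| < Real.pi / 2 → 0 < deriv (fun b => tau p (θ, b)) β) ∧
  (∀ θ T : ℝ, ∃ β₁ β₂ : ℝ, |β₁| < Real.pi / 2 ∧ |β₂| < Real.pi / 2 ∧ tau p (θ, β₁) ≤ T ∧ T ≤ tau p (θ, β₂)) ∧
  (∀ θ : ℝ, tau p (θ, 0) = 0) ∧
  (∀ θ β : ℝ, 0 < |β| → |β| < Real.pi / 2 → 0 < Ef p θ β) ∧
  (∀ θ β : ℝ, tau p (θ + 2 * Real.pi, β) = tau p (θ, β)) ∧
  (∀ θ β : ℝ, |β| < Real.pi / 2 →
    gam p θ + tau p (θ, β) • e θ = Psi p (θ + β) (Ef p θ β / Real.cos β))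

/-- **GX-RAD.** The signed square root `r` of `y = E / cos β`, as a function of the foot angle `φ = θ + β` and of `β`.
PROOF. Put `Y (φ, β) = E (φ-β) β / cos β`. At fixed `φ`, with `θ = φ - β`, derivatives in `β`: `N' = ρ θ cos β`,
`D' = ρ θ sin β`, so (`E = N sin - D cos`) `E' = N cos β + D sin β` and `Y' = (E' cos + E sin)/cos² = N / cos² β`. As `N = 0`
at `β = 0` and `N' > 0`, `N` has the sign of `β`. So `Y (φ, 0) = 0`, `Y' (φ, 0) = 0`, `Y'' (φ, 0) = ρ φ > 0`, and `Y' > 0` for `β > 0`,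
`Y' < 0` for `β < 0`. By Hadamard's lemma (GX-HAD twice, or on `|β| < π/2`; one may first multiply by a power of `cos β`: use
`cos β * Y = E (φ-β) β`, which is smooth on the whole plane) `Y = β² Q (φ, β)` with `Q` smooth, `Q > 0`
(`Q (φ, 0) = ρ/2`). `R = β √Q` is smooth, `R² = Y`, and `2 R ∂R = Y'` gives `∂R > 0` for `β ≠ 0`; at `β = 0` `∂R = √Q > 0`. `R → ±∞` as
`β → ±π/2` since `E (φ ∓ π/2) (±π/2) > 0` (positive by GX-TAU: `E > 0` also at `|β| = π/2`, same proof). -/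
def S_RAD : Prop := ∀ p : ℝ → ℝ, Supp p → ∃ R : ℝ × ℝ → ℝ,
  ContDiffOn ℝ ∞ R {x | |x.2| < Real.pi / 2} ∧
  (∀ φ β : ℝ, |β| < Real.pi / 2 → R (φ, β) ^ 2 = Ef p (φ - β) β / Real.cos β) ∧
  (∀ φ β : ℝ, |β| < Real.pi / 2 → 0 < deriv (fun b => R (φ, b)) β) ∧
  (∀ φ T : ℝ, ∃ β₁ β₂ : ℝ, |β₁| < Real.pi / 2 ∧ |β₂| < Real.pi / 2 ∧ R (φ, β₁) ≤ T ∧ T ≤ R (φ, β₂)) ∧
  (∀ φ : ℝ, R (φ, 0) = 0) ∧
  (∀ φ β : ℝ, |β| < Real.pi / 2 → R (φ + 2 * Real.pi, β) = R (φ, β))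

/-- **GX-WEB.** From GX-INV, GX-TAU, GX-RAD. PROOF. GX-INV applied to `tau p` and to `R` gives smooth `b₁ (θ, t)`,
`b₂ (φ, r)` with values in `(-π/2, π/2)`. Put `X (θ, t) = (θ + b₁, R (θ + b₁, b₁))`, `Z (φ, r) = (φ - b₂, tau p (φ - b₂, b₂))`.
All properties follow from uniqueness of the inverses (`R (φ, ·)` is strictly increasing with `R (φ, 0) = 0`, `b₁` has the sign of `t`).
`der1`: `∂ b₁ = 1 / ∂ tau > 0` at `t = 0`. `der2`: `R (φ, 0) = 0` gives `∂_φ R (φ, 0) = 0`, so `∂_t X₂ = ∂_β R * ∂_t b₁ > 0` at `t = 0`.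
`rel` is the last formula of GX-TAU with `β = b₁ (θ, t)`. -/
def S_WEB : Prop := ∀ p : ℝ → ℝ, Supp p → ∃ X Z : ℝ × ℝ → ℝ × ℝ, TWeb p X Z

/-- **GX-DER.** The first derivatives of the web. PROOF. Fix `θ`, `φ (t) = X₁ (θ, t)`, `r (t) = X₂ (θ, t)`, `φ (0) = θ`, `r (0) = 0`. The relation `gam p (φ) + r² nu φ = gam p θ + t e θ`
differentiated in `t` (`gam' = ρ e`, `nu' = e`) is `e θ = (ρ (φ) + r²) φ' e (φ) + 2 r r' nu (φ)`, i.e. (components along `e φ`, `nu φ`)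
(1) `cos (φ - θ) = (ρ (φ) + r²) φ'` and (2) `sin (φ - θ) = 2 r r'`. At `t = 0`: `φ' (0) = 1/ρ`. Derivative of (2) at `0`: `φ' = 2 r'²`. Second derivative of (2) at `0`:
`φ'' = 6 r' r''`. Derivative of (1) at `0`: `0 = ρ' φ'² + ρ φ''`. So `φ'' (0) = - ρ' / ρ³` and `r'' (0) = - ρ' / (6 ρ³ r')= - r' ρ' / (3 ρ²)`. -/
def S_DER : Prop := ∀ (p : ℝ → ℝ) (X Z : ℝ × ℝ → ℝ × ℝ), TWeb p X Z → ∀ θ : ℝ,
  deriv (fun t => (X (θ, t)).1) 0 = 1 / rho p θ ∧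
  (deriv (fun t => (X (θ, t)).2) 0) ^ 2 = 1 / (2 * rho p θ) ∧
  deriv (deriv (fun t => (X (θ, t)).2)) 0 =
    - (deriv (fun t => (X (θ, t)).2) 0) * deriv (rho p) θ / (3 * rho p θ ^ 2)

/-- **GX-AREA.** Areas in the two coordinate systems. PROOF. Put `φ (θ) = X₁ (θ, T θ)`, `y (θ) = X₂ (θ, T θ)²`, `z (θ) = gam p θ + T θ e θ = gam p φ + y nu φ` and
`z × w = z.re w.im - z.im w.re`, so `nu × e = 1`. With `gam' = ρ e`, `nu' = e`, `e' = - nu`, `gam = p nu + p' e` the two expressions of `z' (θ)` give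
`z × z' = (p (φ) + y) (ρ (φ) + y) φ' - p' (φ) y' = p ρ (θ) + T (p' (θ) + T) + p (θ) T'`. (Both: `z = (p + y) nu + p' e` at `φ`, `z' = (ρ + y) φ' e + y' nu`;
`z = p nu + (p' + T) e` at `θ`, `z' = (ρ + T') e - T nu`.) The left side is `(2 ρ (φ) y + y²) φ' + (p ρ) (φ) φ' - (p' (φ) y)'` because `p y - ρ y = - p'' y`; the right side is
`T² + p ρ (θ) + (p T)'`. Integrate over `[0, 2π]`: the derivatives of periodic functions have integral `0`, and `∫ (p ρ) (φ (θ)) φ' (θ) dθ = ∫_{φ(0)}^{φ(0) + 2π} p ρ =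
∫_0^{2π} p ρ` (substitution, `φ (θ + 2π) = φ (θ) + 2π`). -/
def S_AREA : Prop := ∀ (p : ℝ → ℝ) (X Z : ℝ × ℝ → ℝ × ℝ), TWeb p X Z → ∀ T : ℝ → ℝ, ContDiff ℝ ∞ T →
  (∀ θ, T (θ + 2 * Real.pi) = T θ) →
  ∫ θ in (0 : ℝ)..(2 * Real.pi), (2 * rho p (X (θ, T θ)).1 * (X (θ, T θ)).2 ^ 2 + ((X (θ, T θ)).2 ^ 2) ^ 2) *
      deriv (fun x => (X (x, T x)).1) θ
    = ∫ θ in (0 : ℝ)..(2 * Real.pi), T θ ^ 2

/-- **GX-LOC.** Local inverse functions with a periodic parameter. PROOF. By compactness of the circle and continuity of `∂_t f` there is `δ > 0` with `∂_t f > 0` for `|t| ≤ δ`; `f (θ, ·)` is strictly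
increasing on `[-δ, δ]`, `ε` = a number smaller than `δ` and than the minima over `θ ∈ [0, 2π]` of `f (θ, δ/2)`, `- f (θ, -δ/2)` (positive). For `|s| < ε` there is exactly one `g (θ, s) ∈ (-δ, δ)`
with `f (θ, g) = s` (put `g = 0` for `|s| ≥ ε`); smoothness by the inverse function theorem for `(θ, t) ↦ (θ, f (θ, t))` near `(θ₀, g (θ₀, s₀))` (a continuous local solution with values in `(-δ, δ)` equals `g` by
uniqueness; alternatively apply GX-INV, with `a = δ`, to `f (θ, β) + κ (β)`, `κ` smooth nondecreasing on `(-δ, δ)`, zero for `|β| ≤ δ/2`, tending to `±∞` at `±δ`). -/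
def S_LOC : Prop := ∀ f : ℝ × ℝ → ℝ, ContDiff ℝ ∞ f → (∀ θ t : ℝ, f (θ + 2 * Real.pi, t) = f (θ, t)) →
  (∀ θ : ℝ, f (θ, 0) = 0) → (∀ θ : ℝ, 0 < deriv (fun t => f (θ, t)) 0) →
  ∃ (ε δ : ℝ) (g : ℝ × ℝ → ℝ), 0 < ε ∧ 0 < δ ∧ ContDiffOn ℝ ∞ g {x | |x.2| < ε} ∧
    (∀ θ s : ℝ, g (θ + 2 * Real.pi, s) = g (θ, s)) ∧
    (∀ θ s : ℝ, |s| < ε → |g (θ, s)| < δ ∧ f (θ, g (θ, s)) = s) ∧
    (∀ θ t s : ℝ, |t| < δ → |s| < ε → f (θ, t) = s → t = g (θ, s)) ∧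
    (∀ θ : ℝ, g (θ, 0) = 0) ∧ (∀ θ s : ℝ, 0 < s → s < ε → 0 < g (θ, s)) ∧
    (∀ θ : ℝ, deriv (fun s => g (θ, s)) 0 = 1 / deriv (fun t => f (θ, t)) 0)

/-! ### Part F: the formal first integral -/

/-- The odd part (twice) of `H` on the tangent line number `θ`. -/
def Odd (X : ℝ × ℝ → ℝ × ℝ) (H : ℝ × ℝ → ℝ) (θ t : ℝ) : ℝ :=
  H ((X (θ, t)).1, (X (θ, t)).2 ^ 2) - H ((X (θ, -t)).1, (X (θ, -t)).2 ^ 2)

/-- `H` is even up to a flat error on all tangent lines. -/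
def Flat (X : ℝ × ℝ → ℝ × ℝ) (H : ℝ × ℝ → ℝ) : Prop :=
  ∀ N : ℕ, ∃ E : ℝ × ℝ → ℝ, ContDiff ℝ ∞ E ∧ (∀ θ t : ℝ, E (θ + 2 * Real.pi, t) = E (θ, t)) ∧
    ∀ θ t : ℝ, Odd X H θ t = t ^ N * E (θ, t)

/-- **GX-HAD.** Hadamard's lemma. PROOF. `g (θ, t) = ∫₀¹ ∂_t f (θ, u t) du` is smooth (parametric integral of a smooth
function over a compact interval), or search the library. -/
def S_HAD : Prop := ∀ f : ℝ × ℝ → ℝ, ContDiff ℝ ∞ f → (∀ θ : ℝ, f (θ, 0) = 0) →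
  ∃ g : ℝ × ℝ → ℝ, ContDiff ℝ ∞ g ∧ ∀ θ t : ℝ, f (θ, t) = t * g (θ, t)

/-- Smooth `2π`-periodic functions of one variable. -/
structure PP (u : ℝ → ℝ) : Prop where
  smooth : ContDiff ℝ ∞ u
  per : ∀ φ, u (φ + 2 * Real.pi) = u φ

/-- **GX-MEAN.** The solvability condition: area preservation. From GX-AREA, GX-LOC, GX-HAD.
PROOF. `u₁ θ = ∂_y H (θ, 0) > 0`, `b θ = ∂_t X₂ (θ, 0) > 0`, `b² = 1/(2ρ)` (GX-DER, may be a hypothesis). By GX-HAD `H = y K (φ, y)`, `K (φ, 0) = u₁`, `X₂ = t r₁ (θ, t)`, `r₁ (θ, 0) = b`. So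
`H (X₁, X₂²) = t² Q (θ, t)`, `Q = r₁² K (X₁, X₂²)`, `Q (θ, 0) = b² u₁ > 0`, `Q > 0` for `|t|` small. GX-LOC applied to `f (θ, t) = t √Q` (with `Q` modified for `|t|` not small so that it
stays positive) gives `T (θ, s)` smooth for `|s| < ε`, periodic, `T > 0` for `s > 0`, `T (θ, 0) = 0`, `∂_s T (θ, 0) = 1/√(b² u₁) = √(2ρ/u₁)` and `H (X (θ, T).1, X (θ, T).2²) = s²`.
GX-LOC applied to `H` gives `ℓ (φ, h)` with `H (φ, ℓ (φ, h)) = h`. Let `M (φ, y) = 2 ρ (φ) y + y²`, `N (φ, h) = M (φ, ℓ (φ, h))`, `∂_h N (φ, 0) = 2 ρ / u₁`. Fix small `s > 0`, put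
`T_s θ = T (θ, s)`, `φ± (θ) = X₁ (θ, ± T_s θ)`, `y± = X₂ (θ, ± T_s θ)²`. GX-AREA for `T_s` and `-T_s`: `∫ M (φ₊, y₊) φ₊' = ∫ T_s² = ∫ M (φ₋, y₋) φ₋'`. Here `y₊ = ℓ (φ₊, s²)`,
`y₋ = ℓ (φ₋, s² - T_s^m E (θ, T_s))` (as `H (φ₊, y₊) - H (φ₋, y₋) = Odd X H θ T_s = T_s^m E`). By substitution (`φ±` have degree one)
`∫ N (φ₊, s²) φ₊' = ∫_0^{2π} N (φ, s²) dφ = ∫ N (φ₋, s²) φ₋'`. Hence `∫ (N (φ₋, s²) - N (φ₋, s² - T_s^m E (θ, T_s))) φ₋' dθ = 0`. Write `N (φ, h) - N (φ, h - d) = d * N₁ (φ, h, d)` with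
`N₁` continuous, `N₁ (φ, 0, 0) = ∂_h N (φ, 0)` (e.g. `N₁ = ∫₀¹ ∂_h N (φ, h - u d) du`) and `T_s = s * τ (θ, s)` (GX-HAD / continuity, `τ (θ, 0) = √(2ρ/u₁)`). Divide by `s^m`:
`∫ τ (θ, s)^m E (θ, T_s) N₁ (φ₋, s², T_s^m E) φ₋' dθ = 0` for all small `s > 0`; the integrand is continuous in `(θ, s)` up to `s = 0`, where `φ₋ = θ`, `φ₋' = 1`: so
`∫ √(2ρ/u₁)^m E (θ, 0) 2ρ/u₁ dθ = 0`. (For `m = 0`: `E (θ, 0) = 0` trivially; assume `m ≥ 1`.) -/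
def S_MEAN : Prop := ∀ (p : ℝ → ℝ) (X Z : ℝ × ℝ → ℝ × ℝ), TWeb p X Z → ∀ (m : ℕ) (H E : ℝ × ℝ → ℝ), 1 ≤ m →
  ContDiff ℝ ∞ H → (∀ φ y : ℝ, H (φ + 2 * Real.pi, y) = H (φ, y)) → (∀ φ : ℝ, H (φ, 0) = 0) →
  (∀ φ : ℝ, 0 < deriv (fun y => H (φ, y)) 0) → ContDiff ℝ ∞ E → (∀ θ t : ℝ, Odd X H θ t = t ^ m * E (θ, t)) →
  ∫ θ in (0 : ℝ)..(2 * Real.pi), Real.sqrt (2 * rho p θ / deriv (fun y => H (θ, y)) 0) ^ m * E (θ, 0) *
    (rho p θ / deriv (fun y => H (θ, y)) 0) = 0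

/-- **GX-LIN.** The leading odd term. PROOF. By GX-HAD (applied to `X₂`, which vanishes at `t = 0`) `X₂ = t r₁ (θ, t)`, `r₁` smooth, `r₁ (θ, 0) = b θ = ∂_t X₂ (θ, 0)`, `∂_t r₁ (θ, 0) = ∂_t² X₂ (θ, 0) / 2`.
`H = y^n u (φ)` has `H (X₁, X₂²) = t^{2n} q (θ, t)`, `q = r₁^{2n} u (X₁)`, so `Odd X H θ t = t^{2n} (q (θ, t) - q (θ, -t)) = t^{2n} * t * s (θ, t)` by GX-HAD, `s` is even in `t` (for `t ≠ 0` clear, both sides
agree at `t = 0`) and `s (θ, 0) = 2 ∂_t q (θ, 0) = 2 b^{2n} a u' + 4 n b^{2n-1} ∂_t r₁ (θ, 0) u`, `a = ∂_t X₁ (θ, 0)`. -/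
def S_LIN : Prop := ∀ X Z : ℝ × ℝ → ℝ × ℝ, Web X Z → ∀ n : ℕ, 1 ≤ n → ∀ u : ℝ → ℝ, PP u →
  ∃ s : ℝ × ℝ → ℝ, ContDiff ℝ ∞ s ∧ (∀ θ t : ℝ, Odd X (fun x => x.2 ^ n * u x.1) θ t = t ^ (2 * n + 1) * s (θ, t)) ∧
    (∀ θ t : ℝ, s (θ, -t) = s (θ, t)) ∧
    ∀ θ : ℝ, s (θ, 0) = 2 * (deriv (fun t => (X (θ, t)).2) 0) ^ (2 * n) * deriv (fun t => (X (θ, t)).1) 0 * deriv u θ
      + 2 * n * (deriv (fun t => (X (θ, t)).2) 0) ^ (2 * n - 1) * deriv (deriv (fun t => (X (θ, t)).2)) 0 * u θ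

/-- **GX-FSTEP.** The base and one step of the construction of the formal first integral. From GX-LIN, GX-DER, GX-MEAN, GX-HAD.
PROOF. `c = cr p = ρ^{1/3} > 0` is smooth and periodic, `c³ = ρ`, `ρ' = 3 c² c'`. By GX-DER `a = c^{-3}`, `b² = 1/(2 c³)`, `∂_t² X₂ (θ, 0) = - b c' / c⁴`. So in GX-LIN
`s (θ, 0) = 2 b^{2n} c^{-3} u' - 2 n b^{2n} c^{-4} c' u = 2 b^{2n} c^{-4} (c u' - n c' u)`.
(A) `n = 1`, `u = c`: `s (θ, 0) = 0`, and `s` is even in `t`, so `s = t² s'` (GX-HAD twice: `s = t s₁`, `s₁` is odd in `t` so `s₁ (θ, 0) = 0`).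
(B) Let `Odd X H θ t = t^{2n+1} E (θ, t)`. `Odd` is odd in `t` so `E` is even in `t`; `E (·, 0)` is periodic (limit `t → 0`). For `u = c^n v`: `c u' - n c' u = c^{n+1} v'`, so
`s (θ, 0) = 2^{1-n} c^{-(2n+3)} v'`. Put `v θ = - 2^{n-1} ∫₀^θ c^{2n+3} E (·, 0)`; it is periodic because `∫_0^{2π} c^{2n+3} E (·, 0) = 0` by GX-MEAN with `m = 2n+1`: there `u₁ = c`,
`√(2ρ/u₁) = √2 c`, `ρ/u₁ = c²`. Then `Odd X (H + y^n u) = t^{2n+1} (E + s)`, `E + s` is even in `t` and vanishes at `t = 0`, so it is `t²` times a smooth function. -/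
def S_FSTEP : Prop := ∀ (p : ℝ → ℝ) (X Z : ℝ × ℝ → ℝ × ℝ), TWeb p X Z →
  (PP (cr p) ∧ (∀ φ, 0 < cr p φ) ∧ ∃ E : ℝ × ℝ → ℝ, ContDiff ℝ ∞ E ∧
    ∀ θ t : ℝ, Odd X (fun x => x.2 * cr p x.1) θ t = t ^ 5 * E (θ, t)) ∧
  ∀ (n : ℕ) (H E : ℝ × ℝ → ℝ), 2 ≤ n → ContDiff ℝ ∞ H → (∀ φ y : ℝ, H (φ + 2 * Real.pi, y) = H (φ, y)) →
    (∀ φ : ℝ, H (φ, 0) = 0) → (∀ φ : ℝ, deriv (fun y => H (φ, y)) 0 = cr p φ) → ContDiff ℝ ∞ E →
    (∀ θ t : ℝ, Odd X H θ t = t ^ (2 * n + 1) * E (θ, t)) →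
    ∃ u : ℝ → ℝ, PP u ∧ ∃ E' : ℝ × ℝ → ℝ, ContDiff ℝ ∞ E' ∧
      ∀ θ t : ℝ, Odd X (fun x => H x + x.2 ^ n * u x.1) θ t = t ^ (2 * n + 3) * E' (θ, t)

/-- **GX-BOREL.** Borel's lemma with a parameter. PROOF. Fix a smooth bump `b : ℝ → [0,1]`, `b = 1` near `0`, `b = 0` off
`[-1, 1]`. `H (φ, y) = ∑_k y^k u_k (φ) b (y / ε_k)`, `ε_k > 0` so small that for all `m ≤ k` the derivatives of order `< k - m` of `y^{k-m} u_k (φ) b (y/ε_k)` are at most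
`2^{-k}` everywhere (it is `ε^{k-m} u_k (φ) ψ (y/ε)`, `ψ (s) = s^{k-m} b (s)` with compact support, so its derivatives of order
`j < k - m` are `O (ε^{k-m-j})`, uniformly by periodicity of `u_k`). Then a `contDiff_tsum`-type theorem (split off the first
terms) gives smoothness; the sum is periodic. Remainder: for each `N`,
`H - ∑_{k<N} y^k u_k = ∑_{k<N} y^k u_k (b (y/ε_k) - 1) + ∑_{k ≥ N} ...`; the first is `y^N` times a smooth function because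
`b (y/ε_k) - 1` vanishes near `y = 0`; the second is `y^N ∑_{k≥N} y^{k-N} u_k b (y/ε_k)`, and this series is smooth for the same reason. -/
def S_BOREL : Prop := ∀ u : ℕ → ℝ → ℝ, (∀ k, PP (u k)) → ∃ H : ℝ × ℝ → ℝ, ContDiff ℝ ∞ H ∧
  (∀ φ y : ℝ, H (φ + 2 * Real.pi, y) = H (φ, y)) ∧
  ∀ N : ℕ, ∃ R : ℝ × ℝ → ℝ, ContDiff ℝ ∞ R ∧
    ∀ φ y : ℝ, H (φ, y) = (∑ k ∈ Finset.range N, y ^ k * u k φ) + y ^ N * R (φ, y)

/-- **GX-FORMAL.** From GX-FSTEP, GX-BOREL, GX-HAD. PROOF. Recursively (dependent choice) there are `u_1 = cr p, u_2, u_3, ...`, all `PP`, such that for `n ≥ 1`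
`H_n = ∑_{k=1}^n y^k u_k (φ)` satisfies `Odd X H_n θ t = t^{2n+3} E_n (θ, t)`, `E_n` smooth: `u_1` from the first part, `u_{n+1}` from the second for `n+1` (`∂_y H_n (φ, 0) = u_1 φ`). Put `u_0 = 0` and take
`H` from GX-BOREL. `H = H_n + y^{n+1} R`, and `y^{n+1} R` at `y = X₂² = t² r₁²` is `t^{2n+2} q (θ, t)`, `q` smooth (`X₂ = t r₁`, GX-HAD); so `Odd X H θ t = t^{2n+2} E (θ, t)`, `E` smooth, for all `n`, hence `t^N E` for all
`N`. `E` is periodic in `θ`: clear for `t ≠ 0`, by continuity for `t = 0`. `H (φ, 0) = u_0 = 0`, `∂_y H (φ, 0) = u_1 > 0` (use `N = 2` of GX-BOREL). -/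
def S_FORMAL : Prop := ∀ (p : ℝ → ℝ) (X Z : ℝ × ℝ → ℝ × ℝ), TWeb p X Z → ∃ H : ℝ × ℝ → ℝ, ContDiff ℝ ∞ H ∧
  (∀ φ y : ℝ, H (φ + 2 * Real.pi, y) = H (φ, y)) ∧
  (∀ φ : ℝ, H (φ, 0) = 0) ∧ (∀ φ : ℝ, 0 < deriv (fun y => H (φ, y)) 0) ∧ Flat X H

/-! ### Part D: the flat correction

Logarithmic coordinates: a point `x = (θ, s)` stands for `(θ, t)`, `t = lam * exp s`. -/

/-- The sum of the norms of the derivatives of order at most `j`. -/
noncomputable def nrm {F : Type} [NormedAddCommGroup F] [NormedSpace ℝ F] (j : ℕ) (f : ℝ × ℝ → F) (x : ℝ × ℝ) : ℝ :=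
  ∑ i ∈ Finset.range (j + 1), ‖iteratedFDeriv ℝ i f x‖

/-- All derivatives are bounded by a multiple of `exp (x.2)` in the half plane `x.2 ≤ 0`. -/
def Small (W : ℝ × ℝ → ℝ × ℝ) : Prop :=
  ContDiff ℝ ∞ W ∧ ∀ i : ℕ, ∃ C : ℝ, ∀ x : ℝ × ℝ, x.2 ≤ 0 → ‖iteratedFDeriv ℝ i W x‖ ≤ C * Real.exp x.2

/-- **GX-COMP.** Composition with a map close to the identity. PROOF. Prove it for functions `f` with values in an arbitrary normed
space `F : Type`, by induction on `j`. `S x = x + W x`. `j = 0`: `iteratedFDeriv 0` is the value. Step: `‖D^{i+1} f‖ = ‖D^i (Df)‖`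
(`norm_iteratedFDeriv_fderiv`), so `nrm (j+1) f x = ‖f x‖ + nrm j (Df) x`. `D (f ∘ S) x = Df (S x) + (Df (S x)) ∘ (DW x)`. By the induction
hypothesis for `Df` the first term has `nrm j` at most `(1 + C e^{x.2}) nrm j (Df) (S x)`; for the second use
`ContinuousLinearMap.norm_iteratedFDeriv_le_of_bilinear` (composition is bilinear of norm `≤ 1`): its `nrm j` is at most
`C' * nrm j (Df ∘ S) x * (∑_{i ≤ j} ‖D^{i+1} W x‖) ≤ C'' e^{x.2} nrm j (Df) (S x)`. -/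
def S_COMP : Prop := ∀ W : ℝ × ℝ → ℝ × ℝ, Small W → ∀ j : ℕ, ∃ C : ℝ, 0 ≤ C ∧ ∀ f : ℝ × ℝ → ℝ, ContDiff ℝ ∞ f →
  ∀ x : ℝ × ℝ, x.2 ≤ 0 → nrm j (fun z => f (z + W z)) x ≤ (1 + C * Real.exp x.2) * nrm j f (x + W x)

/-- **GX-DYN.** Summation along the orbits of `S x = x + W x`. PROOF (hypothesis: GX-COMP). Let `‖W x‖ ≤ C₀ e^{x.2}` (`x.2 ≤ 0`),
`x_k = S^k x`, `x_0 = x`, `x.1 < b`, `x.2 < s₁ := -1 - C₀ ((b - a) / c + 1)`. As long as `x_k.1 > a`: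
`x_{k+1}.1 ≤ x_k.1 - c e^{x_k.2}`, so `∑_{i<k} e^{x_i.2} ≤ (b - a)/c + 1` and `|x_k.2 - x.2| ≤ C₀ ((b-a)/c + 1)`, in particular `x_k.2 ≤ 0` (induction on `k`; also for the first `k` with `x_k.1 ≤ a`).
The first coordinates are nonincreasing for ever (`(W x).1 ≤ 0`), so once `x_k.1 ≤ a` all later terms `h (x_k)` vanish; and since `x_k` decreases by at
least `c e^{x.2 - C'}` in each step the number of the `k` with `x_k.1 > a` is at most `K x = 1 + C'' e^{-x.2}`. Define `g x = ∑_k h (x_k)` (finite sum / `finsum` /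
`tsum`). Clearly `g x - g (S x) = h x`. Near a point of the region `g` is the sum of the first `K` terms for a fixed `K` (the bound `K x` is
locally bounded), so `g` is smooth. Flatness: `h` and all its derivatives vanish where `x.1 ≤ a` (on the closed half plane: limits). For `x_k.1 > a`, by GX-COMP iterated,
`nrm j (h ∘ S^k) x ≤ ∏_{i<k} (1 + C e^{x_i.2}) nrm j h (x_k) ≤ exp (C ((b-a)/c + 1)) * C_N e^{N x_k.2} ≤ C'_N e^{N x.2}`. For the first `k` with `x_k.1 ≤ a` the same inequality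
gives `0` (all `x_i.2 ≤ 0`, `i < k`), and for all larger `k` the function `h ∘ S^k` vanishes near `x` (its first coordinate has dropped strictly below `a`).
Sum over at most `K x + 1` values of `k`: `‖D^i g x‖ ≤ C e^{(N-1) x.2}`. -/
def S_DYN : Prop := ∀ (W : ℝ × ℝ → ℝ × ℝ) (a b c : ℝ), Small W → a < b → 0 < c → (∀ x, (W x).1 ≤ 0) →
  (∀ x : ℝ × ℝ, x.2 ≤ 0 → (W x).1 ≤ - c * Real.exp x.2) →
  ∀ h : ℝ × ℝ → ℝ, ContDiff ℝ ∞ h → (∀ x : ℝ × ℝ, x.1 ≤ a → h x = 0) →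
  (∀ (i N : ℕ), ∃ C : ℝ, ∀ x : ℝ × ℝ, x.1 ≤ b → x.2 ≤ 0 → ‖iteratedFDeriv ℝ i h x‖ ≤ C * Real.exp (N * x.2)) →
  ∃ (s₁ : ℝ) (g : ℝ × ℝ → ℝ), s₁ < 0 ∧ ContDiffOn ℝ ∞ g {x | x.1 < b ∧ x.2 < s₁} ∧
    (∀ x : ℝ × ℝ, x.1 < b → x.2 < s₁ → g x - g (x + W x) = h x) ∧
    ∀ (i N : ℕ), ∃ C : ℝ, ∀ x : ℝ × ℝ, x.1 < b → x.2 < s₁ → ‖iteratedFDeriv ℝ i g x‖ ≤ C * Real.exp (N * x.2)

/-- The map `S = (outer billiard)⁻¹`: pass from `(θ, t)` to the point with parameter `-t` and take its other tangent line. -/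
def Sm (X Z : ℝ × ℝ → ℝ × ℝ) (x : ℝ × ℝ) : ℝ × ℝ := Z ((X (x.1, -x.2)).1, -(X (x.1, -x.2)).2)

/-- **GX-SMAP.** PROOF. Let `a θ = ∂_t X₁ (θ, 0) > 0`, `b θ = ∂_t X₂ (θ, 0) > 0`. `J = Z ∘ diag (1, -1) ∘ X` fixes `(θ, 0)`; with
`DX (θ, 0) = [[1, a], [0, b]]` and `DZ` its inverse one gets `∂_t J (θ, 0) = (2 a, -1)`. `Sm (θ, t) = J (θ, -t)`, so `∂_t Sm (θ, 0) = (-2 a, 1)`. GX-HAD applied to
`Sm₁ - θ` and to `Sm₂` gives `A`, `C` with `A (θ, 0) = 2 a > 0`, `C (θ, 0) = 1`. Periodicity: `Sm (θ + 2π, t) = Sm (θ, t) + (2π, 0)` (from `per`, and the same for `Z`), so `A`, `C`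
are periodic for `t ≠ 0` and by continuity for `t = 0`. -/
def S_SMAP : Prop := ∀ X Z : ℝ × ℝ → ℝ × ℝ, Web X Z → ∃ A C : ℝ × ℝ → ℝ, ContDiff ℝ ∞ A ∧ ContDiff ℝ ∞ C ∧
  (∀ θ t : ℝ, A (θ + 2 * Real.pi, t) = A (θ, t)) ∧ (∀ θ t : ℝ, C (θ + 2 * Real.pi, t) = C (θ, t)) ∧
  (∀ θ : ℝ, 0 < A (θ, 0)) ∧ (∀ θ : ℝ, C (θ, 0) = 1) ∧
  ∀ θ t : ℝ, Sm X Z (θ, t) = (θ - t * A (θ, t), t * C (θ, t))

/-- **GX-LOGB.** PROOF. The function is the product of `exp (m x.2)`, whose derivatives of order `i` are at most `m^i e^{m x.2}`, and of `f ∘ q`,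
`q x = (x.1, lam e^{x.2})`. All derivatives of order `≥ 1` of `q` are bounded for `x.2 ≤ 0`, the derivatives of `f` are bounded on
`ℝ × [-lam, lam]` (periodicity and compactness), so those of `f ∘ q` are bounded (`norm_iteratedFDeriv_comp_le`), and the Leibniz rule
(`norm_iteratedFDeriv_mul_le`) finishes. -/
def S_LOGB : Prop := ∀ (f : ℝ × ℝ → ℝ) (lam : ℝ) (m : ℕ), 0 < lam → ContDiff ℝ ∞ f →
  (∀ θ t : ℝ, f (θ + 2 * Real.pi, t) = f (θ, t)) → ∀ i : ℕ, ∃ C : ℝ, ∀ x : ℝ × ℝ, x.2 ≤ 0 →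
    ‖iteratedFDeriv ℝ i (fun x : ℝ × ℝ => Real.exp x.2 ^ m * f (x.1, lam * Real.exp x.2)) x‖ ≤ C * Real.exp (m * x.2)

/-- **GX-LOGMAP.** The map `Sm` in logarithmic coordinates (from GX-SMAP, GX-LOGB, GX-HAD). PROOF. By compactness and periodicity choose `t₀ > 0`, `a₀ > 0` with `A > a₀` and
`1/2 < C < 2` for `|t| ≤ 2 t₀`. Let `bb : ℝ → [0,1]` be smooth, `1` on `[-t₀, t₀]`, `0` off `[-2 t₀, 2 t₀]`; `A₁ = bb (t) A + (1 - bb (t)) a₀ ≥ a₀` everywhere,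
`C₁ = 1 + bb (t) (C - 1) ∈ (1/2, 2)`, `log C₁` is smooth, periodic and vanishes at `t = 0`, so it is `t B₁` (GX-HAD; `B₁` is periodic).
`lam = t₀`, `W (θ, s) = (- lam e^s A₁ (θ, lam e^s), lam e^s B₁ (θ, lam e^s))`, which is `Small` by GX-LOGB with `m = 1`. `c = lam a₀`. -/
def S_LOGMAP : Prop := ∀ X Z : ℝ × ℝ → ℝ × ℝ, Web X Z → ∃ (lam c : ℝ) (W : ℝ × ℝ → ℝ × ℝ), 0 < lam ∧ 0 < c ∧ Small W ∧
  (∀ x, (W x).1 ≤ 0) ∧ (∀ x : ℝ × ℝ, x.2 ≤ 0 → (W x).1 ≤ - c * Real.exp x.2) ∧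
  ∀ x : ℝ × ℝ, x.2 ≤ 0 →
    Sm X Z (x.1, lam * Real.exp x.2) = (x.1 + (W x).1, lam * Real.exp (x.2 + (W x).2))

/-- **GX-FLATEXT.** A flat function of `(φ, w)`, `y = exp (2 w)`, extends by zero to a smooth function of `(φ, y)`. PROOF. Put
`F (φ, y) = f (φ, log y / 2)` for `0 < y < e^{2 w₀}`, `0` for `y ≤ 0`. On `y > 0` it is smooth and by induction on `i` all derivatives satisfy
`‖D^i F (φ, y)‖ ≤ C_{i,N} y^N` (composition: the derivatives of order `m` of `log y / 2` are `O (y^{-m})`, `norm_iteratedFDeriv_comp_le` with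
`D = C / y` for `y ≤ 1`). General fact by induction on the order: a function (with values in a normed space) which is smooth on `y > 0`, zero for `y ≤ 0`
and whose derivatives of every order are `O (y²)` near the line `y = 0` is `C^1` with derivative of the same kind, hence `C^∞`. -/
def S_FLATEXT : Prop := ∀ (f : ℝ × ℝ → ℝ) (w₀ : ℝ), ContDiffOn ℝ ∞ f {x | x.2 < w₀} →
  (∀ (i N : ℕ), ∃ C : ℝ, ∀ x : ℝ × ℝ, x.2 < w₀ → ‖iteratedFDeriv ℝ i f x‖ ≤ C * Real.exp (N * x.2)) →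
  ContDiffOn ℝ ∞ (fun x : ℝ × ℝ => if 0 < x.2 then f (x.1, Real.log x.2 / 2) else 0) {x | x.2 < Real.exp (2 * w₀)}

/-- The map from `(φ, w)`, `r = exp w`, to the logarithmic coordinates `(θ, s)`, `t = lam * exp s`, of the tangent line with `t > 0`. -/
noncomputable def Lm (Z : ℝ × ℝ → ℝ × ℝ) (lam : ℝ) (x : ℝ × ℝ) : ℝ × ℝ :=
  ((Z (x.1, Real.exp x.2)).1, Real.log ((Z (x.1, Real.exp x.2)).2 / lam))

/-- **GX-LM.** The change of the logarithmic coordinates has bounded derivatives. PROOF. `Z (φ, 0) = (φ, 0)`, so by GX-HAD `Z₁ = φ + r α (φ, r)`, `Z₂ = r β (φ, r)`,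
`α, β` smooth and periodic (`Z (φ + 2π, r) = Z (φ, r) + (2π, 0)` from `per`), `β > 0` for `r ≥ 0` (`β (φ, 0) = 1 / der2 > 0`; `Z₂ > 0` for `r > 0` by `sgn'`, `axis`). So for `w ≤ 0`
`Lm = (φ + e^w α (φ, e^w), w + log β (φ, e^w) - log lam)`, and GX-LOGB (with `lam = 1`, `m = 1`, `m = 0`; for `log β` modify `β` for `r ∉ [-1/2.., 2]` where it might not be positive, e.g. take a smooth positive
periodic function equal to `β` on `0 ≤ r ≤ 1`) gives the bounds: the derivatives of order `≥ 1` are bounded. -/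
def S_LM : Prop := ∀ (X Z : ℝ × ℝ → ℝ × ℝ) (lam : ℝ), Web X Z → 0 < lam →
  ContDiffOn ℝ ∞ (Lm Z lam) {x | x.2 < 0} ∧
  (∀ i : ℕ, 1 ≤ i → ∃ C : ℝ, ∀ x : ℝ × ℝ, x.2 < 0 → ‖iteratedFDeriv ℝ i (Lm Z lam) x‖ ≤ C) ∧
  ∃ C : ℝ, 0 < C ∧ ∀ x : ℝ × ℝ, x.2 < 0 →
    |(Lm Z lam x).1 - x.1| ≤ C * Real.exp x.2 ∧ |(Lm Z lam x).2 - x.2| ≤ C

/-- **GX-CUT.** The cut-off near the axis. PROOF. Let `η : ℝ → [0, 1]` be smooth, `0` on `(-∞, 1]`, `1` on `[2, ∞)`. Take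
`χ (φ, w) = η (φ e^{-w/4}) η ((2π - φ) e^{-w/4})`. If `χ` or a derivative is nonzero at a point then `0 < φ < 2π`. The derivatives of `φ e^{-w/4}` of order `i`
are at most `C e^{-w/4}` for `0 ≤ φ ≤ 2π`, `w ≤ 0`, so those of `χ` are at most `C_i e^{-i w / 4} ≤ C_i e^{- i w}` (`norm_iteratedFDeriv_comp_le`, `norm_iteratedFDeriv_mul_le`;
at the points with `φ ≤ 0` or `φ ≥ 2π` the function `χ` vanishes near the point). -/
def S_CUT : Prop := ∃ χ : ℝ × ℝ → ℝ, ContDiff ℝ ∞ χ ∧ (∀ x : ℝ × ℝ, (x.1 ≤ Real.exp (x.2 / 4) ∨ 2 * Real.pi ≤ x.1 + Real.exp (x.2 / 4)) → χ x = 0) ∧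
  (∀ x : ℝ × ℝ, 2 * Real.exp (x.2 / 4) ≤ x.1 → 2 * Real.exp (x.2 / 4) ≤ 2 * Real.pi - x.1 → χ x = 1) ∧
  ∀ i : ℕ, ∃ C : ℝ, ∀ x : ℝ × ℝ, x.2 ≤ 0 → ‖iteratedFDeriv ℝ i χ x‖ ≤ C * Real.exp (-(i : ℝ) * x.2)

/-- **GX-FLATMUL.** Flat functions composed with the change of coordinates and multiplied by the cut-off are flat. PROOF. On the open set `{x.2 < w₀}` with
`w₀ ≤ 0`: at a point with `x.1 ≤ 0` or `x.1 ≥ 2π` the function `f = χ * (g ∘ L)` vanishes near `x` (as `χ` vanishes near `x`: `χ = 0` where `x.1 < e^{x.2/4}` or `2π - x.1 < e^{x.2/4}`),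
so all derivatives are `0`. For `0 < x.1 < 2π` the point `L x` satisfies `(L x).1 < b`, `(L x).2 < s₁` if `w₀` is small enough (the bounds on `L`), where `g` is
smooth with `‖D^i g‖ ≤ C_{i,N} e^{N (L x).2} ≤ C e^{N x.2}`; `L` has bounded derivatives of order `≥ 1`, so `‖D^i (g ∘ L)‖ ≤ C e^{N x.2}`
(`norm_iteratedFDerivWithin_comp_le` or `norm_iteratedFDeriv_comp_le` for local versions; the sets are open), and the Leibniz rule with `‖D^i χ‖ ≤ C e^{-i x.2}` finishes (use `N + j` in place of `N`). -/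
def S_FLATMUL : Prop := ∀ (χ g : ℝ × ℝ → ℝ) (L : ℝ × ℝ → ℝ × ℝ) (b s₁ : ℝ), 2 * Real.pi < b →
  ContDiff ℝ ∞ χ → (∀ x : ℝ × ℝ, (x.1 ≤ Real.exp (x.2 / 4) ∨ 2 * Real.pi ≤ x.1 + Real.exp (x.2 / 4)) → χ x = 0) →
  (∀ i : ℕ, ∃ C : ℝ, ∀ x : ℝ × ℝ, x.2 ≤ 0 → ‖iteratedFDeriv ℝ i χ x‖ ≤ C * Real.exp (-(i : ℝ) * x.2)) →
  ContDiffOn ℝ ∞ g {x | x.1 < b ∧ x.2 < s₁} →
  (∀ (i N : ℕ), ∃ C : ℝ, ∀ x : ℝ × ℝ, x.1 < b → x.2 < s₁ → ‖iteratedFDeriv ℝ i g x‖ ≤ C * Real.exp (N * x.2)) →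
  ContDiffOn ℝ ∞ L {x | x.2 < 0} →
  (∀ i : ℕ, 1 ≤ i → ∃ C : ℝ, ∀ x : ℝ × ℝ, x.2 < 0 → ‖iteratedFDeriv ℝ i L x‖ ≤ C) →
  (∃ C : ℝ, 0 < C ∧ ∀ x : ℝ × ℝ, x.2 < 0 → |(L x).1 - x.1| ≤ C * Real.exp x.2 ∧ |(L x).2 - x.2| ≤ C) →
  ∃ w₀ : ℝ, w₀ < 0 ∧ ContDiffOn ℝ ∞ (fun x => χ x * g (L x)) {x | x.2 < w₀} ∧
    ∀ (i N : ℕ), ∃ C : ℝ, ∀ x : ℝ × ℝ, x.2 < w₀ →
      ‖iteratedFDeriv ℝ i (fun x => χ x * g (L x)) x‖ ≤ C * Real.exp (N * x.2)

/-- **GX-PER.** Periodic extension. PROOF. `P (φ, y) = ∑_{m ∈ ℤ} G (φ + 2 π m, y)`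
(at each point at most one term is different from zero, the sum is locally finite: near a point only `m` in a fixed finite set matter, so `P` is smooth, e.g. with `finsum` and
`contDiff` of locally finite sums), periodic by reindexing; for `0 ≤ φ ≤ 2π` only `m = 0` contributes. Alternatively `P (φ, y) = G (toIcoMod φ, y)` and
smoothness near the multiples of `2π` because `G` and all its derivatives vanish there. -/
def S_PER : Prop := ∀ G : ℝ × ℝ → ℝ, ContDiff ℝ ∞ G → (∀ φ y : ℝ, (y ≤ 0 ∨ φ ≤ 0 ∨ 2 * Real.pi ≤ φ) → G (φ, y) = 0) →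
  ∃ P : ℝ × ℝ → ℝ, ContDiff ℝ ∞ P ∧ (∀ φ y : ℝ, P (φ + 2 * Real.pi, y) = P (φ, y)) ∧
    (∀ φ y : ℝ, y ≤ 0 → P (φ, y) = 0) ∧ ∀ φ y : ℝ, 0 ≤ φ → φ ≤ 2 * Real.pi → P (φ, y) = G (φ, y)

/-- **GX-FLAT0.** Functions which vanish for `y ≤ 0` are flat. From GX-HAD. PROOF. By induction on `N`, `P = y^N R_N` with `R_N` smooth, periodic and zero for `y < 0`, hence for `y ≤ 0` by continuity (GX-HAD: `R_N (φ, 0) = 0`, `R_N = y R_{N+1}`; periodic for `y ≠ 0`,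
then by continuity). So `P (X₁, X₂²) = X₂^{2N} R_N (X₁, X₂²) = t^{2N} q_N (θ, t)` with `X₂ = t r₁`, and `Odd X P θ t = t^{2N} (q_N (θ, t) - q_N (θ, -t))`; `2 N ≥ N`. -/
def S_FLAT0 : Prop := ∀ (X Z : ℝ × ℝ → ℝ × ℝ), Web X Z → ∀ P : ℝ × ℝ → ℝ, ContDiff ℝ ∞ P →
  (∀ φ y : ℝ, P (φ + 2 * Real.pi, y) = P (φ, y)) → (∀ φ y : ℝ, y ≤ 0 → P (φ, y) = 0) → Flat X P

/-- **GX-PRE.** Make `H` exactly even on the tangent line number `0`. From GX-LOC, GX-HAD, GX-LOGB, GX-FLATEXT, GX-PER.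
PROOF. Let `O (t) = Odd X H 0 t = t^N E_N (0, t)` for all `N`. GX-LOC (applied to `X₂`) gives the smooth local inverse `T₂ (r)`, `|r| < r₀`, of `t ↦ r = X₂ (0, t)`; `T₂ (r) = r k (r)`, so
`O (T₂ (r)) = r^N q_N (r)`, `q_N` smooth for `|r| < r₀`. Let `κ : ℝ → [0,1]` be smooth, `1` for `φ ≤ 1/2`, `0` for `φ ≥ 1`, `η` smooth, `0` on `(-∞, 1]`, `1` on `[2, ∞)`, `κ₀ = ∂_t X₁ (0, 0) / ∂_t X₂ (0, 0) > 0`,
`c = 4/κ₀`. In the coordinates `(φ, w)`, `r = e^w`, `w < w₀`, put `f₀ (φ, w) = - κ (φ) η (c φ e^{-w}) O (T₂ (e^w))`. `f₀` is flat in the sense of GX-FLATEXT: the derivatives of order `i` of `O (T₂ (e^w)) = e^{N w} q_N (e^w)` are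
`O (e^{N w})` for every `N` (GX-LOGB, with `q_N` cut off), those of `η (c φ e^{-w})` are `O (e^{-i w})` on `0 ≤ φ ≤ 1`, and `f₀ = 0` (near the point) for `φ ≤ 0` and for `φ > 1`. So GX-FLATEXT gives a smooth function on `y < e^{2 w₀}`;
multiply it by a cut-off function of `y` which is `1` near `y ≤ 0`.. to get `G₀` smooth on the plane, zero for `y ≤ 0`, `φ ≤ 0`, `φ ≥ 1`. Let `P` be its periodic extension (GX-PER). On the line `0`: for small `t > 0`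
`φ = X₁ (0, t) ∈ (0, 1/2)`, `r = X₂ (0, t) > 0`, `c φ / r ≥ 2` (as `φ / r → κ₀`), so `P (X₁, X₂²) = - O (T₂ (r)) = - O (t)` (`log (r²) / 2 = log r`); at `-t` the angle `φ = X₁ (0, -t) < 0` is small and `P (φ, y) = G₀ (φ + 2π, y) = 0`. Hence
`Odd X (H + P) 0 t = 0` for small `t > 0`, and for `t ≤ 0` by oddness of `Odd`. -/
def S_PRE : Prop := ∀ (X Z : ℝ × ℝ → ℝ × ℝ), Web X Z → ∀ H : ℝ × ℝ → ℝ, ContDiff ℝ ∞ H →
  (∀ φ y : ℝ, H (φ + 2 * Real.pi, y) = H (φ, y)) → Flat X H →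
  ∃ P : ℝ × ℝ → ℝ, ContDiff ℝ ∞ P ∧ (∀ φ y : ℝ, P (φ + 2 * Real.pi, y) = P (φ, y)) ∧
    (∀ φ y : ℝ, y ≤ 0 → P (φ, y) = 0) ∧ ∃ r : ℝ, 0 < r ∧ ∀ t : ℝ, |t| < r → Odd X (fun x => H x + P x) 0 t = 0

/-- **GX-CORR1.** The cohomological equation in logarithmic coordinates. From GX-LOGMAP, GX-DYN, GX-LOGB.
PROOF. Take `lam, c, W` from GX-LOGMAP, `χ₀ : ℝ → [0,1]` smooth, `0` for `θ ≤ -1`, `1` for `θ ≥ -1/2`, and GX-DYN with `a = -1`, `b = 2π + 1`, `h x = - χ₀ (x.1) * Odd X H x.1 (lam * exp x.2)`. Flatness of `h`: `Odd X H θ t = t^N E_N (θ, t)`, so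
`Odd X H x.1 (lam exp x.2) = lam^N * (exp x.2 ^ N * E_N (x.1, lam exp x.2))`, GX-LOGB with `m = N`, and the Leibniz rule with the bounded derivatives of `χ₀` (constant outside a compact set). `x + W x` is the point with
the coordinates `((Sm X Z (x.1, lam exp x.2)).1, log ((Sm ..).2 / lam))`. -/
def S_CORR1 : Prop := ∀ (X Z : ℝ × ℝ → ℝ × ℝ), Web X Z → ∀ H : ℝ × ℝ → ℝ, ContDiff ℝ ∞ H → Flat X H →
  ∃ (lam s₁ : ℝ) (g : ℝ × ℝ → ℝ), 0 < lam ∧ s₁ < 0 ∧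
    ContDiffOn ℝ ∞ g {x | x.1 < 2 * Real.pi + 1 ∧ x.2 < s₁} ∧
    (∀ (i N : ℕ), ∃ C : ℝ, ∀ x : ℝ × ℝ, x.1 < 2 * Real.pi + 1 → x.2 < s₁ → ‖iteratedFDeriv ℝ i g x‖ ≤ C * Real.exp (N * x.2)) ∧
    ∀ x : ℝ × ℝ, -(1 / 2) < x.1 → x.1 < 2 * Real.pi + 1 → x.2 < s₁ →
      g x - g ((Sm X Z (x.1, lam * Real.exp x.2)).1, Real.log ((Sm X Z (x.1, lam * Real.exp x.2)).2 / lam)) =
        - Odd X H x.1 (lam * Real.exp x.2)

/-- **GX-CORR2.** From the logarithmic coordinates to the plane. From GX-LM, GX-CUT, GX-FLATMUL, GX-FLATEXT.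
PROOF. GX-FLATMUL with `χ` of GX-CUT, `L = Lm Z lam`, `b = 2π + 1` gives `w₀ < 0` and the flat function `f = χ * (g ∘ L)` on `x.2 < w₀`; GX-FLATEXT gives a smooth function `F` on `y < e^{2 w₀}`; `G = b(y) F` with a smooth cut-off `b`, `1` for `y ≤ e^{2 w₀}/4`,
`0` for `y ≥ e^{2 w₀}/2` (extended by `0`). If `0 < y` and `φ ≤ y^{1/8}` or `2π ≤ φ + y^{1/8}` then `χ (φ, log y / 2) = 0` as `exp (log y / 8) = y^{1/8}`. For fixed `0 < θ < 2π` and small `t > 0`: `φ = X₁ (θ, ±t)` is near `θ`, `r = X₂ (θ, ±t)` near `0`, `r ≠ 0`,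
`w = log (r²) / 2 = log |r|`, `χ (φ, w) = 1`, `e^w = |r|` and `Lm Z lam (φ, w) = ((Z (φ, |r|)).1, log ((Z (φ, |r|)).2 / lam))`. For `+t`: `Z (φ, r) = (θ, t)`. For `-t`: `|r| = -r` and `Z (φ, -r) = Sm X Z (θ, t)` by definition. -/
def S_CORR2 : Prop := ∀ (X Z : ℝ × ℝ → ℝ × ℝ), Web X Z → ∀ (lam s₁ : ℝ) (g : ℝ × ℝ → ℝ), 0 < lam → s₁ < 0 →
    ContDiffOn ℝ ∞ g {x | x.1 < 2 * Real.pi + 1 ∧ x.2 < s₁} →
    (∀ (i N : ℕ), ∃ C : ℝ, ∀ x : ℝ × ℝ, x.1 < 2 * Real.pi + 1 → x.2 < s₁ → ‖iteratedFDeriv ℝ i g x‖ ≤ C * Real.exp (N * x.2)) →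
    ∃ G : ℝ × ℝ → ℝ, ContDiff ℝ ∞ G ∧ (∀ φ y : ℝ, (y ≤ 0 ∨ φ ≤ 0 ∨ 2 * Real.pi ≤ φ) → G (φ, y) = 0) ∧
      (∀ φ y : ℝ, 0 < y → (φ ≤ y ^ ((1 : ℝ) / 8) ∨ 2 * Real.pi ≤ φ + y ^ ((1 : ℝ) / 8)) → G (φ, y) = 0) ∧
      ∀ θ : ℝ, 0 < θ → θ < 2 * Real.pi → ∃ r : ℝ, 0 < r ∧ ∀ t : ℝ, 0 < t → t < r →
        G ((X (θ, t)).1, (X (θ, t)).2 ^ 2) = g (θ, Real.log (t / lam)) ∧
        G ((X (θ, -t)).1, (X (θ, -t)).2 ^ 2) = g ((Sm X Z (θ, t)).1, Real.log ((Sm X Z (θ, t)).2 / lam))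

/-- **GX-CORR.** The flat correction. From GX-CORR1, GX-CORR2, GX-PER. PROOF. Let `P` be the periodic extension (GX-PER) of `G` (GX-CORR2 for `g` of GX-CORR1). For `0 < θ < 2π` and small `t > 0` the angles `X₁ (θ, ±t)` are in `(0, 2π)`, so with `x = (θ, log (t/lam))`, `lam exp x.2 = t`, `x.2 < s₁`:
`Odd X P θ t = g x - g (..Sm..) = - Odd X H θ t`, i.e. `Odd X (H + P) θ t = 0`; for `t < 0` by oddness, `t = 0` trivially. On the line `0`: for small `t > 0` the angle `φ = X₁ (0, t) > 0` satisfies `φ ≤ y^{1/8}`, `y = X₂ (0, t)²` (as `φ = O (t)` and `y^{1/8} ≥ c t^{1/4}`), so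
`P = 0` there; `X₁ (0, -t) < 0`, `P (φ, y) = G (φ + 2π, y) = 0` since `- φ ≤ y^{1/8}`; at `t = 0`, `y = 0`. -/
def S_CORR : Prop := ∀ (X Z : ℝ × ℝ → ℝ × ℝ), Web X Z → ∀ H : ℝ × ℝ → ℝ, ContDiff ℝ ∞ H →
  (∀ φ y : ℝ, H (φ + 2 * Real.pi, y) = H (φ, y)) → Flat X H →
  ∃ P : ℝ × ℝ → ℝ, ContDiff ℝ ∞ P ∧ (∀ φ y : ℝ, P (φ + 2 * Real.pi, y) = P (φ, y)) ∧
    (∀ φ y : ℝ, y ≤ 0 → P (φ, y) = 0) ∧
    (∃ r : ℝ, 0 < r ∧ ∀ t : ℝ, |t| < r → P ((X (0, t)).1, (X (0, t)).2 ^ 2) = 0) ∧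
    ∀ θ : ℝ, 0 < θ → θ < 2 * Real.pi → ∃ r : ℝ, 0 < r ∧ ∀ t : ℝ, |t| < r → Odd X (fun x => H x + P x) θ t = 0

/-- **GX-EVEN.** From GX-FORMAL, GX-PRE, GX-FLAT0, GX-CORR. PROOF. `H₀` of GX-FORMAL, `P₁` of GX-PRE, `H₁ = H₀ + P₁` is `Flat` (GX-FLAT0, and sums of flat functions are flat), `P₂` of GX-CORR for `H₁`, `H = H₁ + P₂`.
On the line `0`: `Odd X H 0 t = Odd X H₁ 0 t + 0 - 0 = 0`; on the lines `0 < θ < 2π` by GX-CORR; for all `θ` by periodicity (`Odd X H (θ + 2π) t = Odd X H θ t`). `P₁, P₂` vanish for `y ≤ 0`, so `H (φ, 0) = 0`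
and `∂_y H (φ, 0) = ∂_y H₀ (φ, 0) > 0` (the derivative of a smooth function which vanishes for `y ≤ 0` is `0` at `y = 0`). -/
def S_EVEN : Prop := ∀ (p : ℝ → ℝ) (X Z : ℝ × ℝ → ℝ × ℝ), TWeb p X Z → ∃ H : ℝ × ℝ → ℝ, ContDiff ℝ ∞ H ∧
  (∀ φ y : ℝ, H (φ + 2 * Real.pi, y) = H (φ, y)) ∧
  (∀ φ : ℝ, H (φ, 0) = 0) ∧ (∀ φ : ℝ, 0 < deriv (fun y => H (φ, y)) 0) ∧
  ∀ θ : ℝ, ∃ r : ℝ, 0 < r ∧ ∀ t : ℝ, |t| < r → Odd X H θ t = 0

/-- **GX-DESC2.** A smooth function near the curve with the right signs. From GX-PSI, GX-DESC, GX-BODY, GX-HAD, GX-DER.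
PROOF. `H = y K`, `K (φ, 0) = ∂_y H > 0`, `K` continuous and periodic: `K > 0` for `|y| < y₂`, all `φ`. GX-DESC for `H` and for the function `(φ, y) ↦ y` (same `V`, it is the image of `{y > -y₁}`) gives `Y`, `Y'` on `V`; shrink to the open set
`V' = {z ∈ V : Y' z < y₂}`. `frontier = range (gam p) = {Psi p φ 0}` is in `V'` and `Y = 0` on it. If `z ∈ V' \ body p` then `z = Psi p φ y`, `z ∉ interior` so also `z = Psi p φ' y'`, `y' ≥ 0`, and `y = y'` by injectivity; `y ≠ 0` because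
`gam p φ ∈ frontier ⊆ body p` (closed); so `0 < y < y₂`, `Y z = y K > 0`. On the frontier: `F (t) = Y (gam p θ + t e θ) = H (X₁ (θ,t), X₂ (θ,t)²) = X₂² K (X₁, X₂²)`, `X₂ = t r₁`, `r₁ (θ, 0) = b > 0`. So `F (0) = F' (0) = 0`,
`F'' (0) = 2 b² K (θ, 0) > 0`; `F' (0) = fderiv Y z (e θ)`, `F'' (0) = D²Y z (e θ) (e θ)`, `fderiv Y z (nu θ) = ∂_y H (θ, 0) > 0`. Evenness: `Y (gam p θ + t e θ) - Y (gam p θ - t e θ) = Odd X H θ t = 0` for `|t| < r` small. -/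
def S_DESC2 : Prop := ∀ (p : ℝ → ℝ) (X Z : ℝ × ℝ → ℝ × ℝ), TWeb p X Z → ∀ H : ℝ × ℝ → ℝ, ContDiff ℝ ∞ H →
  (∀ φ y : ℝ, H (φ + 2 * Real.pi, y) = H (φ, y)) →
  (∀ φ : ℝ, H (φ, 0) = 0) → (∀ φ : ℝ, 0 < deriv (fun y => H (φ, y)) 0) →
  (∀ θ : ℝ, ∃ r : ℝ, 0 < r ∧ ∀ t : ℝ, |t| < r → Odd X H θ t = 0) →
  ∃ (V : Set ℂ) (Y : ℂ → ℝ), IsOpen V ∧ frontier (body p) ⊆ V ∧ ContDiffOn ℝ ∞ Y V ∧
    (∀ z ∈ frontier (body p), Y z = 0) ∧ (∀ z ∈ V, z ∉ body p → 0 < Y z) ∧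
    (∀ θ : ℝ, fderiv ℝ Y (gam p θ) (e θ) = 0 ∧ 0 < fderiv ℝ Y (gam p θ) (nu θ) ∧
      0 < fderiv ℝ (fderiv ℝ Y) (gam p θ) (e θ) (e θ)) ∧
    ∀ θ : ℝ, ∃ r : ℝ, 0 < r ∧ ∀ t : ℝ, |t| < r → Y (gam p θ + t • e θ) = Y (gam p θ - t • e θ)

/-- **GX-FINAL.** From GX-WEB, GX-EVEN, GX-DESC2, GX-BODY, GX-CONV, GX-TAN, GX-SIG.
PROOF. `V, Y` of GX-DESC2. The hypotheses of GX-CONV hold: a tangent vector `w = l e θ + m nu θ` with `fderiv Y z w = 0` has `m = 0`, and then `D²Y z w w = l² D²Y z (e θ) (e θ) > 0`. For `z = gam p θ` (frontier = range) and a tangent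
direction `v = l e θ` (GX-TAN): `Y (z + t v) = Y (z + (t l) e θ)` is even for `|t| < r / |l|`, and GX-SIG gives `SigmaProjective U Y z v` (`U ⊆ V` open, contains `z`). -/
def S_FINAL : Prop := ∀ p : ℝ → ℝ, Supp p → IsTable (body p) ∧ frontier (body p) = range (gam p) ∧
  ∃ (U : Set ℂ) (Y : ℂ → ℝ), IsExteriorFoliation (body p) U Y ∧
    ∀ z ∈ frontier (body p), ∀ v : ℂ, IsTangentDir (body p) z v → SigmaProjective U Y z v ∧
      ∃ r : ℝ, 0 < r ∧ ∀ t : ℝ, |t| < r → Y (z + t • v) = Y (z - t • v)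

end Pool.Agent.H242.GX
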