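import Pool.Agent.H242.GX.Stm

/-!
# Project GX (helper242), page MP_ae5b4e_an, second part

Part M. GOAL (theorem B): for every oval with a mirror symmetry (`p` even) and EVERY smooth even positive function `u` there is a smooth exterior
foliation with all involutions `σ` projective (near the points) and with normal derivative `u` on the curve: also the first order behaviour
of the foliation is arbitrary.

Part U. GOAL (theorem C): formal uniqueness. Two exterior foliations of the same oval whose involutions are the point reflections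
agree to infinite order along the oval.
-/

open Set Filter Topology
open scoped ContDiff

namespace Pool.Agent.H242.GX

/-! ### Part M -/

/-- Webs with a mirror symmetry. -/
structure MWeb (X Z : ℝ × ℝ → ℝ × ℝ) : Prop extends Web X Z where
  mir : ∀ θ t : ℝ, X (-θ, -t) = (-(X (θ, t)).1, -(X (θ, t)).2)

/-- Smooth, even, `2π`-periodic functions of one variable. -/
structure EP (u : ℝ → ℝ) : Prop where
  smooth : ContDiff ℝ ∞ u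
  per : ∀ φ, u (φ + 2 * Real.pi) = u φ
  even : ∀ φ, u (-φ) = u φ

/-- **GX-MWEB.** From GX-PSI. PROOF. Let `Ref z = - conj z` (reflection `(x, y) ↦ (-x, y)`). For even `p`: `nu (-α) = Ref (nu α)`, `e (-α) = - Ref (e α)`, `p' (-α) = - p' α`, so
`gam p (-α) = Ref (gam p α)`, `Psi p (-φ) y = Ref (Psi p φ y)`, `gam p (-θ) + (-t) e (-θ) = Ref (gam p θ + t e θ)`. With `(φ, r) = X (θ, t)`, `(φ', r') = X (-θ, -t)` the relation `rel` gives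
`Psi p φ' (r'²) = Psi p (-φ) (r²)`, so by GX-PSI `r'² = r²` and `φ' = -φ + 2πk`. By `sgn`, `sgn'`, `axis` `r' = - r`. The integer `k` depends continuously on `t` and is `0` for `t = 0`, so `k = 0`. -/
def S_MWEB : Prop := ∀ (p : ℝ → ℝ) (X Z : ℝ × ℝ → ℝ × ℝ), TWeb p X Z → (∀ α, p (-α) = p α) → MWeb X Z

/-- **GX-MOD.** Change of the parameter on the tangent lines: the new parameter `τ` is related to the old one by `t = τ / (1 - c θ τ / 2)` near `0`.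
PROOF. Let `β : ℝ → [0,1]` be smooth, even, `1` on `[-δ, δ]`, `0` off `[-2δ, 2δ]`, `|β'| ≤ C/δ` (`C` independent of `δ`), and
`h (θ, τ) = τ + β (τ) * (τ / (1 - c θ τ / 2) - τ) = τ + β (τ) (c θ / 2) τ² / (1 - c θ τ / 2)`. For `δ` small (`c` is bounded) this is smooth on the plane and `∂_τ h ≥ 1/2`; `h (θ, τ) = τ` for `|τ| ≥ 2δ`; so `(θ, τ) ↦ (θ, h (θ, τ))` is a
smooth bijection with invertible derivative, its inverse is smooth (inverse function theorem). `X' = X ∘ (θ, h)`, `Z' = (θ, h)⁻¹ ∘ Z`. `h (θ, 0) = 0`, `∂_τ h (θ, 0) = 1`, `∂_τ² h (θ, 0) = c θ` give the three derivative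
formulas; signs and periodicity are clear. If `c` is odd then `h (-θ, -τ) = - h (θ, τ)`. -/
def S_MOD : Prop := ∀ X Z : ℝ × ℝ → ℝ × ℝ, Web X Z → ∀ c : ℝ → ℝ, PP c → ∃ X' Z' : ℝ × ℝ → ℝ × ℝ, Web X' Z' ∧
  (∃ δ : ℝ, 0 < δ ∧ ∀ θ t : ℝ, |t| < δ → 0 < 1 - c θ * t / 2 ∧ X' (θ, t) = X (θ, t / (1 - c θ * t / 2))) ∧
  (∀ θ : ℝ, deriv (fun t => (X' (θ, t)).1) 0 = deriv (fun t => (X (θ, t)).1) 0) ∧
  (∀ θ : ℝ, deriv (fun t => (X' (θ, t)).2) 0 = deriv (fun t => (X (θ, t)).2) 0) ∧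
  (∀ θ : ℝ, deriv (deriv (fun t => (X' (θ, t)).2)) 0 =
    deriv (deriv (fun t => (X (θ, t)).2)) 0 + c θ * deriv (fun t => (X (θ, t)).2) 0) ∧
  (MWeb X Z → (∀ θ, c (-θ) = - c θ) → MWeb X' Z')

/-- **GX-BASEM.** From GX-LIN (with `n = 1`) and GX-HAD. PROOF. GX-LIN: `Odd X (y u) = t³ s`, `s` even in `t`, `s (θ, 0) = 2 b (b a u' + ∂_t² X₂ (θ, 0) u) = 0`. By GX-HAD `s = t s₁`, `s₁` is odd in `t`, so `s₁ (θ, 0) = 0` and `s₁ = t E`. -/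
def S_BASEM : Prop := ∀ X Z : ℝ × ℝ → ℝ × ℝ, Web X Z → ∀ u : ℝ → ℝ, PP u →
  (∀ θ : ℝ, deriv (fun t => (X (θ, t)).2) 0 * deriv (fun t => (X (θ, t)).1) 0 * deriv u θ
    + deriv (deriv (fun t => (X (θ, t)).2)) 0 * u θ = 0) →
  ∃ E : ℝ × ℝ → ℝ, ContDiff ℝ ∞ E ∧ ∀ θ t : ℝ, Odd X (fun x => x.2 * u x.1) θ t = t ^ 5 * E (θ, t)

/-- **GX-STEPM.** One step of the construction of the formal first integral, with a mirror symmetry. From GX-LIN, GX-HAD.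
PROOF. `a θ = ∂_t X₁ (θ, 0) > 0`, `b θ = ∂_t X₂ (θ, 0) > 0`, `b₂ θ = ∂_t² X₂ (θ, 0)`: smooth and periodic (`per`), `a`, `b` even and `b₂` odd (`mir`). In GX-LIN `s (θ, 0) = 2 b^{2n} a (u' + n (b₂ / (a b)) u)`.
Put `B θ = ∫₀^θ b₂ / (a b)`: smooth, even and periodic (the integrand is odd and periodic). Since `H` is even in `φ` and by `mir` `Odd X H (-θ) t = - Odd X H θ t`, and `Odd` is odd in `t`; so `E` is even in `t` and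
`E (-θ, 0) = - E (θ, 0)` (limit `t → 0`), `E (·, 0)` is periodic. We need `s (θ, 0) = - E (θ, 0)`:
`u = exp (-n B) v`, `v' = - exp (n B) E (·, 0) / (2 a b^{2n})`, an odd periodic function, so `v = ∫₀^θ` is even and periodic. Then
`Odd X (H + y^n u) = t^{2n+1} (E + s)`, `E + s` is even in `t` and vanishes at `t = 0`, so it is `t²` times a smooth function (GX-HAD twice). -/
def S_STEPM : Prop := ∀ X Z : ℝ × ℝ → ℝ × ℝ, MWeb X Z →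
  ∀ (n : ℕ) (H E : ℝ × ℝ → ℝ), 1 ≤ n → ContDiff ℝ ∞ H → (∀ φ y : ℝ, H (φ + 2 * Real.pi, y) = H (φ, y)) →
    (∀ φ y : ℝ, H (-φ, y) = H (φ, y)) → ContDiff ℝ ∞ E →
    (∀ θ t : ℝ, Odd X H θ t = t ^ (2 * n + 1) * E (θ, t)) →
    ∃ u : ℝ → ℝ, EP u ∧ ∃ E' : ℝ × ℝ → ℝ, ContDiff ℝ ∞ E' ∧
      ∀ θ t : ℝ, Odd X (fun x => H x + x.2 ^ n * u x.1) θ t = t ^ (2 * n + 3) * E' (θ, t)

/-- **GX-FORMALM.** From GX-BASEM, GX-STEPM, GX-BOREL, GX-HAD. PROOF. As GX-FORMAL (a finished model: `Pool/Agent/H10/GX/FORMAL.lean`): recursively `u_1 = u`, `u_{n+1}` from GX-STEPM with `n + 1` (the finite sums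
`H_n` are even in `φ`), then GX-BOREL and `X₂ = t r₁`. -/
def S_FORMALM : Prop := ∀ X Z : ℝ × ℝ → ℝ × ℝ, MWeb X Z → ∀ u : ℝ → ℝ, EP u →
  (∀ θ : ℝ, deriv (fun t => (X (θ, t)).2) 0 * deriv (fun t => (X (θ, t)).1) 0 * deriv u θ
    + deriv (deriv (fun t => (X (θ, t)).2)) 0 * u θ = 0) →
  ∃ H : ℝ × ℝ → ℝ, ContDiff ℝ ∞ H ∧ (∀ φ y : ℝ, H (φ + 2 * Real.pi, y) = H (φ, y)) ∧
    (∀ φ : ℝ, H (φ, 0) = 0) ∧ (∀ φ : ℝ, deriv (fun y => H (φ, y)) 0 = u φ) ∧ Flat X H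

/-- **GX-EVENM.** From GX-PRE, GX-FLAT0, GX-CORR. PROOF. As GX-EVEN (a finished model: `Pool/Agent/H707/GX/EVEN.lean`), starting with the given `H₀`. -/
def S_EVENM : Prop := ∀ X Z : ℝ × ℝ → ℝ × ℝ, Web X Z → ∀ H₀ : ℝ × ℝ → ℝ, ContDiff ℝ ∞ H₀ →
  (∀ φ y : ℝ, H₀ (φ + 2 * Real.pi, y) = H₀ (φ, y)) → (∀ φ : ℝ, H₀ (φ, 0) = 0) → Flat X H₀ →
  ∃ H : ℝ × ℝ → ℝ, ContDiff ℝ ∞ H ∧ (∀ φ y : ℝ, H (φ + 2 * Real.pi, y) = H (φ, y)) ∧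
    (∀ φ : ℝ, H (φ, 0) = 0) ∧ (∀ φ : ℝ, deriv (fun y => H (φ, y)) 0 = deriv (fun y => H₀ (φ, y)) 0) ∧
    ∀ θ : ℝ, ∃ r : ℝ, 0 < r ∧ ∀ t : ℝ, |t| < r → Odd X H θ t = 0

/-- **GX-DESC3.** From GX-PSI, GX-DESC, GX-BODY, GX-HAD. PROOF. As GX-DESC2 (a finished model: `Pool/Agent/H117/GX/DESC2.lean`), with two more conclusions: `fderiv Y (gam p θ) (nu θ) = ∂_y H (θ, 0)` (derivative of
`y ↦ Y (Psi p θ y) = H (θ, y)` at `0`), and `Y (gam p θ + t e θ) = Y (Psi p X₁ (X₂²)) = H (X₁, X₂²)` for small `t`. -/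
def S_DESC3 : Prop := ∀ (p : ℝ → ℝ) (X Z : ℝ × ℝ → ℝ × ℝ), TWeb p X Z → ∀ H : ℝ × ℝ → ℝ, ContDiff ℝ ∞ H →
  (∀ φ y : ℝ, H (φ + 2 * Real.pi, y) = H (φ, y)) →
  (∀ φ : ℝ, H (φ, 0) = 0) → (∀ φ : ℝ, 0 < deriv (fun y => H (φ, y)) 0) →
  ∃ (V : Set ℂ) (Y : ℂ → ℝ), IsOpen V ∧ frontier (body p) ⊆ V ∧ ContDiffOn ℝ ∞ Y V ∧
    (∀ z ∈ frontier (body p), Y z = 0) ∧ (∀ z ∈ V, z ∉ body p → 0 < Y z) ∧
    (∀ θ : ℝ, fderiv ℝ Y (gam p θ) (e θ) = 0 ∧ fderiv ℝ Y (gam p θ) (nu θ) = deriv (fun y => H (θ, y)) 0 ∧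
      0 < fderiv ℝ (fderiv ℝ Y) (gam p θ) (e θ) (e θ)) ∧
    ∀ θ : ℝ, ∃ r : ℝ, 0 < r ∧ ∀ t : ℝ, |t| < r →
      Y (gam p θ + t • e θ) = H ((X (θ, t)).1, (X (θ, t)).2 ^ 2)

/-- **GX-SIGP.** PROOF. `f t = Y (z + t v)` is `C^∞` near `0` and `f (-t/(1+ct)) = f t`; differentiating at `0`: `- f' 0 = f' 0`, so `f' 0 = 0`, and `f'' 0 > 0`. So `f' > 0` on `(0, ε]`, `f' < 0` on `[-ε, 0)` for some `ε`.
Take `(a, b, c, d) = (-1, 0, c, 1)`, determinant `-1`, and `δ` so small that `|t| < δ` implies `1/2 < 1 + c t`, `2 |t| ≤ ε`; then `t * (-t/(1+ct)) < 0` for `t ≠ 0`. (Model: `Pool/Agent/H280/GX/SIG.lean`.) -/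
def S_SIGP : Prop := ∀ (U : Set ℂ) (Y : ℂ → ℝ) (z v : ℂ) (r c : ℝ), IsOpen U → z ∈ U → ContDiffOn ℝ ∞ Y U → 0 < r →
  (∀ t : ℝ, |t| < r → 0 < 1 + c * t ∧ Y (z + (-t / (1 + c * t)) • v) = Y (z + t • v)) →
  0 < fderiv ℝ (fderiv ℝ Y) z v v → SigmaProjective U Y z v

/-- **GX-FINALM.** From GX-WEB, GX-MWEB, GX-MOD, GX-FORMALM, GX-EVENM, GX-DESC3, GX-BODY, GX-CONV, GX-TAN, GX-SIGP.
PROOF. `X, Z` from GX-WEB, an `MWeb` by GX-MWEB; `a, b, b₂` (derivatives at `t = 0` of `X₁`, `X₂` and second derivative of `X₂`) are smooth periodic functions of `θ`, `a`, `b` even and positive, `b₂` odd. Let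
`c θ = - a θ * u' θ / u θ - b₂ θ / b θ`: smooth, periodic, odd. GX-MOD gives the `MWeb` `X', Z'` with `∂_t² X'₂ = b₂ + c b`, so the relation of GX-FORMALM holds for `X'`: `b a u' + (b₂ + c b) u = 0`. GX-FORMALM gives `H₀`, GX-EVENM (for `X'`) gives `H`
with `∂_y H (φ, 0) = u φ`, GX-DESC3 (for `X`) gives `V`, `Y`, GX-CONV (the tangent vectors are the multiples of `e θ`; model: `Pool/Agent/H726/GX/FINAL.lean`) gives `U`. For `z = gam p θ`, `v = l e θ` (GX-TAN): for small `τ`, with `h τ = τ / (1 - c θ τ / 2)`: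
`Y (z + h τ e θ) = H (X' (θ, τ).1, X' (θ, τ).2²)`, so `Y (z + h τ e θ) = Y (z + h (-τ) e θ)`. For given small `t` put `τ = t / (1 + c θ t / 2)`: `h τ = t`, `h (-τ) = - t / (1 + c θ t)`. So GX-SIGP applies with `l * c θ` in place of `c`. -/
def S_FINALM : Prop := ∀ p : ℝ → ℝ, Supp p → (∀ α, p (-α) = p α) → ∀ u : ℝ → ℝ, EP u → (∀ φ, 0 < u φ) →
  ∃ (U : Set ℂ) (Y : ℂ → ℝ), IsExteriorFoliation (body p) U Y ∧
    (∀ z ∈ frontier (body p), ∀ v : ℂ, IsTangentDir (body p) z v → SigmaProjective U Y z v) ∧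
    ∀ θ : ℝ, fderiv ℝ Y (gam p θ) (nu θ) = u θ

/-! ### Part U: formal uniqueness -/

/-- **GX-UNQ.** Formal uniqueness for webs. From GX-LIN, GX-HAD. PROOF. Induction on `N`: there are a polynomial `f` without constant term and a smooth periodic `R` with `H₂ = f (H₁) + y^(N+1) R` everywhere. `N = 0`: `f = 0`, `H₂ = y R` by
GX-HAD. Step: put `w φ = R (φ, 0)`, `n = N + 1`. The function `D = H₂ - f (H₁) = y^n R` is even near `0` on every tangent line: `Odd X D θ t = 0` for `|t| < r (θ)`. Write `R = w + y R'` (GX-HAD). By GX-LIN (for `w`, which is `PP`)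
`Odd X (y^n w) θ t = t^{2n+1} s (θ, t)`, and `Odd X (y^{n+1} R') θ t = O (t^{2n+2})` at fixed `θ` (`X₂ = O (t)`). So `s (θ, 0) = 0`: `2 b^{2n} a w' + 2 n b^{2n-1} b₂ w = 0`, i.e. (dividing by `2 b^{2n-1}`) `b a w' + n b₂ w = 0`. The same argument for `H₁` (`n = 1`, `u = ∂_y H₁ (·, 0) > 0`)
gives `b a u' + b₂ u = 0`. So `(w / u^n)' = 0`, `w = κ u^n` (`a, b > 0`). Since `H₁ = y (u + y K)`, `H₁^n = y^n u^n + y^{n+1} K'` with `K'` smooth and periodic; so `H₂ = (f + κ x^n) (H₁) + y^{n+1} R''`. -/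
def S_UNQ : Prop := ∀ X Z : ℝ × ℝ → ℝ × ℝ, Web X Z → ∀ H₁ H₂ : ℝ × ℝ → ℝ, ContDiff ℝ ∞ H₁ → ContDiff ℝ ∞ H₂ →
  (∀ φ y : ℝ, H₁ (φ + 2 * Real.pi, y) = H₁ (φ, y)) → (∀ φ y : ℝ, H₂ (φ + 2 * Real.pi, y) = H₂ (φ, y)) →
  (∀ φ : ℝ, H₁ (φ, 0) = 0) → (∀ φ : ℝ, H₂ (φ, 0) = 0) → (∀ φ : ℝ, 0 < deriv (fun y => H₁ (φ, y)) 0) →
  (∀ θ : ℝ, ∃ r : ℝ, 0 < r ∧ ∀ t : ℝ, |t| < r → Odd X H₁ θ t = 0) →
  (∀ θ : ℝ, ∃ r : ℝ, 0 < r ∧ ∀ t : ℝ, |t| < r → Odd X H₂ θ t = 0) →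
  ∀ N : ℕ, ∃ (f : Polynomial ℝ) (R : ℝ × ℝ → ℝ), ContDiff ℝ ∞ R ∧
    (∀ φ y : ℝ, R (φ + 2 * Real.pi, y) = R (φ, y)) ∧
    ∀ φ y : ℝ, H₂ (φ, y) = f.eval (H₁ (φ, y)) + y ^ N * R (φ, y)

/-- **GX-PULL.** Pull back to the normal coordinates. From GX-BODY, GX-PSI. PROOF. `Psi p` is smooth and maps the compact `[0, 2π] × {0}` into the open `U ⊇ frontier = range (gam p)`, so for some `y₂ > 0` `Psi p φ y ∈ U` for `|y| < y₂` and all `φ` (periodicity).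
`H (φ, y) = β (y) Y (Psi p φ y)` with a smooth cut-off `β = 1` for `|y| ≤ y₂/2`, `0` for `|y| ≥ (3/4) y₂`, is smooth on the plane and periodic; `H = Y ∘ Psi` for `|y| < y₂/2 =: y₀`. `H (φ, 0) = Y (gam p φ) = 0` (`leaf_zero`). `Y ≥ 0` outside `interior`, so `∂_y H (φ, 0) ≥ 0` (GX-PSI: `Psi p φ y ∉ body` for `y > 0`);
it is not `0`, because `fderiv Y (gam p φ) ≠ 0` while `fderiv Y (gam p φ) (e φ) = 0` (`Y (gam p φ) = 0` for all `φ`, `gam' = ρ e`). Evenness: the tangent line at `gam p θ` has the direction `e θ` (`IsTangentDir (body p) (gam p θ) (e θ)`: `ip (gam p θ + t e θ) (nu θ) = p θ`, so the point is not in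
the interior `{∀ α, ip z (nu α) < p α}`), so `Y (gam p θ + t e θ) = Y (gam p θ - t e θ)` for small `t`; both points are `Psi p X₁ (X₂²)` at `± t`, with `X₂² < y₀` for small `t`. -/
def S_PULL : Prop := ∀ (p : ℝ → ℝ) (X Z : ℝ × ℝ → ℝ × ℝ), TWeb p X Z → ∀ (U : Set ℂ) (Y : ℂ → ℝ),
  IsExteriorFoliation (body p) U Y →
  (∀ z ∈ frontier (body p), ∀ v : ℂ, IsTangentDir (body p) z v →
    ∃ r : ℝ, 0 < r ∧ ∀ t : ℝ, |t| < r → Y (z + t • v) = Y (z - t • v)) →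
  ∃ (H : ℝ × ℝ → ℝ) (y₀ : ℝ), 0 < y₀ ∧ ContDiff ℝ ∞ H ∧ (∀ φ y : ℝ, H (φ + 2 * Real.pi, y) = H (φ, y)) ∧
    (∀ φ : ℝ, H (φ, 0) = 0) ∧ (∀ φ : ℝ, 0 < deriv (fun y => H (φ, y)) 0) ∧
    (∀ φ y : ℝ, |y| < y₀ → Psi p φ y ∈ U ∧ H (φ, y) = Y (Psi p φ y)) ∧
    ∀ θ : ℝ, ∃ r : ℝ, 0 < r ∧ ∀ t : ℝ, |t| < r → Odd X H θ t = 0

/-- **GX-UNIQ.** Formal uniqueness of the foliations. From GX-WEB, GX-PULL, GX-UNQ, GX-PSI, GX-BODY, GX-DER.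
PROOF. Pull back both (GX-PULL), apply GX-UNQ. `R` is bounded on `ℝ × [-y₀, y₀]` (periodic), so `|Y₂ - f (Y₁)| ≤ C y^N` at `Psi p φ y`, `|y| < y₀`. A point `z ∉ interior (body p)` with `infDist z (body p) < y₀` is `Psi p φ y` with `y ≥ 0`
(GX-PSI) and `y ≤ infDist z (body p)`: for `w ∈ body p`, `|z - w| ≥ ip (z - w) (nu φ) ≥ p φ + y - p φ = y`. Last part: as in the proof of GX-UNQ, `b a u' + b₂ u = 0` for `u θ = ∂_y H (θ, 0) = fderiv Y (gam p θ) (nu θ)` (by GX-LIN with `n = 1`), and by GX-DER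
`a = 1/ρ`, `b₂/b = - ρ' / (3 ρ²)`: `u' = ρ' u / (3 ρ)`, so `u / ρ^{1/3}` is constant. -/
def S_UNIQ : Prop := ∀ p : ℝ → ℝ, Supp p → ∀ (U₁ U₂ : Set ℂ) (Y₁ Y₂ : ℂ → ℝ),
  IsExteriorFoliation (body p) U₁ Y₁ → IsExteriorFoliation (body p) U₂ Y₂ →
  (∀ z ∈ frontier (body p), ∀ v : ℂ, IsTangentDir (body p) z v →
    ∃ r : ℝ, 0 < r ∧ ∀ t : ℝ, |t| < r → Y₁ (z + t • v) = Y₁ (z - t • v)) →
  (∀ z ∈ frontier (body p), ∀ v : ℂ, IsTangentDir (body p) z v →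
    ∃ r : ℝ, 0 < r ∧ ∀ t : ℝ, |t| < r → Y₂ (z + t • v) = Y₂ (z - t • v)) →
  (∀ N : ℕ, ∃ (f : Polynomial ℝ) (C δ : ℝ), 0 < δ ∧ ∀ z : ℂ, z ∉ interior (body p) → Metric.infDist z (body p) < δ →
    z ∈ U₁ ∧ z ∈ U₂ ∧ |Y₂ z - f.eval (Y₁ z)| ≤ C * Metric.infDist z (body p) ^ N) ∧
  ∃ κ : ℝ, 0 < κ ∧ ∀ θ : ℝ, fderiv ℝ Y₁ (gam p θ) (nu θ) = κ * cr p θ

end Pool.Agent.H242.GX
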