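import Pool.Agent.H242.GX.Stm6
import Pool.Agent.H706.GX.PULL

/-!
# Project GU (helper242), page MP_ae5b4e_an: the assembly

The modulus of an exterior foliation with projective involutions.
-/

set_option autoImplicit false

open Set Filter Topology
open scoped ContDiff

namespace Pool.Agent.H242.GX

/-- The normal derivative of `Y` along the curve. -/
noncomputable def slope (p : ℝ → ℝ) (Y : ℂ → ℝ) (θ : ℝ) : ℝ := fderiv ℝ Y (gam p θ) (nu θ)

/-- `k` is the modulus of the foliation by the level sets of `Y`: near the point `gam p θ` of the curve the involution of the tangent line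
is `t ↦ - t / (1 + k θ t)` (`t` is the arc length parameter), and this is the only transformation `t ↦ - m t / (1 + c t)`, `m > 0`, which preserves `Y` on the
tangent line near the point; moreover `k = d/ds log (ρ^{1/3} / slope)`, where `s` is the arc length of the curve (`ds = ρ dθ`). -/
structure Modulus (p : ℝ → ℝ) (Y : ℂ → ℝ) (k : ℝ → ℝ) : Prop where
  smooth : ContDiff ℝ ∞ k
  per : ∀ θ : ℝ, k (θ + 2 * Real.pi) = k θ
  germ : ∀ θ : ℝ, ∃ r : ℝ, 0 < r ∧ ∀ t : ℝ, |t| < r → 0 < 1 + k θ * t ∧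
    Y (gam p θ + (-t / (1 + k θ * t)) • e θ) = Y (gam p θ + t • e θ)
  unique : ∀ θ m c r : ℝ, 0 < m → 0 < r → (∀ t : ℝ, |t| < r → 0 < 1 + c * t ∧
    Y (gam p θ + (-(m * t) / (1 + c * t)) • e θ) = Y (gam p θ + t • e θ)) → m = 1 ∧ c = k θ
  pos : ∀ θ : ℝ, 0 < slope p Y θ
  log : ∀ θ : ℝ, HasDerivAt (fun α => Real.log (cr p α / slope p Y α)) (k θ * rho p θ) θ

/-- A small radius. -/
lemma shrink (m k R : ℝ) (hm : 0 < m) (hR : 0 < R) : ∃ r : ℝ, 0 < r ∧ r ≤ R ∧ ∀ t : ℝ, |t| < r →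
    0 < 1 + k * t ∧ |-(m * t) / (1 + k * t)| < R := by
  refine ⟨min R (min (1 / (2 * (|k| + 1))) (R / (2 * m))), ?_, min_le_left _ _, fun t ht => ?_⟩
  · have := abs_nonneg k
    positivity
  · have h1 : |t| < 1 / (2 * (|k| + 1)) := ht.trans_le ((min_le_right _ _).trans (min_le_left _ _))
    have h2 : |t| < R / (2 * m) := ht.trans_le ((min_le_right _ _).trans (min_le_right _ _))
    have hk := abs_nonneg k
    rw [lt_div_iff₀ (by positivity)] at h1 h2
    have h3 : |k * t| < 1 / 2 := by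
      rw [abs_mul]
      nlinarith [abs_nonneg t]
    have h4 := (abs_lt.1 h3).1
    have h5 : 0 < 1 + k * t := by linarith
    refine ⟨h5, ?_⟩
    rw [abs_div, abs_of_pos h5, abs_neg, abs_mul, abs_of_pos hm, div_lt_iff₀ h5]
    nlinarith

/-- One foliation. -/
theorem one_fol (hSIG0 : S_SIG0) (hKAPPA : S_KAPPA) (hODE : S_ODE) (hNOR : S_NOR) {p : ℝ → ℝ} (hp : Supp p)
    {X Z : ℝ × ℝ → ℝ × ℝ} (hW : TWeb p X Z) (hint : interior (body p) = {z | ∀ α, ip z (nu α) < p α})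
    (hfr : frontier (body p) = range (gam p))
    {U : Set ℂ} {Y : ℂ → ℝ} {H : ℝ × ℝ → ℝ} {y₀ : ℝ} (hF : IsExteriorFoliation (body p) U Y)
    (hσ : ∀ z ∈ frontier (body p), ∀ v : ℂ, IsTangentDir (body p) z v → SigmaProjective U Y z v)
    (hP : Pul p X U Y H y₀) :
    ∃ k : ℝ → ℝ, PP k ∧ Inv X H k ∧ Modulus p Y k := by
  have hS : ∀ θ : ℝ, SigmaProjective U Y (gam p θ) (e θ) := fun θ =>
    hσ _ (by rw [hfr]; exact mem_range_self θ) _ (Pool.Agent.H706.GX.tangent_dir hint θ)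
  obtain ⟨k, hk, hI⟩ := hKAPPA X Z hW.toWeb H hP.2.1 (fun θ => by
    obtain ⟨m, k, δ, hm, hδ, h⟩ := hSIG0 U Y _ _ (hS θ)
    obtain ⟨r, hr, hr2⟩ := hP.2.2.2 θ
    obtain ⟨s, hs, hsr, hs2⟩ := shrink m k (min δ r) hm (lt_min hδ hr)
    refine ⟨m, k, s, hm, hs, fun t ht => ?_⟩
    obtain ⟨h1, h2⟩ := hs2 t ht
    have ht2 : |t| < min δ r := ht.trans_le hsr
    refine ⟨h1, ?_⟩
    rw [← (hr2 _ (h2.trans_le (min_le_right _ _))).2, ← (hr2 _ (ht2.trans_le (min_le_right _ _))).2]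
    exact (h t (ht2.trans_le (min_le_left _ _))).2)
  have hslope : ∀ θ, slope p Y θ = deriv (fun y => H (θ, y)) 0 := fun θ => hNOR p X U Y H y₀ hF hP θ
  have hpos : ∀ θ, 0 < slope p Y θ := fun θ => by rw [hslope]; exact hP.2.1.pos θ
  obtain ⟨hdiff, hode⟩ := hODE p X Z hp hW H hP.2.1 k hk hI
  have hsl : slope p Y = fun θ => deriv (fun y => H (θ, y)) 0 := funext hslope
  -- the germ
  have hgerm : ∀ θ : ℝ, ∃ r : ℝ, 0 < r ∧ ∀ t : ℝ, |t| < r → 0 < 1 + k θ * t ∧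
      Y (gam p θ + (-t / (1 + k θ * t)) • e θ) = Y (gam p θ + t • e θ) := by
    intro θ
    obtain ⟨δ, hδ, h⟩ := hI θ
    obtain ⟨r, hr, hr2⟩ := hP.2.2.2 θ
    obtain ⟨s, hs, hsr, hs2⟩ := shrink 1 (k θ) (min δ r) one_pos (lt_min hδ hr)
    refine ⟨s, hs, fun t ht => ?_⟩
    obtain ⟨h1, h2⟩ := hs2 t ht
    rw [one_mul] at h2
    have ht2 : |t| < min δ r := ht.trans_le hsr
    refine ⟨h1, ?_⟩
    rw [(hr2 _ (h2.trans_le (min_le_right _ _))).2, (hr2 _ (ht2.trans_le (min_le_right _ _))).2]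
    exact (h t (ht2.trans_le (min_le_left _ _))).2
  refine ⟨k, hk, hI, hk.smooth, hk.per, hgerm, ?_, hpos, ?_⟩
  · -- uniqueness
    intro θ m c r hm hr h
    obtain ⟨ε, hε, -, hanti, -, -⟩ := hS θ
    obtain ⟨r', hr', h'⟩ := hgerm θ
    obtain ⟨s, hs, hsr, hs2⟩ := shrink m c (min ε (min r r')) hm (lt_min hε (lt_min hr hr'))
    obtain ⟨s', hs', hsr', hs2'⟩ := shrink 1 (k θ) (min ε (min r r')) one_pos (lt_min hε (lt_min hr hr'))
    have key : ∀ t : ℝ, 0 < t → t < min s s' → m * (1 + k θ * t) = 1 + c * t := by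
      intro t ht0 ht
      have ha : |t| = t := abs_of_pos ht0
      have h1 : |t| < s := by rw [ha]; exact ht.trans_le (min_le_left _ _)
      have h2 : |t| < s' := by rw [ha]; exact ht.trans_le (min_le_right _ _)
      obtain ⟨a1, a2⟩ := hs2 t h1
      obtain ⟨b1, b2⟩ := hs2' t h2
      rw [one_mul] at b2
      have h3 : |t| < min ε (min r r') := h1.trans_le hsr
      have e1 := (h t (h3.trans_le ((min_le_right _ _).trans (min_le_left _ _)))).2
      have e2 := (h' t (h3.trans_le ((min_le_right _ _).trans (min_le_right _ _)))).2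
      have m1 : -(m * t) / (1 + c * t) ∈ Icc (-ε) 0 :=
        ⟨(abs_lt.1 (a2.trans_le (min_le_left _ _))).1.le,
          div_nonpos_of_nonpos_of_nonneg (by nlinarith) a1.le⟩
      have m2 : -t / (1 + k θ * t) ∈ Icc (-ε) 0 :=
        ⟨(abs_lt.1 (b2.trans_le (min_le_left _ _))).1.le,
          div_nonpos_of_nonpos_of_nonneg (by linarith) b1.le⟩
      have h4 : -(m * t) / (1 + c * t) = -t / (1 + k θ * t) := by
        refine hanti.injOn m1 m2 ?_
        show Y (gam p θ + (-(m * t) / (1 + c * t)) • e θ) = Y (gam p θ + (-t / (1 + k θ * t)) • e θ)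
        rw [e1, e2]
      rw [div_eq_div_iff a1.ne' b1.ne'] at h4
      have h5 : t * (m * (1 + k θ * t)) = t * (1 + c * t) := by linear_combination -h4
      exact mul_left_cancel₀ ht0.ne' h5
    have hM : 0 < min s s' := lt_min hs hs'
    have k1 := key (min s s' / 2) (by linarith) (by linarith)
    have k2 := key (min s s' / 4) (by linarith) (by linarith)
    have hm1 : m = 1 := by linear_combination 2 * k2 - k1
    refine ⟨hm1, ?_⟩
    rw [hm1] at k1
    have h6 : min s s' / 2 * (k θ - c) = 0 := by linear_combination k1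
    have h7 := (mul_eq_zero.1 h6).resolve_left (by linarith [hM])
    linarith
  · -- the equation
    intro θ
    have hr := rho_pos hp θ
    have hrd : HasDerivAt (rho p) (deriv (rho p) θ) θ :=
      (((contDiff_rho hp).differentiable (by simp)) θ).hasDerivAt
    have hu : HasDerivAt (slope p Y) (deriv (slope p Y) θ) θ := by
      rw [hsl]
      exact (hdiff θ).hasDerivAt
    have h1 : HasDerivAt (fun α => (1 / 3 : ℝ) * Real.log (rho p α) - Real.log (slope p Y α))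
        ((1 / 3 : ℝ) * (deriv (rho p) θ / rho p θ) - deriv (slope p Y) θ / slope p Y θ) θ :=
      ((hrd.log hr.ne').const_mul _).sub (hu.log (hpos θ).ne')
    have h2 : (fun α => Real.log (cr p α / slope p Y α)) =
        fun α => (1 / 3 : ℝ) * Real.log (rho p α) - Real.log (slope p Y α) := by
      funext α
      have hr' := rho_pos hp α
      unfold cr
      rw [Real.log_div (Real.rpow_pos_of_pos hr' _).ne' (hpos α).ne', Real.log_rpow hr']
    rw [h2]
    convert h1 using 1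
    have h3 := hode θ
    rw [← hsl, ← hslope θ] at h3
    have hs0 := (hpos θ).ne'
    field_simp
    linear_combination h3

lemma slope_per {p : ℝ → ℝ} (hp : Supp p) (Y : ℂ → ℝ) (θ : ℝ) :
    slope p Y (θ + 2 * Real.pi) = slope p Y θ := by
  unfold slope
  rw [per_gam hp, nu_per]

lemma cr_per {p : ℝ → ℝ} (hp : Supp p) (θ : ℝ) : cr p (θ + 2 * Real.pi) = cr p θ := by
  unfold cr rho
  have h1 := per_deriv (f := p) hp.per
  rw [hp.per, per_deriv (f := deriv p) h1]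

/-- The main theorem. -/
theorem main6 (hWEB : S_WEB) (hBODY : S_BODY) (hSIG0 : S_SIG0) (hPULLP : S_PULLP) (hKAPPA : S_KAPPA) (hODE : S_ODE) (hNOR : S_NOR)
    (hUNP : S_UNP) (p : ℝ → ℝ) (hp : Supp p) (U₁ U₂ : Set ℂ) (Y₁ Y₂ : ℂ → ℝ)
    (h₁ : IsExteriorFoliation (body p) U₁ Y₁) (h₂ : IsExteriorFoliation (body p) U₂ Y₂)
    (σ₁ : ∀ z ∈ frontier (body p), ∀ v : ℂ, IsTangentDir (body p) z v → SigmaProjective U₁ Y₁ z v)
    (σ₂ : ∀ z ∈ frontier (body p), ∀ v : ℂ, IsTangentDir (body p) z v → SigmaProjective U₂ Y₂ z v) :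
    ∃ k₁ k₂ : ℝ → ℝ, Modulus p Y₁ k₁ ∧ Modulus p Y₂ k₂ ∧ ∫ θ in (0 : ℝ)..(2 * Real.pi), k₁ θ * rho p θ = 0 ∧
      (k₁ = k₂ ↔ ∃ C : ℝ, 0 < C ∧ ∀ θ : ℝ, slope p Y₂ θ = C * slope p Y₁ θ) ∧
      (k₁ = k₂ → ∀ N : ℕ, ∃ (f : Polynomial ℝ) (C δ : ℝ), 0 < δ ∧
        ∀ z : ℂ, z ∉ interior (body p) → Metric.infDist z (body p) < δ →
          z ∈ U₁ ∧ z ∈ U₂ ∧ |Y₂ z - f.eval (Y₁ z)| ≤ C * Metric.infDist z (body p) ^ N) := by
  obtain ⟨X, Z, hW⟩ := hWEB p hp
  obtain ⟨-, -, hfr, hint⟩ := hBODY p hp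
  obtain ⟨H₁, y₁, hP₁⟩ := hPULLP p X Z hW U₁ Y₁ h₁
  obtain ⟨H₂, y₂, hP₂⟩ := hPULLP p X Z hW U₂ Y₂ h₂
  obtain ⟨k₁, hk₁, hI₁, hM₁⟩ := one_fol hSIG0 hKAPPA hODE hNOR hp hW hint hfr h₁ σ₁ hP₁
  obtain ⟨k₂, hk₂, hI₂, hM₂⟩ := one_fol hSIG0 hKAPPA hODE hNOR hp hW hint hfr h₂ σ₂ hP₂
  have hcr : ∀ θ, 0 < cr p θ := fun θ => Real.rpow_pos_of_pos (rho_pos hp θ) _
  refine ⟨k₁, k₂, hM₁, hM₂, ?_, ⟨fun h => ?_, ?_⟩, ?_⟩
  · rw [intervalIntegral.integral_eq_sub_of_hasDerivAt (fun θ _ => hM₁.log θ)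
      ((hk₁.smooth.continuous.mul (contDiff_rho hp).continuous).intervalIntegrable _ _)]
    have h1 := slope_per hp Y₁ 0
    have h2 := cr_per hp 0
    rw [zero_add] at h1 h2
    show Real.log (cr p (2 * Real.pi) / slope p Y₁ (2 * Real.pi)) - _ = 0
    rw [h1, h2, sub_self]
  · subst h
    have hc : ∀ θ θ', Real.log (cr p θ / slope p Y₁ θ) - Real.log (cr p θ / slope p Y₂ θ) =
        Real.log (cr p θ' / slope p Y₁ θ') - Real.log (cr p θ' / slope p Y₂ θ') := by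
      intro θ θ'
      have hd : ∀ α, HasDerivAt (fun α => Real.log (cr p α / slope p Y₁ α) - Real.log (cr p α / slope p Y₂ α))
          (k₁ α * rho p α - k₁ α * rho p α) α := fun α => (hM₁.log α).sub (hM₂.log α)
      refine is_const_of_deriv_eq_zero (f := fun α => Real.log (cr p α / slope p Y₁ α) -
        Real.log (cr p α / slope p Y₂ α)) (fun α => (hd α).differentiableAt) (fun α => ?_) θ θ'
      rw [(hd α).deriv, sub_self]
    refine ⟨slope p Y₂ 0 / slope p Y₁ 0, div_pos (hM₂.pos 0) (hM₁.pos 0), fun θ => ?_⟩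
    have h1 := hc θ 0
    rw [Real.log_div (hcr θ).ne' (hM₁.pos θ).ne', Real.log_div (hcr θ).ne' (hM₂.pos θ).ne',
      Real.log_div (hcr 0).ne' (hM₁.pos 0).ne', Real.log_div (hcr 0).ne' (hM₂.pos 0).ne'] at h1
    have h2 : Real.log (slope p Y₂ θ) = Real.log (slope p Y₂ 0 / slope p Y₁ 0 * slope p Y₁ θ) := by
      rw [Real.log_mul (div_pos (hM₂.pos 0) (hM₁.pos 0)).ne' (hM₁.pos θ).ne',
        Real.log_div (hM₂.pos 0).ne' (hM₁.pos 0).ne']
      linarith
    exact Real.log_injOn_pos (hM₂.pos θ) (mul_pos (div_pos (hM₂.pos 0) (hM₁.pos 0)) (hM₁.pos θ)) h2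
  · rintro ⟨C, hC, hCu⟩
    funext θ
    have h1 : (fun α => Real.log (cr p α / slope p Y₂ α)) =
        fun α => Real.log (cr p α / slope p Y₁ α) - Real.log C := by
      funext α
      rw [hCu, Real.log_div (hcr α).ne' (mul_pos hC (hM₁.pos α)).ne', Real.log_mul hC.ne' (hM₁.pos α).ne',
        Real.log_div (hcr α).ne' (hM₁.pos α).ne']
      ring
    have h2 := hM₂.log θ
    rw [h1] at h2
    have h3 := h2.unique ((hM₁.log θ).sub_const _)
    exact (mul_right_cancel₀ (rho_pos hp θ).ne' h3).symm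
  · intro h
    subst h
    exact hUNP p X Z hp hW U₁ U₂ Y₁ Y₂ H₁ H₂ y₁ y₂ k₁ hP₁ hP₂ hk₁ hI₁ hI₂

end Pool.Agent.H242.GX
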