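import Pool.Agent.H242.GX.Stm
import Pool.Agent.H812.Had

open Set Filter Topology
open scoped ContDiff

namespace Pool.Agent.H242.GX

theorem gx_HAD : S_HAD := by
  intro f hf h0
  have hsw : ContDiff ℝ ∞ (fun z : ℝ × ℝ => ((z.2, z.1) : ℝ × ℝ)) := contDiff_snd.prodMk contDiff_fst
  obtain ⟨v, hv, h1, -⟩ := Pool.Agent.H812.hadamard (E := ℝ) (G := ℝ)
    (fun z : ℝ × ℝ => f (z.2, z.1)) (hf.comp hsw) (fun y => h0 y)
  refine ⟨fun z => v (z.2, z.1), hv.comp hsw, fun θ t => ?_⟩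
  have := h1 t θ
  simpa using this

end Pool.Agent.H242.GX
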