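import Pool.Agent.H242.GX.Fin
import Pool.Agent.H242.GX.HAD
import Pool.Agent.H10.GX.KEY
import Pool.Agent.H580.GX.MAX
import Pool.Agent.H161.GX.SUPP
import Pool.Agent.H947.GX.BODY
import Pool.Agent.H935.GX.PSI
import Pool.Agent.H758.GX.DESC
import Pool.Agent.H758.GX.INV
import Pool.Agent.H164.GX.CONV
import Pool.Agent.H922.GX.TAN
import Pool.Agent.H280.GX.SIG
import Pool.Agent.H25.GX.TAU
import Pool.Agent.H663.GX.RAD
import Pool.Agent.H105.GX.WEB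
import Pool.Agent.H653.GX.DER
import Pool.Agent.H230.GX.AREA
import Pool.Agent.H729.GX.LOC
import Pool.Agent.H703.GX.LIN
import Pool.Agent.H10.GX.FORMAL
import Pool.Agent.H166.GX.COMP
import Pool.Agent.H630.GX.DYN
import Pool.Agent.H404.GX.SMAP
import Pool.Agent.H580.GX.LOGB
import Pool.Agent.H299.GX.LOGMAP
import Pool.Agent.H383.GX.FLATEXT
import Pool.Agent.H261.GX.LM
import Pool.Agent.H767.GX.CUT
import Pool.Agent.H784.GX.FLATMUL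
import Pool.Agent.H400.GX.PER
import Pool.Agent.H280.GX.FLAT0
import Pool.Agent.H725.GX.CORR1
import Pool.Agent.H296.GX.CORR2
import Pool.Agent.H195.GX.CORR
import Pool.Agent.H707.GX.EVEN
import Pool.Agent.H117.GX.DESC2
import Pool.Agent.H726.GX.FINAL
import Pool.Agent.H92.GX.NONC
import Pool.Agent.H80.GX.MEAN
import Pool.Agent.H155.GX.FSTEP
import Pool.Agent.H331.GX.BOREL
import Pool.Agent.H747.GX.PRE

/-! All the lemmas of the project GX, part 1. -/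

namespace Pool.Agent.H242.GX

theorem t_KEY : S_KEY := Pool.Agent.H10.GX.gx_KEY
theorem t_MAX : S_MAX := Pool.Agent.H580.GX.gx_MAX
theorem t_SUPP : S_SUPP := Pool.Agent.H161.GX.gx_SUPP
theorem t_BODY : S_BODY := Pool.Agent.H947.GX.gx_BODY t_KEY t_MAX
theorem t_PSI : S_PSI := Pool.Agent.H935.GX.gx_PSI t_KEY t_MAX t_BODY
theorem t_DESC : S_DESC := Pool.Agent.H758.GX.gx_DESC
theorem t_INV : S_INV := Pool.Agent.H758.GX.gx_INV
theorem t_CONV : S_CONV := Pool.Agent.H164.GX.CONV.gx_CONV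
theorem t_TAN : S_TAN := Pool.Agent.H922.GXTAN.gx_TAN t_KEY t_BODY
theorem t_SIG : S_SIG := Pool.Agent.H280.GX.gx_SIG
theorem t_TAU : S_TAU := Pool.Agent.H25.GX.gx_TAU
theorem t_RAD : S_RAD := Pool.Agent.H663.GX.gx_RAD gx_HAD
theorem t_WEB : S_WEB := Pool.Agent.H105.GX.gx_WEB t_INV t_TAU t_RAD
theorem t_DER : S_DER := Pool.Agent.H653.GX.gx_DER
theorem t_AREA : S_AREA := Pool.Agent.H230.GX.AREA.gx_AREA
theorem t_LOC : S_LOC := Pool.Agent.H729.GX.gx_LOC t_INV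
theorem t_LIN : S_LIN := Pool.Agent.H703.GX.LIN.gx_LIN gx_HAD
theorem t_MEAN : S_MEAN := Pool.Agent.H80.GX.MEAN.gx_MEAN t_AREA t_LOC gx_HAD t_DER
theorem t_FSTEP : S_FSTEP := Pool.Agent.H155.GX.gx_FSTEP t_LIN t_DER t_MEAN gx_HAD
theorem t_BOREL : S_BOREL := Pool.Agent.H331.GX.gx_BOREL
theorem t_FORMAL : S_FORMAL := Pool.Agent.H10.GX.gx_FORMAL t_FSTEP t_BOREL gx_HAD
theorem t_COMP : S_COMP := Pool.Agent.H166.GX.gx_COMP
theorem t_DYN : S_DYN := Pool.Agent.H630.GX.gx_DYN t_COMP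
theorem t_SMAP : S_SMAP := Pool.Agent.H404.GX.SMAP.gx_SMAP gx_HAD
theorem t_LOGB : S_LOGB := Pool.Agent.H580.GX.gx_LOGB
theorem t_LOGMAP : S_LOGMAP := Pool.Agent.H299.GX.gx_LOGMAP t_SMAP t_LOGB gx_HAD
theorem t_FLATEXT : S_FLATEXT := Pool.Agent.H383.GX.gx_FLATEXT
theorem t_LM : S_LM := Pool.Agent.H261.GX.gx_LM gx_HAD t_LOGB
theorem t_CUT : S_CUT := Pool.Agent.H767.GX.gx_CUT
theorem t_FLATMUL : S_FLATMUL := Pool.Agent.H784.GX.gx_FLATMUL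
theorem t_PER : S_PER := Pool.Agent.H400.GXPER.gx_PER
theorem t_FLAT0 : S_FLAT0 := Pool.Agent.H280.GX.gx_FLAT0 gx_HAD
theorem t_PRE : S_PRE := Pool.Agent.H747.GXPRE.gx_PRE t_LOC gx_HAD t_LOGB t_FLATEXT t_PER
theorem t_CORR1 : S_CORR1 := Pool.Agent.H725.GX.gx_CORR1 t_LOGMAP t_DYN t_LOGB
theorem t_CORR2 : S_CORR2 := Pool.Agent.H296.GX.gx_CORR2 t_LM t_CUT t_FLATMUL t_FLATEXT
theorem t_CORR : S_CORR := Pool.Agent.H195.GX.gx_CORR t_CORR1 t_CORR2 t_PER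
theorem t_EVEN : S_EVEN := Pool.Agent.H707.GX.gx_EVEN t_FORMAL t_PRE t_FLAT0 t_CORR
theorem t_DESC2 : S_DESC2 := Pool.Agent.H117.GX.gx_DESC2 t_PSI t_DESC t_BODY gx_HAD t_DER
theorem t_FINAL : S_FINAL := Pool.Agent.H726.GX.gx_FINAL t_WEB t_EVEN t_DESC2 t_BODY t_CONV t_TAN t_SIG
theorem t_NONC : S_NONC := Pool.Agent.H92.GX.gx_NONC

end Pool.Agent.H242.GX
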