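import Pool.Agent.H242.GX.All
import Pool.Agent.H242.GX.Stm2
import Pool.Agent.H725.GX.MWEB
import Pool.Agent.H181.GX.MOD
import Pool.Agent.H102.GX.BASEM
import Pool.Agent.H947.GX.STEPM
import Pool.Agent.H200.GX.FORMALM
import Pool.Agent.H286.GX.EVENM
import Pool.Agent.H388.GX.DESC3
import Pool.Agent.H372.GX.SIGP
import Pool.Agent.H903.GX.FINALM
import Pool.Agent.H668.GX.UNQ
import Pool.Agent.H706.GX.PULL
import Pool.Agent.H441.GX.UNIQ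

/-! All the lemmas of the project GX, part 2. -/

namespace Pool.Agent.H242.GX

theorem t_MWEB : S_MWEB := Pool.Agent.H725.GX.gx_MWEB t_PSI
theorem t_MOD : S_MOD := Pool.Agent.H181.GX.gx_MOD
theorem t_BASEM : S_BASEM := Pool.Agent.H102.GX.gx_BASEM t_LIN gx_HAD
theorem t_STEPM : S_STEPM := Pool.Agent.H947.GX.STEPM.gx_STEPM t_LIN gx_HAD
theorem t_FORMALM : S_FORMALM := Pool.Agent.H200.GX.gx_FORMALM t_BASEM t_STEPM t_BOREL gx_HAD
theorem t_EVENM : S_EVENM := Pool.Agent.H286.GX.gx_EVENM t_PRE t_FLAT0 t_CORR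
theorem t_DESC3 : S_DESC3 := Pool.Agent.H388.GX.gx_DESC3 t_PSI t_DESC t_BODY gx_HAD
theorem t_SIGP : S_SIGP := Pool.Agent.H372.GX.gx_SIGP
theorem t_FINALM : S_FINALM := Pool.Agent.H903.GX.gx_FINALM t_WEB t_MWEB t_MOD t_FORMALM t_EVENM t_DESC3 t_BODY
  t_CONV t_TAN t_SIGP
theorem t_UNQ : S_UNQ := Pool.Agent.H668.GX.UNQ.gx_UNQ t_LIN gx_HAD
theorem t_PULL : S_PULL := Pool.Agent.H706.GX.gx_PULL t_BODY t_PSI
theorem t_UNIQ : S_UNIQ := Pool.Agent.H441.GX.gx_UNIQ t_WEB t_PULL t_UNQ t_LIN gx_HAD t_PSI t_BODY t_DER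

end Pool.Agent.H242.GX
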