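import Pool.Agent.H242.GX.Stm2

/-!
# Project GX (helper242), page MP_ae5b4e_an, fourth part: (almost) uniform neighbourhoods

GOAL: for every oval and every point `z₀` of it there are `c > 0` and a smooth exterior foliation such that for ALL points `z` of the oval the
involution `σ_z` is defined on the segment of length `2c` of the tangent line, and it is the point reflection for `|t| < c |z - z₀|`, and for `|t| < c` if `z = z₀`.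
(Uniformity fails only at the one point `z₀`, and only linearly; complete uniformity would contradict the Birkhoff conjecture for outer billiards.)

All statements are variants of statements of part 1 with finished proofs; only the cut-off near the angle `0` is changed: instead of the region `φ ≤ y^{1/8}` the region `φ ≤ K √y`.
-/

open Set Filter Topology
open scoped ContDiff

namespace Pool.Agent.H242.GX

/-- **GX4-XB.** Bounds for the web. PROOF. GX-HAD applied to `X₁ - θ` and to `X₂` (both vanish at `t = 0`, `axis`) gives `X₁ = θ + t α`, `X₂ = t β` with `α, β` smooth and (by `per`, for `t ≠ 0`, and for `t = 0` by continuity) periodic in `θ`; so they are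
bounded on `ℝ × [-1, 1]` (compactness of `[0, 2π] × [-1, 1]`). For the second part: `X₂ (0, t) = t β (0, t)` and `β (0, 0) = ∂_t X₂ (0, 0) > 0` (`der2`), so `|X₂ (0, t)| ≥ (β (0, 0) / 2) |t|` for small `t`, and `|X₁ (0, t)| ≤ C |t|`. -/
def S_XB : Prop := ∀ X Z : ℝ × ℝ → ℝ × ℝ, Web X Z →
  (∃ C : ℝ, 0 < C ∧ ∀ θ t : ℝ, |t| ≤ 1 → |(X (θ, t)).1 - θ| ≤ C * |t| ∧ |(X (θ, t)).2| ≤ C * |t|) ∧
  ∃ K r : ℝ, 0 < K ∧ 0 < r ∧ ∀ t : ℝ, |t| < r → |(X (0, t)).1| ≤ K * |(X (0, t)).2|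

/-- **GX4-CUTK.** Model: `Pool/Agent/H767/GX/CUT.lean` (the same statement with `exp (x.2 / 4)` in place of `K * exp x.2`). PROOF. Let `η : ℝ → [0, 1]` be smooth, `0` on `(-∞, 1]`, `1` on `[2, ∞)`. Take
`χ (φ, w) = η (φ e^{-w} / K) η ((2π - φ) e^{-w} / K)`. If `χ` or a derivative is nonzero at a point then `0 < φ < 2π`. The derivatives of `φ e^{-w}` of order `i`
are at most `C e^{-w}` for `0 ≤ φ ≤ 2π`, `w ≤ 0`, so those of `χ` of order `i` are at most `C_i e^{-i w}`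
(at the points with `φ ≤ 0` or `φ ≥ 2π` the function `χ` vanishes near the point). -/
def S_CUTK : Prop := ∀ K : ℝ, 0 < K → ∃ χ : ℝ × ℝ → ℝ, ContDiff ℝ ∞ χ ∧
  (∀ x : ℝ × ℝ, (x.1 ≤ K * Real.exp x.2 ∨ 2 * Real.pi ≤ x.1 + K * Real.exp x.2) → χ x = 0) ∧
  (∀ x : ℝ × ℝ, 2 * K * Real.exp x.2 ≤ x.1 → 2 * K * Real.exp x.2 ≤ 2 * Real.pi - x.1 → χ x = 1) ∧
  ∀ i : ℕ, ∃ C : ℝ, ∀ x : ℝ × ℝ, x.2 ≤ 0 → ‖iteratedFDeriv ℝ i χ x‖ ≤ C * Real.exp (-(i : ℝ) * x.2)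

/-- **GX4-FLATMULK.** Model: `Pool/Agent/H784/GX/FLATMUL.lean` (the same statement with `exp (x.2 / 4)` in place of `K * exp x.2`; the hypothesis is only used to see that `χ` vanishes near the points with `x.1 ≤ 0` or `x.1 ≥ 2π`). -/
def S_FLATMULK : Prop := ∀ (K : ℝ) (χ g : ℝ × ℝ → ℝ) (L : ℝ × ℝ → ℝ × ℝ) (b s₁ : ℝ), 0 < K → 2 * Real.pi < b →
  ContDiff ℝ ∞ χ → (∀ x : ℝ × ℝ, (x.1 ≤ K * Real.exp x.2 ∨ 2 * Real.pi ≤ x.1 + K * Real.exp x.2) → χ x = 0) →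
  (∀ i : ℕ, ∃ C : ℝ, ∀ x : ℝ × ℝ, x.2 ≤ 0 → ‖iteratedFDeriv ℝ i χ x‖ ≤ C * Real.exp (-(i : ℝ) * x.2)) →
  ContDiffOn ℝ ∞ g {x | x.1 < b ∧ x.2 < s₁} →
  (∀ (i N : ℕ), ∃ C : ℝ, ∀ x : ℝ × ℝ, x.1 < b → x.2 < s₁ → ‖iteratedFDeriv ℝ i g x‖ ≤ C * Real.exp (N * x.2)) →
  ContDiffOn ℝ ∞ L {x | x.2 < 0} →
  (∀ i : ℕ, 1 ≤ i → ∃ C : ℝ, ∀ x : ℝ × ℝ, x.2 < 0 → ‖iteratedFDeriv ℝ i L x‖ ≤ C) →
  (∃ C : ℝ, 0 < C ∧ ∀ x : ℝ × ℝ, x.2 < 0 → |(L x).1 - x.1| ≤ C * Real.exp x.2 ∧ |(L x).2 - x.2| ≤ C) →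
  ∃ w₀ : ℝ, w₀ < 0 ∧ ContDiffOn ℝ ∞ (fun x => χ x * g (L x)) {x | x.2 < w₀} ∧
    ∀ (i N : ℕ), ∃ C : ℝ, ∀ x : ℝ × ℝ, x.2 < w₀ →
      ‖iteratedFDeriv ℝ i (fun x => χ x * g (L x)) x‖ ≤ C * Real.exp (N * x.2)

/-- **GX4-CORR2K.** From GX-LM, GX4-CUTK, GX4-FLATMULK, GX-FLATEXT, GX4-XB. Model: `Pool/Agent/H296/GX/CORR2.lean` (the same proof; `exp (w)` at `w = log y / 2` is `√y = |r|`, in place of `exp (w / 4) = y^{1/8}`).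
PROOF. As GX-CORR2: GX4-FLATMULK with `χ` of GX4-CUTK, `L = Lm Z lam`, `b = 2π + 1` gives `w₀ < 0` and the flat function `f = χ * (g ∘ L)` on `x.2 < w₀`; GX-FLATEXT gives a smooth function `F` on `y < e^{2 w₀}`; `G = b(y) F` with a smooth cut-off `b`, `1` for `y ≤ e^{2 w₀}/4`,
`0` for `y ≥ e^{2 w₀}/2`. The last part, uniform in `θ`: let `C` be the constant of GX4-XB, `c > 0` so small that `c (C + 2 K C) < 1`, `c π ≤ 1`, `(C c π)² < e^{2 w₀}/4` (and `C c π < 1`). If `0 < t < c θ` and `t < c (2π - θ)` then `t ≤ c π`, and for `φ = X₁ (θ, ±t)`, `r = X₂ (θ, ±t)`: `|φ - θ| ≤ C t`, `|r| ≤ C t`, so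
`φ - 2 K |r| ≥ θ - (C + 2 K C) t > θ (1 - (C + 2 K C) c) > 0` and in the same way `2π - φ > 2 K |r|`; `r ≠ 0`, `r² < e^{2 w₀}/4`. So `χ (φ, log |r|) = 1` and the two formulas follow exactly as in the model. -/
def S_CORR2K : Prop := ∀ (X Z : ℝ × ℝ → ℝ × ℝ), Web X Z → ∀ (K lam s₁ : ℝ) (g : ℝ × ℝ → ℝ), 0 < K → 0 < lam → s₁ < 0 →
    ContDiffOn ℝ ∞ g {x | x.1 < 2 * Real.pi + 1 ∧ x.2 < s₁} →
    (∀ (i N : ℕ), ∃ C : ℝ, ∀ x : ℝ × ℝ, x.1 < 2 * Real.pi + 1 → x.2 < s₁ → ‖iteratedFDeriv ℝ i g x‖ ≤ C * Real.exp (N * x.2)) →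
    ∃ G : ℝ × ℝ → ℝ, ContDiff ℝ ∞ G ∧ (∀ φ y : ℝ, (y ≤ 0 ∨ φ ≤ 0 ∨ 2 * Real.pi ≤ φ) → G (φ, y) = 0) ∧
      (∀ φ y : ℝ, 0 < y → (φ ≤ K * Real.sqrt y ∨ 2 * Real.pi ≤ φ + K * Real.sqrt y) → G (φ, y) = 0) ∧
      ∃ c : ℝ, 0 < c ∧ ∀ θ t : ℝ, 0 < t → t < c * θ → t < c * (2 * Real.pi - θ) →
        G ((X (θ, t)).1, (X (θ, t)).2 ^ 2) = g (θ, Real.log (t / lam)) ∧
        G ((X (θ, -t)).1, (X (θ, -t)).2 ^ 2) = g ((Sm X Z (θ, t)).1, Real.log ((Sm X Z (θ, t)).2 / lam))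

/-- **GX4-CORRK.** From GX-CORR1, GX4-CORR2K, GX-PER, GX4-XB. Model: `Pool/Agent/H195/GX/CORR.lean`. PROOF. `K, r` from GX4-XB. Let `P` be the periodic extension (GX-PER) of `G` (GX4-CORR2K for `g` of GX-CORR1 and this `K`). Shrink the `c` of GX4-CORR2K so that also
`c C < 1`, `c π ≤ 1` (`C` of GX4-XB) and `c π < lam * exp s₁`. Let `0 < t < c θ`, `t < c (2π - θ)`: the angles `X₁ (θ, ±t)` are in `(0, 2π)`, as `|X₁ - θ| ≤ C t < min θ (2π - θ)`, so with `x = (θ, log (t/lam))`, `lam exp x.2 = t`, `x.2 < s₁`: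
`Odd X P θ t = g x - g (..Sm..) = - Odd X H θ t`, i.e. `Odd X (H + P) θ t = 0`; for `t < 0` by oddness, `t = 0` trivially. On the line `0`, for `|t| < r` (and `|t| < 1/C`, so that `|φ| < 1 < 2π`): `φ = X₁ (0, t)`, `y = X₂ (0, t)²`: `|φ| ≤ K √y`. If `φ ≥ 0` then `P = G = 0` there; if
`φ < 0` then `P (φ, y) = G (φ + 2π, y) = 0` since `2π ≤ (φ + 2π) + K √y`; (if `y = 0`, `P = 0` anyway). -/
def S_CORRK : Prop := ∀ (X Z : ℝ × ℝ → ℝ × ℝ), Web X Z → ∀ H : ℝ × ℝ → ℝ, ContDiff ℝ ∞ H →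
  (∀ φ y : ℝ, H (φ + 2 * Real.pi, y) = H (φ, y)) → Flat X H →
  ∃ P : ℝ × ℝ → ℝ, ContDiff ℝ ∞ P ∧ (∀ φ y : ℝ, P (φ + 2 * Real.pi, y) = P (φ, y)) ∧
    (∀ φ y : ℝ, y ≤ 0 → P (φ, y) = 0) ∧
    (∃ r : ℝ, 0 < r ∧ ∀ t : ℝ, |t| < r → P ((X (0, t)).1, (X (0, t)).2 ^ 2) = 0) ∧
    ∃ c : ℝ, 0 < c ∧ ∀ θ t : ℝ, |t| < c * θ → |t| < c * (2 * Real.pi - θ) → Odd X (fun x => H x + P x) θ t = 0

/-- `H` is even on the tangent line number `θ` for `|t| < c * dist (θ, θ₀ + 2 π ℤ)`, and on the line number `θ₀` for `|t| < c`. -/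
def EvenOff (X : ℝ × ℝ → ℝ × ℝ) (H : ℝ × ℝ → ℝ) (θ₀ c : ℝ) : Prop :=
  (∀ θ t : ℝ, |t| < c * (θ - θ₀) → |t| < c * (θ₀ + 2 * Real.pi - θ) → Odd X H θ t = 0) ∧
  ∀ t : ℝ, |t| < c → Odd X H θ₀ t = 0

/-- **GX4-EVENK.** From GX-PRE, GX-FLAT0, GX4-CORRK. Models: `Pool/Agent/H286/GX/EVENM.lean`, `Pool/Agent/H707/GX/EVEN.lean`. PROOF. First `θ₀ = 0`: `P₁` of GX-PRE, `H₁ = H₀ + P₁` is `Flat` (GX-FLAT0, and sums of flat functions are flat), `P₂` of GX4-CORRK for `H₁`, `H = H₁ + P₂`; on the line `0`: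
`Odd X H 0 t = Odd X H₁ 0 t + 0 - 0 = 0` for small `|t|`; take the smaller `c`. `P₁, P₂` vanish for `y ≤ 0`, so `H (φ, 0) = 0` and the `y`-derivative at `0` is not changed. General `θ₀`: apply this to the shifted web
`X' (θ, t) = ((X (θ + θ₀, t)).1 - θ₀, (X (θ + θ₀, t)).2)`, `Z' (φ, r) = ((Z (φ + θ₀, r)).1 - θ₀, (Z (φ + θ₀, r)).2)` (a `Web`: all axioms are invariant under this translation) and to `H₀' (φ, y) = H₀ (φ + θ₀, y)`: `Odd X' H₀' θ t = Odd X H₀ (θ + θ₀) t`, so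
`Flat X' H₀'`. Put `H (φ, y) = H' (φ - θ₀, y)`. -/
def S_EVENK : Prop := ∀ X Z : ℝ × ℝ → ℝ × ℝ, Web X Z → ∀ (θ₀ : ℝ) (H₀ : ℝ × ℝ → ℝ), ContDiff ℝ ∞ H₀ →
  (∀ φ y : ℝ, H₀ (φ + 2 * Real.pi, y) = H₀ (φ, y)) → (∀ φ : ℝ, H₀ (φ, 0) = 0) → Flat X H₀ →
  ∃ H : ℝ × ℝ → ℝ, ContDiff ℝ ∞ H ∧ (∀ φ y : ℝ, H (φ + 2 * Real.pi, y) = H (φ, y)) ∧
    (∀ φ : ℝ, H (φ, 0) = 0) ∧ (∀ φ : ℝ, deriv (fun y => H (φ, y)) 0 = deriv (fun y => H₀ (φ, y)) 0) ∧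
    ∃ c : ℝ, 0 < c ∧ EvenOff X H θ₀ c

/-- **GX4-DESC.** From GX-PSI, GX-DESC, GX-BODY, GX-HAD. PROOF. As GX-DESC2 (finished models: `Pool/Agent/H117/GX/DESC2.lean`, and the file `DESC3.lean` of the second part), with uniform `r`: `V' = {z ∈ V : Y' z < y₂}` where `Y' (Psi p φ y) = y`, `K > 0` for `|y| < y₂`, `H = y K`. `X₂ (θ, t) = t r₁ (θ, t)`, `r₁` periodic and bounded for
`|t| ≤ 1`, so for some `r > 0` `X₂ (θ, t)² < y₂` for all `θ` and `|t| ≤ r`, hence `gam p θ + t e θ = Psi p X₁ (X₂²) ∈ V'` and `Y` there is `H (X₁, X₂²) = t² q (θ, t)`, `q = r₁² K (X₁, X₂²)` smooth and periodic near `t = 0`, `q (θ, 0) > 0`. The derivative in `t` is `t (2 q + t ∂_t q)`, and `2 q + t ∂_t q > 0` for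
`|t| ≤ r`, all `θ`, if `r` is small (continuity, periodicity and compactness of `[0, 2π]`); this gives the strict monotonicity (`strictMonoOn_of_deriv_pos`, `strictAntiOn_of_deriv_neg`). -/
def S_DESC4 : Prop := ∀ (p : ℝ → ℝ) (X Z : ℝ × ℝ → ℝ × ℝ), TWeb p X Z → ∀ H : ℝ × ℝ → ℝ, ContDiff ℝ ∞ H →
  (∀ φ y : ℝ, H (φ + 2 * Real.pi, y) = H (φ, y)) →
  (∀ φ : ℝ, H (φ, 0) = 0) → (∀ φ : ℝ, 0 < deriv (fun y => H (φ, y)) 0) →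
  ∃ (V : Set ℂ) (Y : ℂ → ℝ), IsOpen V ∧ frontier (body p) ⊆ V ∧ ContDiffOn ℝ ∞ Y V ∧
    (∀ z ∈ frontier (body p), Y z = 0) ∧ (∀ z ∈ V, z ∉ body p → 0 < Y z) ∧
    (∀ θ : ℝ, fderiv ℝ Y (gam p θ) (e θ) = 0 ∧ fderiv ℝ Y (gam p θ) (nu θ) = deriv (fun y => H (θ, y)) 0 ∧
      0 < fderiv ℝ (fderiv ℝ Y) (gam p θ) (e θ) (e θ)) ∧
    ∃ r : ℝ, 0 < r ∧
      (∀ θ t : ℝ, |t| ≤ r → Y (gam p θ + t • e θ) = H ((X (θ, t)).1, (X (θ, t)).2 ^ 2)) ∧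
      ∀ θ : ℝ, StrictAntiOn (fun t : ℝ => Y (gam p θ + t • e θ)) (Icc (-r) 0) ∧
        StrictMonoOn (fun t : ℝ => Y (gam p θ + t • e θ)) (Icc 0 r)

/-- **GX4-FOL.** The assembly. From GX-WEB, GX-FORMAL, GX4-EVENK, GX4-DESC, GX-BODY, GX-KEY, GX-CONV, GX-TAN, GX-SIG. Model: `Pool/Agent/H726/GX/FINAL.lean`.
PROOF. `z₀ = gam p θ₀` (frontier = range). `X, Z` of GX-WEB, `H₀` of GX-FORMAL, `H`, `c₁` of GX4-EVENK (for this `θ₀`), `V, Y, r` of GX4-DESC, `U` of GX-CONV (as in the model). `frontier (body p)` is compact and `U` is open, so the `c₂`-neighbourhood of it is in `U` for some `c₂ > 0`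
(`IsCompact.exists_thickening_subset_open`). `gam p` is Lipschitz with a constant `Λ` (its derivative is bounded, by periodicity), so `‖gam p θ - gam p θ₀‖ ≤ Λ min (θ - θ₀, θ₀ + 2π - θ)` for `θ₀ ≤ θ ≤ θ₀ + 2π`. Take `c > 0` smaller than `c₁ / (Λ + 1)`, `c₁ / 2`, `c₂ / 2`, `r`.
Let `z` be in the frontier and `v` a tangent direction; `z = gam p θ` with `θ₀ ≤ θ < θ₀ + 2π` (periodicity of `gam p`) and `v = l e θ`, `l ≠ 0` (GX-TAN). `SigmaProjective` from GX-SIG as in the model (evenness for `|t| < r' / |l|`, from `EvenOff`: if `θ = θ₀` the second part, otherwise the first part).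
If `‖v‖ = 1` then `l = 1` or `l = -1` and the function `t ↦ Y (z + t v)` is that of GX4-DESC or its reflection (so both monotonicities hold in both cases). If `|t| ≤ c` and `|t| < c ‖z - z₀‖` then `θ ≠ θ₀`, `|t| < c₁ (θ - θ₀)`, `|t| < c₁ (θ₀ + 2π - θ)`, `|t| ≤ r`, so `Odd X H θ t = 0`.
If `z = z₀` then `θ = θ₀` by GX-KEY (`y = 0`: injectivity of `gam p` modulo `2π`) and `|t| ≤ c < c₁`. -/
def S_FOL : Prop := ∀ p : ℝ → ℝ, Supp p → ∀ z₀ ∈ frontier (body p), ∃ (U : Set ℂ) (Y : ℂ → ℝ) (c : ℝ), 0 < c ∧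
  IsExteriorFoliation (body p) U Y ∧
  ∀ z ∈ frontier (body p), ∀ v : ℂ, IsTangentDir (body p) z v → SigmaProjective U Y z v ∧
    (‖v‖ = 1 → (∀ t : ℝ, |t| ≤ c → z + t • v ∈ U) ∧
      StrictAntiOn (fun t : ℝ => Y (z + t • v)) (Icc (-c) 0) ∧
      StrictMonoOn (fun t : ℝ => Y (z + t • v)) (Icc 0 c) ∧
      ∀ t : ℝ, |t| ≤ c → (|t| < c * ‖z - z₀‖ ∨ z = z₀) → Y (z + t • v) = Y (z - t • v))

/-- **GX4-FOLM.** The assembly for mirror symmetric ovals. From GX-WEB, GX-MWEB, GX-MOD, GX-FORMALM, GX4-EVENK, GX4-DESC, GX-BODY, GX-KEY, GX-CONV, GX-TAN, GX-SIGP. Models: `Pool/Agent/H903/GX/FINALM.lean` and the proof of GX4-FOL.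
PROOF. As GX-FINALM: `X, Z`, `a, b, b₂`, `κ θ = - a u' / u - b₂ / b` (smooth, periodic, odd), GX-MOD for `c = κ` gives `X', Z', δ`, GX-FORMALM gives `H₀` (for `X'`), GX4-EVENK (for `X'`, `θ₀` with `z₀ = gam p θ₀`) gives `H`, `c₁`; GX4-DESC (for `X`) gives `V, Y, r`, GX-CONV gives `U`. For small `|τ|` (uniformly in `θ`; `κ` is bounded), with
`h τ = τ / (1 - κ θ τ / 2)`: `Y (gam p θ + h τ e θ) = H (X' (θ, τ).1, X' (θ, τ).2²)`. For given `t` put `τ = t / (1 + κ θ t / 2)`: `h τ = t`, `h (-τ) = - t / (1 + κ θ t)`, `|τ| ≤ 2 |t|` for small `t`. So `Odd X' H θ τ = 0` gives `Y (gam p θ + (-t / (1 + κ θ t)) e θ) = Y (gam p θ + t e θ)`; the choice of `c` as in GX4-FOL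
(with `2 c` in place of `c` where `τ` is involved; `|κ| c < 1/2`); `gam p θ = gam p θ₀` implies `θ = θ₀ + 2πk` (GX-KEY), and everything is periodic in `θ` (`Odd X' H (θ + 2π) t = Odd X' H θ t` by `per`). -/
def S_FOLM : Prop := ∀ p : ℝ → ℝ, Supp p → (∀ α, p (-α) = p α) → ∀ u : ℝ → ℝ, EP u → (∀ φ, 0 < u φ) →
  ∀ θ₀ : ℝ, ∃ (U : Set ℂ) (Y : ℂ → ℝ) (κ : ℝ → ℝ) (c : ℝ), 0 < c ∧ PP κ ∧
    IsExteriorFoliation (body p) U Y ∧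
    (∀ z ∈ frontier (body p), ∀ v : ℂ, IsTangentDir (body p) z v → SigmaProjective U Y z v) ∧
    (∀ θ : ℝ, fderiv ℝ Y (gam p θ) (nu θ) = u θ) ∧
    (∀ θ : ℝ, (∀ t : ℝ, |t| ≤ 2 * c → gam p θ + t • e θ ∈ U) ∧
      StrictAntiOn (fun t : ℝ => Y (gam p θ + t • e θ)) (Icc (-(2 * c)) 0) ∧
      StrictMonoOn (fun t : ℝ => Y (gam p θ + t • e θ)) (Icc 0 (2 * c))) ∧
    ∀ θ t : ℝ, |t| ≤ c → 1 / 2 < 1 + κ θ * t ∧
      ((|t| < c * ‖gam p θ - gam p θ₀‖ ∨ gam p θ = gam p θ₀) →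
        Y (gam p θ + (-t / (1 + κ θ * t)) • e θ) = Y (gam p θ + t • e θ))

end Pool.Agent.H242.GX
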