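import Pool.Agent.H242.GX.All2
import Pool.Agent.H242.GX.Stm4
import Pool.Agent.H154.GX.XB
import Pool.Agent.H86.GX.CUTK
import Pool.Agent.H118.GX.FLATMULK
import Pool.Agent.H370.GX.CORR2K
import Pool.Agent.H977.GX.CORRK
import Pool.Agent.H404.GX.EVENK
import Pool.Agent.H307.GX.DESC4
import Pool.Agent.H274.GX.FOL
import Pool.Agent.H405.GX.FOLM

/-! All the lemmas of the project GX, part 4. -/

namespace Pool.Agent.H242.GX

theorem t_XB : S_XB := Pool.Agent.H154.GX.gx_XB gx_HAD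
theorem t_CUTK : S_CUTK := Pool.Agent.H86.GX.gx_CUTK
theorem t_FLATMULK : S_FLATMULK := Pool.Agent.H118.GX.gx_FLATMULK
theorem t_CORR2K : S_CORR2K := Pool.Agent.H370.GX.gx_CORR2K t_LM t_CUTK t_FLATMULK t_FLATEXT t_XB
theorem t_CORRK : S_CORRK := Pool.Agent.H977.GX.gx_CORRK t_CORR1 t_CORR2K t_PER t_XB
theorem t_EVENK : S_EVENK := Pool.Agent.H404.GX.gx_EVENK t_PRE t_FLAT0 t_CORRK
theorem t_DESC4 : S_DESC4 := Pool.Agent.H307.GX.gx_DESC4 t_PSI t_DESC t_BODY gx_HAD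
theorem t_FOL : S_FOL :=
  Pool.Agent.H274.GX.gx_FOL t_WEB t_FORMAL t_EVENK t_DESC4 t_BODY t_KEY t_CONV t_TAN t_SIG
theorem t_FOLM : S_FOLM :=
  Pool.Agent.H405.GX.gx_FOLM t_WEB t_MWEB t_MOD t_FORMALM t_EVENK t_DESC4 t_BODY t_KEY t_CONV t_TAN t_SIGP

end Pool.Agent.H242.GX
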