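import Pool.Agent.H242.GX.All
import Pool.Agent.H117.GX.TDIR
import Pool.Agent.H396.GX.CURV

/-! The curvature of a table with an exterior foliation with point reflections does not vanish. -/

open Set Filter Topology
open scoped ContDiff

namespace Pool.Agent.H242.GX

theorem t_TDIR : S_TDIR := Pool.Agent.H117.GX.TDIR.gx_TDIR
theorem t_CURV : S_CURV := Pool.Agent.H396.GX.gx_CURV

theorem oval_of_reflections {K : Set ℂ} (hK : IsTable K) {U : Set ℂ} {Y : ℂ → ℝ}
    (hY : IsExteriorFoliation K U Y)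
    (hev : ∀ z ∈ frontier K, ∀ v : ℂ, IsTangentDir K z v →
      ∃ r : ℝ, 0 < r ∧ ∀ t : ℝ, |t| < r → Y (z + t • v) = Y (z - t • v)) : Oval K := by
  obtain ⟨hc, hs, hi, γ, h1, h2, h3, h4, h5⟩ := hK
  have hmem : ∀ t, γ t ∈ frontier K := fun t => by rw [← h5]; exact mem_range_self t
  refine ⟨hc, hs, hi, γ, h1, h2, h3, h4, h5, ?_⟩
  refine t_CURV U Y γ hY.isOpen ?_ hY.smooth h1 h2 h4 ?_ hY.regular ?_
  · rw [h5]; exact hY.frontier_subset
  · intro t
    have h := hmem t
    rw [← hY.leaf_zero] at h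
    exact h.2.2
  · intro t
    exact hev _ (hmem t) _ (t_TDIR K γ hc.isClosed hs.convex hi h1 h5 t (h4 t))

end Pool.Agent.H242.GX
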