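import Pool.Agent.H242.GX.Stm

/-! The bodies `body p` are ovals: explicit boundary curve with non-vanishing curvature. -/

open Set Filter Topology
open scoped ContDiff

namespace Pool.Agent.H242.GX

/-- `K` is the disc bounded by a smooth closed strictly convex curve with nowhere vanishing curvature. -/
def Oval (K : Set ℂ) : Prop :=
  IsCompact K ∧ StrictConvex ℝ K ∧ (interior K).Nonempty ∧
    ∃ γ : ℝ → ℂ, ContDiff ℝ ∞ γ ∧ Function.Periodic γ 1 ∧ InjOn γ (Ico 0 1) ∧
      (∀ t, deriv γ t ≠ 0) ∧ range γ = frontier K ∧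
      ∀ t, (deriv γ t).re * (deriv (deriv γ) t).im - (deriv γ t).im * (deriv (deriv γ) t).re ≠ 0

theorem e_eq (α : ℝ) : e α = (Real.cos α : ℂ) + (Real.sin α : ℂ) * Complex.I := by
  apply Complex.ext <;> simp [e, Complex.cos_ofReal_re, Complex.sin_ofReal_re]

theorem nu_eq (α : ℝ) : nu α = (Real.sin α : ℂ) - (Real.cos α : ℂ) * Complex.I := by
  apply Complex.ext <;> simp [nu, Complex.cos_ofReal_re, Complex.sin_ofReal_re]

theorem hasDerivAt_e (α : ℝ) : HasDerivAt e (-nu α) α := by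
  have h1 : HasDerivAt (fun x : ℝ => ((Real.cos x : ℝ) : ℂ)) ((-Real.sin α : ℝ) : ℂ) α :=
    (Real.hasDerivAt_cos α).ofReal_comp
  have h2 : HasDerivAt (fun x : ℝ => ((Real.sin x : ℝ) : ℂ)) ((Real.cos α : ℝ) : ℂ) α :=
    (Real.hasDerivAt_sin α).ofReal_comp
  have h := h1.add (h2.mul_const Complex.I)
  have he : e = fun x : ℝ => ((Real.cos x : ℝ) : ℂ) + ((Real.sin x : ℝ) : ℂ) * Complex.I := by
    funext x; exact e_eq x
  rw [he]
  refine h.congr_deriv ?_
  rw [nu_eq]; push_cast; ring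

theorem hasDerivAt_nu (α : ℝ) : HasDerivAt nu (e α) α := by
  have h1 : HasDerivAt (fun x : ℝ => ((Real.cos x : ℝ) : ℂ)) ((-Real.sin α : ℝ) : ℂ) α :=
    (Real.hasDerivAt_cos α).ofReal_comp
  have h2 : HasDerivAt (fun x : ℝ => ((Real.sin x : ℝ) : ℂ)) ((Real.cos α : ℝ) : ℂ) α :=
    (Real.hasDerivAt_sin α).ofReal_comp
  have h := h2.sub (h1.mul_const Complex.I)
  have he : nu = fun x : ℝ => ((Real.sin x : ℝ) : ℂ) - ((Real.cos x : ℝ) : ℂ) * Complex.I := by
    funext x; exact nu_eq x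
  rw [he]
  refine h.congr_deriv ?_
  rw [e_eq]; push_cast; ring

theorem e_ne (α : ℝ) : e α ≠ 0 := by
  intro h
  have h1 : (e α).re = 0 := by rw [h]; rfl
  have h2 : (e α).im = 0 := by rw [h]; rfl
  have h3 := Real.sin_sq_add_cos_sq α
  simp only [e] at h1 h2
  rw [h1, h2] at h3
  norm_num at h3

theorem e_per (α : ℝ) : e (α + 2 * Real.pi) = e α := by
  simp [e, Real.cos_add_two_pi, Real.sin_add_two_pi]

theorem nu_per (α : ℝ) : nu (α + 2 * Real.pi) = nu α := by
  simp [nu, Real.cos_add_two_pi, Real.sin_add_two_pi]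

theorem contDiff_e : ContDiff ℝ ∞ e := by
  have he : e = fun x : ℝ => ((Real.cos x : ℝ) : ℂ) + ((Real.sin x : ℝ) : ℂ) * Complex.I := by
    funext x; exact e_eq x
  rw [he]
  have h1 : ContDiff ℝ ∞ (fun x : ℝ => ((Real.cos x : ℝ) : ℂ)) :=
    Complex.ofRealCLM.contDiff.comp Real.contDiff_cos
  have h2 : ContDiff ℝ ∞ (fun x : ℝ => ((Real.sin x : ℝ) : ℂ)) :=
    Complex.ofRealCLM.contDiff.comp Real.contDiff_sin
  exact h1.add (h2.mul contDiff_const)

theorem contDiff_nu : ContDiff ℝ ∞ nu := by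
  have he : nu = fun x : ℝ => ((Real.sin x : ℝ) : ℂ) - ((Real.cos x : ℝ) : ℂ) * Complex.I := by
    funext x; exact nu_eq x
  rw [he]
  have h1 : ContDiff ℝ ∞ (fun x : ℝ => ((Real.cos x : ℝ) : ℂ)) :=
    Complex.ofRealCLM.contDiff.comp Real.contDiff_cos
  have h2 : ContDiff ℝ ∞ (fun x : ℝ => ((Real.sin x : ℝ) : ℂ)) :=
    Complex.ofRealCLM.contDiff.comp Real.contDiff_sin
  exact h2.sub (h1.mul contDiff_const)

theorem contDiff_deriv {f : ℝ → ℝ} (hf : ContDiff ℝ ∞ f) : ContDiff ℝ ∞ (deriv f) :=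
  (contDiff_infty_iff_deriv.mp hf).2

theorem contDiff_rho {p : ℝ → ℝ} (hp : Supp p) : ContDiff ℝ ∞ (rho p) :=
  hp.smooth.add (contDiff_deriv (contDiff_deriv hp.smooth))

theorem contDiff_gam {p : ℝ → ℝ} (hp : Supp p) : ContDiff ℝ ∞ (gam p) :=
  (hp.smooth.smul contDiff_nu).add ((contDiff_deriv hp.smooth).smul contDiff_e)

theorem hasDerivAt_gam {p : ℝ → ℝ} (hp : Supp p) (α : ℝ) :
    HasDerivAt (gam p) (rho p α • e α) α := by
  have h1 : HasDerivAt p (deriv p α) α :=
    (hp.smooth.differentiable (by simp)).differentiableAt.hasDerivAt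
  have h2 : HasDerivAt (deriv p) (deriv (deriv p) α) α :=
    ((contDiff_deriv hp.smooth).differentiable (by simp)).differentiableAt.hasDerivAt
  have h := (h1.smul (hasDerivAt_nu α)).add (h2.smul (hasDerivAt_e α))
  refine h.congr_deriv ?_
  unfold rho
  simp only [smul_neg, add_smul]
  abel

theorem per_deriv {f : ℝ → ℝ} (h : ∀ α, f (α + 2 * Real.pi) = f α) (α : ℝ) :
    deriv f (α + 2 * Real.pi) = deriv f α := by
  rw [← deriv_comp_add_const]
  congr 1
  funext x; exact h x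

theorem per_gam {p : ℝ → ℝ} (hp : Supp p) (α : ℝ) : gam p (α + 2 * Real.pi) = gam p α := by
  unfold gam
  rw [hp.per, per_deriv hp.per, nu_per, e_per]

/-- The boundary curve with period `1`. -/
noncomputable def gam1 (p : ℝ → ℝ) (t : ℝ) : ℂ := gam p (2 * Real.pi * t)

theorem hasDerivAt_gam1 {p : ℝ → ℝ} (hp : Supp p) (t : ℝ) :
    HasDerivAt (gam1 p) ((2 * Real.pi * rho p (2 * Real.pi * t)) • e (2 * Real.pi * t)) t := by
  have h1 : HasDerivAt (fun t : ℝ => 2 * Real.pi * t) (2 * Real.pi) t := by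
    simpa using (hasDerivAt_id t).const_mul (2 * Real.pi)
  have h := (hasDerivAt_gam hp (2 * Real.pi * t)).scomp t h1
  refine h.congr_deriv ?_
  rw [smul_smul]

theorem deriv_gam1 {p : ℝ → ℝ} (hp : Supp p) :
    deriv (gam1 p) = fun t => (2 * Real.pi * rho p (2 * Real.pi * t)) • e (2 * Real.pi * t) := by
  funext t; exact (hasDerivAt_gam1 hp t).deriv

theorem deriv2_gam1 {p : ℝ → ℝ} (hp : Supp p) (t : ℝ) :
    deriv (deriv (gam1 p)) t = (2 * Real.pi * (2 * Real.pi * deriv (rho p) (2 * Real.pi * t))) • e (2 * Real.pi * t)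
      - (2 * Real.pi * (2 * Real.pi * rho p (2 * Real.pi * t))) • nu (2 * Real.pi * t) := by
  rw [deriv_gam1 hp]
  have h1 : HasDerivAt (fun t : ℝ => 2 * Real.pi * t) (2 * Real.pi) t := by
    simpa using (hasDerivAt_id t).const_mul (2 * Real.pi)
  have h2 : HasDerivAt (rho p) (deriv (rho p) (2 * Real.pi * t)) (2 * Real.pi * t) :=
    ((contDiff_rho hp).differentiable (by simp)).differentiableAt.hasDerivAt
  have h3 := ((h2.comp t h1).const_mul (2 * Real.pi)).smul ((hasDerivAt_e (2 * Real.pi * t)).scomp t h1)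
  have h4 : HasDerivAt (fun t => (2 * Real.pi * rho p (2 * Real.pi * t)) • e (2 * Real.pi * t))
      ((2 * Real.pi * rho p (2 * Real.pi * t)) • ((2 * Real.pi) • (-nu (2 * Real.pi * t))) +
        (2 * Real.pi * (deriv (rho p) (2 * Real.pi * t) * (2 * Real.pi))) • e (2 * Real.pi * t)) t := h3
  rw [h4.deriv, smul_neg, smul_neg, smul_smul, add_comm, sub_eq_add_neg]
  congr 2
  · ring_nf
  · ring_nf

theorem rho_pos {p : ℝ → ℝ} (hp : Supp p) (α : ℝ) : 0 < rho p α := hp.pos α

/-- `body p` is an oval. -/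
theorem oval_body (hKEY : S_KEY) (hBODY : S_BODY) {p : ℝ → ℝ} (hp : Supp p) : Oval (body p) := by
  obtain ⟨⟨hc, hs, hi, -⟩, -, hfr, -⟩ := hBODY p hp
  have hpi := Real.pi_pos
  refine ⟨hc, hs, hi, gam1 p, ?_, ?_, ?_, ?_, ?_, ?_⟩
  · exact (contDiff_gam hp).comp (contDiff_const.mul contDiff_id)
  · intro t
    show gam p (2 * Real.pi * (t + 1)) = gam p (2 * Real.pi * t)
    rw [show 2 * Real.pi * (t + 1) = 2 * Real.pi * t + 2 * Real.pi by ring, per_gam hp]
  · intro s hs' t ht hst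
    have h0 : ∀ α : ℝ, Psi p α 0 = gam p α := fun α => by simp [Psi]
    have key := hKEY p hp (2 * Real.pi * s) 0 (fun α => by simpa using hp.pos α) (2 * Real.pi * t)
    have e1 : ip (Psi p (2 * Real.pi * s) 0) (nu (2 * Real.pi * t)) = p (2 * Real.pi * t) + 0 := by
      rw [h0]
      have : gam p (2 * Real.pi * s) = gam p (2 * Real.pi * t) := hst
      rw [this]
      unfold gam ip e nu
      simp only [Complex.add_re, Complex.add_im, Complex.smul_re, Complex.smul_im, smul_eq_mul]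
      have h3 := Real.sin_sq_add_cos_sq (2 * Real.pi * t)
      linear_combination (p (2 * Real.pi * t)) * h3
    obtain ⟨k, hk⟩ := key.2 e1
    have hk' : t = s + k := by
      have h2 : 2 * Real.pi * (t - s - k) = 0 := by linear_combination hk
      rcases mul_eq_zero.mp h2 with h | h
      · exfalso; linarith
      · linarith
    have hk0 : k = 0 := by
      have h1 : (k : ℝ) < 1 := by have := ht.2; have := hs'.1; linarith
      have h2 : (-1 : ℝ) < k := by have := ht.1; have := hs'.2; linarith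
      have h1' : k < 1 := by exact_mod_cast h1
      have h2' : -1 < k := by exact_mod_cast h2
      omega
    rw [hk', hk0]; simp
  · intro t
    rw [deriv_gam1 hp]
    have := rho_pos hp (2 * Real.pi * t)
    exact smul_ne_zero (by positivity) (e_ne _)
  · rw [hfr]
    apply Subset.antisymm
    · rintro _ ⟨t, rfl⟩; exact ⟨_, rfl⟩
    · rintro _ ⟨α, rfl⟩
      refine ⟨α / (2 * Real.pi), ?_⟩
      show gam p (2 * Real.pi * (α / (2 * Real.pi))) = gam p α
      congr 1; field_simp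
  · intro t
    rw [deriv2_gam1 hp, deriv_gam1 hp]
    have hr := rho_pos hp (2 * Real.pi * t)
    simp only [Complex.sub_re, Complex.sub_im, Complex.smul_re, Complex.smul_im, smul_eq_mul, e, nu]
    have h3 := Real.sin_sq_add_cos_sq (2 * Real.pi * t)
    set c := Real.cos (2 * Real.pi * t)
    set s := Real.sin (2 * Real.pi * t)
    set r := rho p (2 * Real.pi * t)
    have : (2 * Real.pi * r * c) * (2 * Real.pi * (2 * Real.pi * deriv (rho p) (2 * Real.pi * t)) * s
        - 2 * Real.pi * (2 * Real.pi * r) * -c) - (2 * Real.pi * r * s) *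
        (2 * Real.pi * (2 * Real.pi * deriv (rho p) (2 * Real.pi * t)) * c - 2 * Real.pi * (2 * Real.pi * r) * s)
        = (2 * Real.pi) ^ 3 * r ^ 2 := by
      linear_combination ((2 * Real.pi) ^ 3 * r ^ 2) * h3
    rw [this]
    positivity

end Pool.Agent.H242.GX
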