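import Pool.Agent.H242.GX.Stm3
import Pool.Agent.H242.GX.OvalBody

/-!
# Project GX (helper242), page MP_ae5b4e_an, fifth part: the curvature does not vanish (projective involutions)

GOAL: if a smooth closed strictly convex curve `γ` (the curvature may vanish at some points) has a smooth exterior foliation for which ALL the involutions `σ_p` are
projective near `p`, then the curvature of `γ` vanishes nowhere. (With part 4: the curves which satisfy the hypothesis of the page's question are exactly the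
curves with nowhere vanishing curvature.)

Plan: at a zero of the curvature which is isolated from the right write the curve as a graph `y = g (x)`, `w = g''`, and `Y = N (x, y - g (x))`. The conditions on the Taylor
coefficients of order `≤ 5` of `Y` along the tangent lines give a differential inequality for `w`, which implies `w ~ c x^6`; then the condition of order `7` gives a contradiction.
-/

open Set Filter Topology
open scoped ContDiff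

namespace Pool.Agent.H242.GX

/-- **GX5-SIGK.** PROOF. Let `ε, a, b, c, d, δ` be as in `SigmaProjective`, `f t = Y (p + t v)`, `σ t = (a t + b) / (c t + d)` for `|t| < δ`. `d ≠ 0` (`t = 0`), `σ` is continuous, `t * σ t < 0` for `t ≠ 0`, so `σ 0 = 0` (limits from both sides), `b = 0`, `a ≠ 0`, and
`a / (c t + d) < 0`, hence `a / d < 0`. For small `t`: `|σ t| < δ`, `σ (σ t)` has the sign of `t`, `|σ (σ t)| ≤ ε` and `f (σ (σ t)) = f (σ t) = f t`; `f` is injective on `[0, ε]` and on `[-ε, 0]` (strict monotonicity), so `σ (σ t) = t`: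
`a² t = (c (a + d) t + d²) t` for all small `t`, so `a² = d²` and `a = -d` (as `a / d < 0`). So `σ t = - t / (1 + (c / d) t)`; `k = c / d`. -/
def S_SIGK : Prop := ∀ (U : Set ℂ) (Y : ℂ → ℝ) (p v : ℂ), SigmaProjective U Y p v →
  ∃ k r : ℝ, 0 < r ∧ ∀ t : ℝ, |t| < r → 0 < 1 + k * t ∧ Y (p + (-t / (1 + k * t)) • v) = Y (p + t • v)

/-- **GX5-JET.** The Taylor coefficients of a function which is invariant under the involution `s ↦ -s / (1 + k s)`. PROOF. (First part.) Let `P` be the Taylor polynomial. For small `s` (`|s| < r/2`, `|k s| < 1/2`, so that `|σ s| ≤ 2 |s| < r`) `|P (σ s) - P s| ≤ C' |s|^6`. Multiply by `(1 + k s)^5`: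
the polynomial `Q s = ∑_j a_j ((-s)^j (1 + k s)^(5-j) - s^j (1 + k s)^5)` is `O (s^6)`, so its coefficients of order `≤ 5` vanish (a polynomial which is `O (s^6)` at `0`: divide successively by `s`, limits at `0`). The coefficients of order `1`: `-2 a_1 = 0`; order `3` (using `a_1 = 0`):
the coefficient of `s³` in `P (σ s) - P s` is `-2 k a_2 - 2 a_3` so `a_3 = -k a_2`; order `5`: the coefficient of `s⁵` in `P (σ s)` is `- (4 k³ a_2 + 6 k² a_3 + 4 k a_4 + a_5)`, so `2 a_5 = -4 k³ a_2 - 6 k² a_3 - 4 k a_4 = 2 k³ a_2 - 4 k a_4`. (In general: the coefficient of `s^j` in `P (σ s)`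
is `∑_i (-1)^j C(j-1, j-i) k^(j-i) a_i` for odd `j`, as `(-s)^i (1 + k s)^(-i) = (-1)^i s^i ∑_l C(i+l-1, l) (-k s)^l`.) The second part is the same with `8` in place of `6`: order `7` gives `2 a_7 + 6 k a_6 + 15 k² a_5 + 20 k³ a_4 + 15 k⁴ a_3 + 6 k⁵ a_2 = 0`. -/
def S_JET : Prop :=
  (∀ (f : ℝ → ℝ) (a : ℕ → ℝ) (k r C : ℝ), 0 < r →
    (∀ s : ℝ, |s| < r → |f s - ∑ j ∈ Finset.range 6, a j * s ^ j| ≤ C * |s| ^ 6) →
    (∀ s : ℝ, |s| < r → 0 < 1 + k * s ∧ f (-s / (1 + k * s)) = f s) →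
    a 1 = 0 ∧ a 3 = -k * a 2 ∧ a 5 = k ^ 3 * a 2 - 2 * k * a 4) ∧
  ∀ (f : ℝ → ℝ) (a : ℕ → ℝ) (k r C : ℝ), 0 < r →
    (∀ s : ℝ, |s| < r → |f s - ∑ j ∈ Finset.range 8, a j * s ^ j| ≤ C * |s| ^ 8) →
    (∀ s : ℝ, |s| < r → 0 < 1 + k * s ∧ f (-s / (1 + k * s)) = f s) →
    a 1 = 0 ∧ a 3 = -k * a 2 ∧
      2 * a 7 + 6 * k * a 6 + 15 * k ^ 2 * a 5 + 20 * k ^ 3 * a 4 + 15 * k ^ 4 * a 3 + 6 * k ^ 5 * a 2 = 0

/-- **GX5-EXP.** Taylor expansion along the tangent lines of a graph (`w = g''`). PROOF. GX-HAD three times: `N (x, η) = η m (x) + η² m₂ (x) + η³ N₃ (x, η)`, all smooth. `η (s) = g t + g' t s - g (t + s) = - (w s²/2 + w' s³/6 + w'' s⁴/24 + w''' s⁵/120) + O (s⁶)` (derivatives at `t`; Taylor, e.g. GX-HAD in one variable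
or `taylor_mean_remainder`), `m (t + s) = m + m' s + m'' s²/2 + m''' s³/6 + O (s⁴)`, `m₂ (t + s) = m₂ + m₂' s + O (s²)`, `η³ = O (s⁶)`. Multiply. -/
def S_EXP : Prop := ∀ (g : ℝ → ℝ) (N : ℝ × ℝ → ℝ), ContDiff ℝ ∞ g → ContDiff ℝ ∞ N → (∀ x, N (x, 0) = 0) →
  ∃ m m₂ : ℝ → ℝ, ContDiff ℝ ∞ m ∧ ContDiff ℝ ∞ m₂ ∧ (∀ x, m x = deriv (fun η => N (x, η)) 0) ∧
    ∀ (w : ℝ → ℝ), w = deriv (deriv g) → ∀ t : ℝ, ∃ C : ℝ, ∀ s : ℝ, |s| ≤ 1 →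
      |N (t + s, g t + deriv g t * s - g (t + s)) - (
        - (m t * w t / 2) * s ^ 2
        - (m t * deriv w t / 6 + deriv m t * w t / 2) * s ^ 3
        - (m t * deriv (deriv w) t / 24 + deriv m t * deriv w t / 6 + deriv (deriv m) t * w t / 4 - m₂ t * w t ^ 2 / 4) * s ^ 4
        - (m t * deriv (deriv (deriv w)) t / 120 + deriv m t * deriv (deriv w) t / 24 + deriv (deriv m) t * deriv w t / 12
            + deriv (deriv (deriv m)) t * w t / 12 - m₂ t * w t * deriv w t / 6 - deriv m₂ t * w t ^ 2 / 4) * s ^ 5)|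
      ≤ C * |s| ^ 6

/-- Local data at a zero of the curvature: the curve is the graph of `g`, the foliation is given by `Y = N (x, y - g (x))`. -/
structure GData (g : ℝ → ℝ) (N : ℝ × ℝ → ℝ) (δ : ℝ) : Prop where
  pos : 0 < δ
  smg : ContDiff ℝ ∞ g
  smN : ContDiff ℝ ∞ N
  zero : ∀ x, N (x, 0) = 0
  reg : ∀ x : ℝ, |x| < δ → deriv (fun η => N (x, η)) 0 ≠ 0
  w0 : deriv (deriv g) 0 = 0
  wpos : ∀ t : ℝ, 0 < t → t < δ → 0 < deriv (deriv g) t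
  inv : ∀ t : ℝ, 0 < t → t < δ → ∃ k r : ℝ, 0 < r ∧ ∀ s : ℝ, |s| < r → 0 < 1 + k * s ∧
    N (t + (-s / (1 + k * s)), g t + deriv g t * (-s / (1 + k * s)) - g (t + (-s / (1 + k * s)))) =
      N (t + s, g t + deriv g t * s - g (t + s))

/-- **GX5-GRAPH.** PROOF. `ω = re γ' im γ'' - im γ' re γ''`. Let `τ = γ' t₀`, `ε` the sign of `ω` on `(t₀, t₁)` (constant). `x (t) = Re ((γ t - γ t₀) / τ)` has `x' t₀ = 1`: a smooth local inverse `T (x)` near `x = 0` (inverse function theorem), `T 0 = t₀`, `T' > 0`. `g (x) = ε Im ((γ (T x) - γ t₀) / τ)` near `0`,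
multiplied by a smooth cut-off (`1` near `0`) to be smooth on `ℝ`. With `x (t), y (t)`: `g' = y'/x'`, `g'' = (x' y'' - y' x'') / x'^3 = ε ω / (|τ|² x'^3)`, so `g'' 0 = 0` and `g'' > 0` on `(0, δ)`. `N (x, η) = χ (x, η) Y (γ t₀ + (x + i ε (g x + η)) τ)`, `χ` a smooth bump function equal to `1` near `(0, 0)` with small support
(the point is in `U`). `N (x, 0) = 0` as `Y = 0` on `frontier K` (`leaf_zero`); `∂_η N (x, 0) = fderiv Y (i ε τ) ≠ 0` near `0`, because `fderiv Y ≠ 0`, `fderiv Y (γ') = 0` and `i τ`, `γ'` are linearly independent (`x' ≠ 0`). For `x ∈ (0, δ)`: the point `P = γ (T x) = γ t₀ + (x + i ε g x) τ` and the direction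
`V = (1 + i ε g' x) τ = T' x • γ' (T x)`; by GX3-TDIR (scaled) `IsTangentDir K P V`, so GX5-SIGK gives `k, r`, and `Y (P + s V) = N (x + s, g x + g' x s - g (x + s))` for small `s`. -/
def S_GRAPH : Prop := ∀ (K U : Set ℂ) (Y : ℂ → ℝ) (γ : ℝ → ℂ) (t₀ t₁ : ℝ), IsClosed K → Convex ℝ K → (interior K).Nonempty →
  IsExteriorFoliation K U Y → (∀ z ∈ frontier K, ∀ v : ℂ, IsTangentDir K z v → SigmaProjective U Y z v) →
  ContDiff ℝ ∞ γ → range γ = frontier K → (∀ t, deriv γ t ≠ 0) → t₀ < t₁ →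
  (deriv γ t₀).re * (deriv (deriv γ) t₀).im - (deriv γ t₀).im * (deriv (deriv γ) t₀).re = 0 →
  (∀ t : ℝ, t₀ < t → t < t₁ → (deriv γ t).re * (deriv (deriv γ) t).im - (deriv γ t).im * (deriv (deriv γ) t).re ≠ 0) →
  ∃ (g : ℝ → ℝ) (N : ℝ × ℝ → ℝ) (δ : ℝ), GData g N δ

/-- The differential inequality. -/
def DEI (w : ℝ → ℝ) (δ M : ℝ) : Prop := ∀ t : ℝ, 0 < t → t < δ →
  |9 * w t ^ 2 * deriv (deriv (deriv w)) t - 30 * w t * deriv w t * deriv (deriv w) t + 20 * deriv w t ^ 3| ≤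
    M * (|w t ^ 2 * deriv (deriv w) t| + |w t * deriv w t ^ 2| + |w t ^ 2 * deriv w t| + |w t ^ 3|)

/-- **GX5-DE.** From GX5-EXP, GX5-JET. PROOF. `a_2 = -A_2`, ..., `a_5 = -A_5` with `A_j` the brackets in GX5-EXP at `t ∈ (0, δ)`. GX5-JET (first part, `f s = N (t + s, ...)`): `a_3 = -k a_2`, `a_5 = k³ a_2 - 2 k a_4`, so `a_2² a_5 = 2 a_2 a_3 a_4 - a_3³`, i.e. `A_2² A_5 - 2 A_2 A_3 A_4 + A_3³ = 0`. Multiply by
`4320 / m³`: the terms without derivatives of `m` and without `m₂` are `9 w² w''' - 30 w w' w'' + 20 w'³`; all other terms are `w² w''`, `w w'²`, `w² w'`, `w³` (the last two possibly times a further `w`) with coefficients which are polynomials in `1/m` and in `m, m', m'', m''', m₂, m₂', w` at `t`, bounded for `0 < t < δ'`, since `m 0 ≠ 0` (`reg`). -/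
def S_DE : Prop := ∀ (g : ℝ → ℝ) (N : ℝ × ℝ → ℝ) (δ : ℝ), GData g N δ →
  ∃ δ' M : ℝ, 0 < δ' ∧ δ' ≤ δ ∧ DEI (deriv (deriv g)) δ' M

/-- The differential inequality after the substitution `w = y^6`; `y₁ = y'`, `κ = 6 y'^2 - 2 y y''`. -/
structure YD (y y₁ κ κ₁ : ℝ → ℝ) (δ M : ℝ) : Prop where
  pos : 0 < δ
  M0 : 0 ≤ M
  ypos : ∀ t : ℝ, 0 < t → t < δ → 0 < y t
  dy : ∀ t : ℝ, 0 < t → t < δ → HasDerivAt y (y₁ t) t
  dy1 : ∀ t : ℝ, 0 < t → t < δ → HasDerivAt y₁ ((6 * y₁ t ^ 2 - κ t) / (2 * y t)) t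
  dk : ∀ t : ℝ, 0 < t → t < δ → HasDerivAt κ (κ₁ t) t
  bd : ∀ t : ℝ, 0 < t → t < δ → |κ₁ t| ≤ M * (|κ t| + y₁ t ^ 2 + y t ^ 2)
  lim : Tendsto y (𝓝[>] 0) (𝓝 0)

/-- **GX5-YEQ.** PROOF. `y t = (w t)^(1/6)` for `0 < t < δ`; it is smooth there. `w' = 6 y⁵ y'`, `w'' = 6 y⁵ y'' + 30 y⁴ y'²`, `w''' = 6 y⁵ y''' + 90 y⁴ y' y'' + 120 y³ y'³`. Then `9 w² w''' - 30 w w' w'' + 20 w'³ = 54 y^16 (y y''' - 5 y' y'')`, `w² w'' = y^16 (6 y y'' + 30 y'²)`,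
`w w'² = 36 y^16 y'²`, `w² w' = 6 y^17 y'`, `w³ = y^18`. With `κ = 6 y'² - 2 y y''`: `κ' = 10 y' y'' - 2 y y''' = -2 (y y''' - 5 y' y'')` and `6 y y'' + 30 y'² = 48 y'² - 3 κ`. So `27 |κ'| ≤ |M| (3 |κ| + 48 y'² + 36 y'² + 6 |y y'| + y²)` and `|y y'| ≤ y'² + y²`. -/
def S_YEQ : Prop := ∀ (w : ℝ → ℝ) (δ M : ℝ), 0 < δ → ContDiff ℝ ∞ w → w 0 = 0 → (∀ t : ℝ, 0 < t → t < δ → 0 < w t) →
  DEI w δ M → ∃ (y y₁ κ κ₁ : ℝ → ℝ) (M' : ℝ), YD y y₁ κ κ₁ δ M' ∧ ∀ t : ℝ, 0 < t → t < δ → w t = y t ^ 6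

/-- **GX5-LIM1.** PROOF. Let `t₁ ≤ δ/2` with `M t₁ ≤ 1/8`, `|y| ≤ D` on `(0, t₁]` (limit `0` at `0`, continuity), `e = y₁²`. (A) If `0 < τ < t₁`, `S`, `Q` the maxima of `e`, `|κ|` on `[τ, t₁]` then `Q ≤ |κ t₁| + t₁ M (Q + S + D²)`, so `Q ≤ 2 |κ t₁| + S/4 + D²`.
(B) `e ≤ B₀ := e t₁ + 2 |κ t₁| + D² + 1` on `(0, t₁]`. Suppose `e τ > B₀`. Let `s` be a maximum point of `e` on `[τ, t₁]`; `s ≠ t₁`. If `τ < s` then `e' s = 0`, `e' = y₁ (6 e - κ) / y`, `y₁ s ≠ 0`, so `6 e s = κ s ≤ B₀ + e s / 4 < 2 e s`, a contradiction. So for EVERY `τ ∈ (0, t₁)` with `e τ > B₀`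
the maximum of `e` on `[τ, t₁]` is at `τ` only; hence `e' τ ≤ 0`, and `6 e - κ > 0` there, so `y₁ τ < 0`. The set of the `t ∈ (0, τ]` with `e > B₀` on `[t, τ]` is open and closed in `(0, τ]` (at a limit point `e ≥ e τ > B₀`, as `e u ≥ e τ` for the `u` in the set), so it is `(0, τ]`; `y₁` has no zero
there, so `y₁ < 0` on `(0, τ]`, `y` is decreasing and `y ≥ y τ > 0` near `0`, a contradiction. (C) So `|y₁|`, `|κ|` (by (A)) and `|κ₁|` are bounded on `(0, t₁]`; mean value theorem: `y t ≤ B t`, `κ` is Lipschitz and has a limit `κ₀` at `0+` with `|κ t - κ₀| ≤ B t`. -/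
def S_LIM1 : Prop := ∀ (y y₁ κ κ₁ : ℝ → ℝ) (δ M : ℝ), YD y y₁ κ κ₁ δ M → ∃ t₁ B κ₀ : ℝ, 0 < t₁ ∧ t₁ < δ ∧ 0 < B ∧
  ∀ t : ℝ, 0 < t → t ≤ t₁ → |y₁ t| ≤ B ∧ y t ≤ B * t ∧ |κ t - κ₀| ≤ B * t

/-- **GX5-LIM2.** `κ₀ < 0` is impossible. PROOF. For small `t`: `κ t ≤ κ₀ / 2`, `y₁' = (6 y₁² - κ) / (2 y) ≥ (-κ₀ / 2) / (2 B t) = c / t`, `c > 0`. So `y₁ - c log t` is nondecreasing on `(0, t₂]`: `y₁ t ≤ y₁ t₂ - c log t₂ + c log t → -∞`, a contradiction to `|y₁| ≤ B`. -/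
def S_LIM2 : Prop := ∀ (y y₁ κ κ₁ : ℝ → ℝ) (δ M t₁ B κ₀ : ℝ), YD y y₁ κ κ₁ δ M → 0 < t₁ → t₁ < δ → 0 < B →
  (∀ t : ℝ, 0 < t → t ≤ t₁ → |y₁ t| ≤ B ∧ y t ≤ B * t ∧ |κ t - κ₀| ≤ B * t) → 0 ≤ κ₀

/-- **GX5-LIM3.** `κ₀ = 0` is impossible. PROOF. `e = y₁²`, `S (t) = sup_{(0, t]} e > 0` (finite; `y₁` is not identically `0` near `0`). Let `t₂ ≤ t₁, 1` with `4 M t₂ ≤ 1`. For `u ≤ T ≤ t₂`: `y u ≤ √S(T) u`; `Q = sup_{(0,T]} |κ| ≤ T M (Q + S(T) + T² S(T))` (`κ → 0` at `0`), so `|κ| ≤ 4 M T S(T) ≤ S(T)` on `(0, T]`.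
Fix `T`, `S = S(T)`. (i) If `s ≤ T`, `e s ≥ S/2` then `6 e s - κ s ≥ 2 S > 0`, so `y₁' s > 0`; and `y₁ s > 0`: if `y₁ s < 0` then `y₁ ≤ y₁ s` on all of `(0, s]` (open-closed argument: where `y₁ ≤ -√(S/2)`, `y₁' > 0`), so `y` decreases on `(0, s]`, a contradiction to `y → 0`, `y > 0`. (ii) If `e s ≥ S/2` then `e u ≥ e s` for
`s ≤ u ≤ T` (the same argument). (iii) Not `e ≥ S/2` on all of `(0, T]`: otherwise `y₁ > 0`, `κ ≤ S ≤ 2 e`, `y₁' ≥ 2 y₁² / y`, so `y₁ / y²` is nondecreasing and `y₁ s ≤ C (y s)² → 0`. (iv) So `e < S/2` on `(0, s₀]` for some `s₀` and by (ii) `e T = S(T)`, `y₁ T > 0`. As `T` is arbitrary: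
`y₁ > 0` and `|κ| ≤ e` on `(0, t₂]`. (v) `φ = y₁ / y > 0`, `φ' = (4 e - κ) / (2 y²) > 0`; so `φ ≤ φ t₂` on `(0, t₂]` and `log y s ≥ log y t₂ - φ t₂ * t₂` for all `s ≤ t₂`, a contradiction to `y → 0`. -/
def S_LIM3 : Prop := ∀ (y y₁ κ κ₁ : ℝ → ℝ) (δ M t₁ B : ℝ), YD y y₁ κ κ₁ δ M → 0 < t₁ → t₁ < δ → 0 < B →
  (∀ t : ℝ, 0 < t → t ≤ t₁ → |y₁ t| ≤ B ∧ y t ≤ B * t ∧ |κ t| ≤ B * t) → False

/-- **GX5-LIM4.** PROOF. Near `0` `κ ≥ κ₀/2 > 0`. At a zero of `y₁`: `y₁' = -κ/(2y) < 0`; so `y₁` has at most one zero near `0` (between two zeros with negative derivative there is a zero with derivative `≥ 0`), hence `y₁` has a constant sign on some `(0, t₂]`, and it is positive because `y → 0`, `y > 0`.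
`R = (y₁² - κ₀/6) / y⁶` has the derivative `(y₁ / y⁷) (κ₀ - κ)`. For `ε > 0` let `t₃ ≤ t₂` with `|κ - κ₀| ≤ ε` on `(0, t₃]`: `R - (ε/6) y⁻⁶` and `-R - (ε/6) y⁻⁶` have derivatives `≥ 0` (as `(y⁻⁶)' = -6 y₁ y⁻⁷`), so for `t ≤ t₃` `|R t| ≤ |R t₃| + (ε/6) y(t)⁻⁶`, i.e. `|y₁² - κ₀/6| ≤ |R t₃| y⁶ + ε/6 ≤ ε/3` for small `t`.
So `y₁² → κ₀/6` and `y₁ → √(κ₀/6)`. -/
def S_LIM4 : Prop := ∀ (y y₁ κ κ₁ : ℝ → ℝ) (δ M t₁ B κ₀ : ℝ), YD y y₁ κ κ₁ δ M → 0 < t₁ → t₁ < δ → 0 < B → 0 < κ₀ →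
  (∀ t : ℝ, 0 < t → t ≤ t₁ → |y₁ t| ≤ B ∧ y t ≤ B * t ∧ |κ t - κ₀| ≤ B * t) →
  Tendsto y₁ (𝓝[>] 0) (𝓝 (Real.sqrt (κ₀ / 6)))

/-- **GX5-W6.** PROOF. `y t / t → l` (mean value theorem), so `g'' t / t⁶ → l⁶` as `t → 0+`. `G₀ x = g x - g 0 - g' 0 x`; `G₀ t = O (t⁸)` and more precisely `G₀ t / t⁸ → l⁶ / 56` as `t → 0+` (L'Hopital twice, or integrate the bounds `(l⁶ ± ε) t⁶`, using monotonicity of `G₀ - (l⁶ ± ε) t⁸ / 56` and of its derivative). By GX-HAD (with a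
dummy parameter) `G₀ = x G₁`, and inductively `G₀ = x^k G_k`, `G_k` smooth, `G_k 0 = lim G₀ t / t^k = 0` for `k < 8`. So `G₀ = x⁸ h`, `h 0 = l⁶ / 56`. -/
def S_W6 : Prop := ∀ (g y y₁ κ κ₁ : ℝ → ℝ) (δ M l : ℝ), YD y y₁ κ κ₁ δ M → ContDiff ℝ ∞ g →
  (∀ t : ℝ, 0 < t → t < δ → deriv (deriv g) t = y t ^ 6) → 0 < l → Tendsto y₁ (𝓝[>] 0) (𝓝 l) →
  ∃ h : ℝ → ℝ, ContDiff ℝ ∞ h ∧ h 0 ≠ 0 ∧ ∀ x : ℝ, g x = g 0 + deriv g 0 * x + x ^ 8 * h x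

/-- **GX5-END.** From GX5-JET (second part), GX-HAD. PROOF. `N = η N₁ (x, η)` (GX-HAD), `N₁ (0, 0) = ∂_η N (0, 0) ≠ 0`. For `s = t σ`: `g t + g' t s - g (t + s) = t⁸ E (t, σ)`, `E (t, σ) = h t + (8 h t + t h' t) σ - (1 + σ)⁸ h (t (1 + σ))` (an identity, `g' t = g' 0 + 8 t⁷ h + t⁸ h'`), so
`N (t + s, ...) = t⁸ Φ (t, σ)`, `Φ (t, σ) = E (t, σ) N₁ (t (1 + σ), t⁸ E (t, σ))` smooth on the plane, `Φ (0, σ) = A (1 + 8 σ - (1 + σ)⁸)`, `A = h 0 * N₁ (0, 0) ≠ 0`. For `0 < t < δ`, with `k, r` from `inv` and `K = k t`: `Φ (t, -σ / (1 + K σ)) = Φ (t, σ)` for `|σ| < r / t`, as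
`-s / (1 + k s) = t (-σ / (1 + K σ))`. By GX-HAD eight times `Φ (t, σ) = ∑_{j<8} b_j (t) σ^j + σ⁸ Φ₈ (t, σ)` with smooth `b_j`, `Φ₈`. GX5-JET (second part): `b_3 = -K b_2` and the relation of order `7`; multiply it by `b_2⁵` and replace `K b_2` by `-b_3`:
`2 b_2⁵ b_7 - 6 b_2⁴ b_3 b_6 + 15 b_2³ b_3² b_5 - 20 b_2² b_3³ b_4 + 9 b_2 b_3⁵ = 0` for `0 < t < δ`, and for `t = 0` by continuity. But `b_j (0) = -A C(8, j)`, `j ≥ 2` (`28, 56, 70, 56, 28, 8`; compare the polynomial `Φ (0, ·)` with its expansion), and the left side is `A⁶ 28⁵ (16 - 336 + 3360 - 11200 + 8064) = -96 * 28⁵ A⁶ ≠ 0`. -/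
def S_END : Prop := ∀ (g : ℝ → ℝ) (N : ℝ × ℝ → ℝ) (δ : ℝ), GData g N δ → ∀ h : ℝ → ℝ, ContDiff ℝ ∞ h → h 0 ≠ 0 →
  (∀ x : ℝ, g x = g 0 + deriv g 0 * x + x ^ 8 * h x) → False

/-- **GX5-NEC.** From all the others. PROOF. Let `γ` be the curve of `IsTable K`, `ω = re γ' im γ'' - im γ' re γ''` (smooth, periodic). Suppose `ω s₀ = 0`. `ω` is not identically `0` (otherwise the direction of `γ'` is constant and `γ` is not periodic; see the lemma `per` at the end of `Pool/Agent/H396/GX/CURV.lean`, namespace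
`Pool.Agent.H396.GX`, which you may import or copy). By periodicity `ω s₁ ≠ 0` for some `s₁ > s₀`; let `t₀ = sup {t ≤ s₁ : ω t = 0}`, so `ω t₀ = 0`, `t₀ < s₁`, `ω ≠ 0` on `(t₀, s₁)`. GX5-GRAPH gives `GData g N δ`, GX5-DE gives `δ'`, `M`, GX5-YEQ with `w = g''` (on `(0, δ')`), GX5-LIM1 gives `t₁, B, κ₀`, GX5-LIM2 and GX5-LIM3 give `κ₀ > 0`,
GX5-LIM4 gives `y₁ → √(κ₀/6) > 0`, GX5-W6 gives `h` and GX5-END the contradiction. So `ω` has no zero and `K` is an `Oval` (the other conditions are those of `IsTable`). -/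
def S_NEC : Prop := ∀ K : Set ℂ, IsTable K → ∀ (U : Set ℂ) (Y : ℂ → ℝ), IsExteriorFoliation K U Y →
  (∀ z ∈ frontier K, ∀ v : ℂ, IsTangentDir K z v → SigmaProjective U Y z v) → Oval K

end Pool.Agent.H242.GX
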