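import Pool.Agent.H242.GX.Fin4
import Pool.Agent.H242.GX.Stm5
import Pool.Agent.H242.GX.Conv3
import Pool.Agent.H299.GX.SIGK
import Pool.Agent.H187.GX.JET
import Pool.Agent.H977.GX.EXP
import Pool.Agent.H795.GX.GRAPH
import Pool.Agent.H763.GX.DE
import Pool.Agent.H787.GX.YEQ
import Pool.Agent.H196.GX.LIM1
import Pool.Agent.H178.GX.LIM2
import Pool.Agent.H764.GX.LIM3
import Pool.Agent.H539.GX.LIM4
import Pool.Agent.H725.GX.W6
import Pool.Agent.H772.GX.END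
import Pool.Agent.H111.GX.NEC

/-! All the lemmas of the project GX, part 5. -/

namespace Pool.Agent.H242.GX

theorem t_SIGK : S_SIGK := Pool.Agent.H299.GX.gx_SIGK
theorem t_JET : S_JET := Pool.Agent.H187.GX.gx_JET
theorem t_EXP : S_EXP := Pool.Agent.H977.GX.gx_EXP gx_HAD
theorem t_GRAPH : S_GRAPH := Pool.Agent.H795.GX.gx_GRAPH t_TDIR t_SIGK
theorem t_DE : S_DE := Pool.Agent.H763.GXDE.gx_DE t_EXP t_JET
theorem t_YEQ : S_YEQ := H787GX.gx_YEQ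
theorem t_LIM1 : S_LIM1 := Pool.Agent.H196.GX5.gx_LIM1
theorem t_LIM2 : S_LIM2 := Pool.Agent.H178.GX.LIM2.gx_LIM2
theorem t_LIM3 : S_LIM3 := Pool.Agent.H764.GX.gx_LIM3
theorem t_LIM4 : S_LIM4 := Pool.Agent.H539.GX.gx_LIM4
theorem t_W6 : S_W6 := Pool.Agent.H725.GX.gx_W6 gx_HAD
theorem t_END : S_END := Pool.Agent.H772.GX.END.gx_END t_JET gx_HAD
theorem t_NEC : S_NEC := Pool.Agent.H111.GX.gx_NEC t_TDIR t_SIGK t_GRAPH t_EXP t_JET t_DE t_YEQ t_LIM1 t_LIM2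
  t_LIM3 t_LIM4 t_W6 t_END

end Pool.Agent.H242.GX
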