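import Pool.Agent.H242.GX.Stm2

/-!
# Project GX (helper242), page MP_ae5b4e_an, part 6: formal uniqueness for general projective involutions

GOAL: an exterior foliation of an oval with projective involutions is determined to infinite order along the oval by the normal derivative of its
function on the oval (up to a constant factor), equivalently by the coefficient `κ` of the involutions `t ↦ - t / (1 + κ t)`.
This generalises `FormalUniqueness` (`κ = 0`).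
-/

set_option autoImplicit false

open Set Filter Topology
open scoped ContDiff

namespace Pool.Agent.H242.GX

/-- Near the point with the parameter `θ` the involution of the tangent line is `t ↦ - t / (1 + κ θ t)`, in terms of the web. -/
def Inv (X : ℝ × ℝ → ℝ × ℝ) (H : ℝ × ℝ → ℝ) (κ : ℝ → ℝ) : Prop := ∀ θ : ℝ, ∃ r : ℝ, 0 < r ∧ ∀ t : ℝ, |t| < r →
  0 < 1 + κ θ * t ∧ H ((X (θ, -t / (1 + κ θ * t))).1, (X (θ, -t / (1 + κ θ * t))).2 ^ 2) = H ((X (θ, t)).1, (X (θ, t)).2 ^ 2)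

/-- Smooth periodic functions of the normal coordinates, zero on the curve, with positive normal derivative. -/
structure HH (H : ℝ × ℝ → ℝ) : Prop where
  smooth : ContDiff ℝ ∞ H
  per : ∀ φ y : ℝ, H (φ + 2 * Real.pi, y) = H (φ, y)
  zero : ∀ φ : ℝ, H (φ, 0) = 0
  pos : ∀ φ : ℝ, 0 < deriv (fun y => H (φ, y)) 0

/-- `H` is the function `Y` in the normal coordinates. -/
def Pul (p : ℝ → ℝ) (X : ℝ × ℝ → ℝ × ℝ) (U : Set ℂ) (Y : ℂ → ℝ) (H : ℝ × ℝ → ℝ) (y₀ : ℝ) : Prop := 0 < y₀ ∧ HH H ∧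
  (∀ φ y : ℝ, |y| < y₀ → Psi p φ y ∈ U ∧ H (φ, y) = Y (Psi p φ y)) ∧
  ∀ θ : ℝ, ∃ r : ℝ, 0 < r ∧ ∀ t : ℝ, |t| < r → gam p θ + t • e θ ∈ U ∧
    Y (gam p θ + t • e θ) = H ((X (θ, t)).1, (X (θ, t)).2 ^ 2)

/-- **GU-SIG0.** The form of a projective involution with the fixed point `0`.
PROOF. `SigmaProjective` gives `ε`, `a, b, c, d`, `δ`. `t = 0`: `d ≠ 0`. For `0 < t < δ` `(a t + b)/(c t + d) < 0`, for `-δ < t < 0` it is positive; by continuity at `0` `b / d = 0`, so `b = 0`. Then `a ≠ 0`, `d ≠ 0`, and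
`t * (a t / (c t + d)) < 0` for small `t ≠ 0` gives `a / d < 0` (as `c t + d` has the sign of `d` for small `t`). Put `m = - a / d > 0`, `k = c / d`: `(a t + b)/(c t + d) = - (m t) / (1 + k t)`, and `1 + k t > 0` for `|t| < δ'`. -/
def S_SIG0 : Prop := ∀ (U : Set ℂ) (Y : ℂ → ℝ) (z v : ℂ), SigmaProjective U Y z v →
  ∃ m k δ : ℝ, 0 < m ∧ 0 < δ ∧ ∀ t : ℝ, |t| < δ → 0 < 1 + k * t ∧ Y (z + (-(m * t) / (1 + k * t)) • v) = Y (z + t • v)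

/-- **GU-PULLP.** Pull back to the normal coordinates. From GX-BODY, GX-PSI. PROOF. As GX-PULL (finished file `Pool/Agent/H706/GX/PULL.lean`, in the archive), without the hypothesis of evenness, which is
used there for the last conclusion only; the last conclusion is now: for small `t` the point `gam p θ + t e θ` is `Psi p X₁ (X₂²)` (`rel` of the web) with `X₂² < y₀`, so it is in `U` and `Y` there is `H (X₁, X₂²)`. -/
def S_PULLP : Prop := ∀ (p : ℝ → ℝ) (X Z : ℝ × ℝ → ℝ × ℝ), TWeb p X Z → ∀ (U : Set ℂ) (Y : ℂ → ℝ),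
  IsExteriorFoliation (body p) U Y → ∃ (H : ℝ × ℝ → ℝ) (y₀ : ℝ), Pul p X U Y H y₀

/-- **GU-KAPPA.** The coefficient `κ` is smooth. From GX-HAD.
PROOF. By GX-HAD `X₂ = t r₁ (θ, t)`, `r₁ (θ, 0) = ∂_t X₂ (θ, 0) ≠ 0` (`Web.der2`), and `H (φ, y) = y K (φ, y)`, `K (φ, 0) = ∂_y H (φ, 0) > 0`. So `h_θ (t) := H (X₁, X₂²) = t² Q (θ, t)` with the smooth function `Q = r₁² K (X₁, X₂²)`,
`Q (θ, 0) > 0`, `Q` periodic in `θ` (for `t ≠ 0` clear, for `t = 0` by continuity). Let `κ θ = - ∂_t Q (θ, 0) / Q (θ, 0)`, smooth and periodic (`∂_t Q (θ, 0) = Q₁ (θ, 0)` with `Q (θ, t) = Q (θ, 0) + t Q₁ (θ, t)`, GX-HAD). Fix `θ` and `m`, `k`, `r` as in the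
hypothesis, `σ = - m t / (1 + k t)`. `σ² Q (σ) = t² Q (t)`, so for `t ≠ 0` `m² Q (σ) = (1 + k t)² Q (t)`; `t → 0` gives `m² = 1`, `m = 1`. Then with `Q (t) = Q₀ + t Q₁ (t)`: `Q₀ + σ Q₁ (σ) = (1 + 2 k t + k² t²) (Q₀ + t Q₁ (t))`; subtract `Q₀` and divide by `t ≠ 0`:
`- Q₁ (σ) / (1 + k t) = 2 k Q₀ + k² t Q₀ + (1 + k t)² Q₁ (t)`; `t → 0`: `- Q₁ (0) = 2 k Q₀ + Q₁ (0)`, so `k = - Q₁ (0) / Q₀ = κ θ`. -/
def S_KAPPA : Prop := ∀ X Z : ℝ × ℝ → ℝ × ℝ, Web X Z → ∀ H : ℝ × ℝ → ℝ, HH H →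
  (∀ θ : ℝ, ∃ m k r : ℝ, 0 < m ∧ 0 < r ∧ ∀ t : ℝ, |t| < r → 0 < 1 + k * t ∧
    H ((X (θ, -(m * t) / (1 + k * t))).1, (X (θ, -(m * t) / (1 + k * t))).2 ^ 2) = H ((X (θ, t)).1, (X (θ, t)).2 ^ 2)) →
  ∃ κ : ℝ → ℝ, PP κ ∧ Inv X H κ

/-- **GU-EVN.** Change of the parameter on the tangent lines. From GX-MOD.
PROOF. GX-MOD with `c = κ`: `X' (θ, τ) = X (θ, h τ)`, `h τ = τ / (1 - κ θ τ / 2)` for `|τ| < δ`. For small `τ` put `t = h τ`; then `1 + κ θ t = (1 + κ θ τ / 2) / (1 - κ θ τ / 2)` and `- t / (1 + κ θ t) = - τ / (1 + κ θ τ / 2) = h (-τ)`. So by `Inv`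
`H` takes the same value at `X' (θ, τ)` and at `X' (θ, -τ)`, i.e. `Odd X' H θ τ = 0` (choose `r` so small that `|t| < r'`, `|τ| < δ`, `|κ θ τ| < 1`). The other conclusions are those of GX-MOD. -/
def S_EVN : Prop := ∀ X Z : ℝ × ℝ → ℝ × ℝ, Web X Z → ∀ κ : ℝ → ℝ, PP κ → ∃ X' Z' : ℝ × ℝ → ℝ × ℝ, Web X' Z' ∧
  (∀ H : ℝ × ℝ → ℝ, Inv X H κ → ∀ θ : ℝ, ∃ r : ℝ, 0 < r ∧ ∀ t : ℝ, |t| < r → Odd X' H θ t = 0) ∧
  (∀ θ : ℝ, deriv (fun t => (X' (θ, t)).1) 0 = deriv (fun t => (X (θ, t)).1) 0) ∧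
  (∀ θ : ℝ, deriv (fun t => (X' (θ, t)).2) 0 = deriv (fun t => (X (θ, t)).2) 0) ∧
  (∀ θ : ℝ, deriv (deriv (fun t => (X' (θ, t)).2)) 0 =
    deriv (deriv (fun t => (X (θ, t)).2)) 0 + κ θ * deriv (fun t => (X (θ, t)).2) 0)

/-- **GU-ODE.** The first order equation. From GU-EVN, GX-LIN, GX-HAD, GX-DER. PROOF. Let `u θ = ∂_y H (θ, 0)`. In the finished file `Pool/Agent/H441/GX/UNIQ.lean` the lemmas `had2` and `first_order` give for a web `X'` on whose lines `H` is even: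
`b a u' + b₂' u = 0`, `a = ∂_t X'₁`, `b = ∂_t X'₂`, `b₂' = ∂_t² X'₂` at `t = 0` (`u` is `PP`, see the proof of `gx_UNIQ`). Apply this to the web `X'` of GU-EVN: `b₂' = b₂ + κ b`. By GX-DER (for `X`) `a = 1 / ρ`, `b₂ = - b ρ' / (3 ρ²)`, `b ≠ 0`. Divide by `b` and multiply by `3 ρ²`:
`3 ρ u' + (- ρ' + 3 κ ρ²) u = 0`. -/
def S_ODE : Prop := ∀ (p : ℝ → ℝ) (X Z : ℝ × ℝ → ℝ × ℝ), Supp p → TWeb p X Z → ∀ H : ℝ × ℝ → ℝ, HH H → ∀ κ : ℝ → ℝ, PP κ → Inv X H κ →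
  Differentiable ℝ (fun θ => deriv (fun y => H (θ, y)) 0) ∧
  ∀ θ : ℝ, 3 * rho p θ * deriv (fun θ => deriv (fun y => H (θ, y)) 0) θ =
    (deriv (rho p) θ - 3 * κ θ * rho p θ ^ 2) * deriv (fun y => H (θ, y)) 0

/-- **GU-NOR.** The normal derivative. PROOF. `Psi p θ 0 = gam p θ ∈ U`, `Y` is differentiable there, `y ↦ Psi p θ y` has the derivative `nu θ`; `Y (Psi p θ y) = H (θ, y)` for `|y| < y₀` (the last part of the proof of `gx_UNIQ`, file `Pool/Agent/H441/GX/UNIQ.lean`). -/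
def S_NOR : Prop := ∀ (p : ℝ → ℝ) (X : ℝ × ℝ → ℝ × ℝ) (U : Set ℂ) (Y : ℂ → ℝ) (H : ℝ × ℝ → ℝ) (y₀ : ℝ), IsExteriorFoliation (body p) U Y →
  Pul p X U Y H y₀ → ∀ θ : ℝ, fderiv ℝ Y (gam p θ) (nu θ) = deriv (fun y => H (θ, y)) 0

/-- **GU-UNP.** Uniqueness to infinite order. From GU-EVN, GX-UNQ, GX-PSI, GX-BODY. PROOF. GU-EVN gives a web `X'` on whose lines `H₁` and `H₂` are both even near `0`. The rest is the first part of the proof of `gx_UNIQ` (file `Pool/Agent/H441/GX/UNIQ.lean`) with `X'` instead of `X`: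
GX-UNQ gives `H₂ = f (H₁) + y^N R`, `R` is bounded on the strip, and a point `z` outside the interior with `infDist z (body p) < min y₁ y₂` is `Psi p φ y` with `0 ≤ y ≤ infDist z (body p)`. -/
def S_UNP : Prop := ∀ (p : ℝ → ℝ) (X Z : ℝ × ℝ → ℝ × ℝ), Supp p → TWeb p X Z → ∀ (U₁ U₂ : Set ℂ) (Y₁ Y₂ : ℂ → ℝ) (H₁ H₂ : ℝ × ℝ → ℝ) (y₁ y₂ : ℝ) (κ : ℝ → ℝ),
  Pul p X U₁ Y₁ H₁ y₁ → Pul p X U₂ Y₂ H₂ y₂ → PP κ → Inv X H₁ κ → Inv X H₂ κ →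
  ∀ N : ℕ, ∃ (f : Polynomial ℝ) (C δ : ℝ), 0 < δ ∧ ∀ z : ℂ, z ∉ interior (body p) → Metric.infDist z (body p) < δ →
    z ∈ U₁ ∧ z ∈ U₂ ∧ |Y₂ z - f.eval (Y₁ z)| ≤ C * Metric.infDist z (body p) ^ N

end Pool.Agent.H242.GX
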