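import Pool.Agent.H242.GX.All2
import Pool.Agent.H242.GX.Stm6
import Pool.Agent.H242.GX.Fin6
import Pool.Agent.H242.GU.EVN
import Pool.Agent.H738.GU.SIG0
import Pool.Agent.H81.GU.PULLP
import Pool.Agent.H99.GU.KAPPA
import Pool.Agent.H722.GU.ODE
import Pool.Agent.H394.GU.NOR
import Pool.Agent.H307.GU.UNP

/-! All the lemmas of the project GU. -/

namespace Pool.Agent.H242.GX

theorem t_SIG0 : S_SIG0 := Pool.Agent.H738.GU.gu_SIG0
theorem t_PULLP : S_PULLP := Pool.Agent.H81.GU.gu_PULLP t_BODY t_PSI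
theorem t_KAPPA : S_KAPPA := Pool.Agent.H99.GU.gu_KAPPA gx_HAD
theorem t_EVN : S_EVN := Pool.Agent.H242.GU.gu_EVN t_MOD
theorem t_ODE : S_ODE := Pool.Agent.H722.GU.gu_ODE t_EVN t_LIN gx_HAD t_DER
theorem t_NOR : S_NOR := Pool.Agent.H394.GU.gu_NOR
theorem t_UNP : S_UNP := Pool.Agent.H307.GU.gu_UNP t_EVN t_UNQ t_PSI t_BODY

end Pool.Agent.H242.GX
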