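import Pool.Agent.H242.GX.OvalBody

/-! From the statements to the main theorem. -/

open Set Filter Topology
open scoped ContDiff

namespace Pool.Agent.H242.GX

theorem main_of (hSUPP : S_SUPP) (hFINAL : S_FINAL) (K : Set ℂ) (hK : Oval K) :
    ∃ (U : Set ℂ) (Y : ℂ → ℝ), IsExteriorFoliation K U Y ∧
      ∀ z ∈ frontier K, ∀ v : ℂ, IsTangentDir K z v → SigmaProjective U Y z v ∧
        ∃ r : ℝ, 0 < r ∧ ∀ t : ℝ, |t| < r → Y (z + t • v) = Y (z - t • v) := by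
  obtain ⟨hc, hs, hi, γ, h1, h2, h3, h4, h5, h6⟩ := hK
  obtain ⟨p, hp, rfl⟩ := hSUPP K γ hc hs hi h1 h2 h3 h4 h5 h6
  exact (hFINAL p hp).2.2

theorem example_of (hKEY : S_KEY) (hBODY : S_BODY) (hNONC : S_NONC) :
    ∃ K : Set ℂ, Oval K ∧ ∀ q : Fin 6 → ℝ, q ≠ 0 → ¬ frontier K ⊆ conic q := by
  obtain ⟨p, hp, hq⟩ := hNONC
  refine ⟨body p, oval_body hKEY hBODY hp, fun q hq0 => ?_⟩
  rw [(hBODY p hp).2.2.1]
  exact hq q hq0

end Pool.Agent.H242.GX
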