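import Pool.Agent.H242.GX.All4

/-! From the statements of part 4 to the main theorem for ovals. -/

open Set Filter Topology
open scoped ContDiff

namespace Pool.Agent.H242.GX

theorem main4 (K : Set ℂ) (hK : Oval K) : ∀ z₀ ∈ frontier K, ∃ (U : Set ℂ) (Y : ℂ → ℝ) (c : ℝ), 0 < c ∧
    IsExteriorFoliation K U Y ∧
    ∀ z ∈ frontier K, ∀ v : ℂ, IsTangentDir K z v → SigmaProjective U Y z v ∧
      (‖v‖ = 1 → (∀ t : ℝ, |t| ≤ c → z + t • v ∈ U) ∧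
        StrictAntiOn (fun t : ℝ => Y (z + t • v)) (Icc (-c) 0) ∧
        StrictMonoOn (fun t : ℝ => Y (z + t • v)) (Icc 0 c) ∧
        ∀ t : ℝ, |t| ≤ c → (|t| < c * ‖z - z₀‖ ∨ z = z₀) → Y (z + t • v) = Y (z - t • v)) := by
  obtain ⟨hc, hs, hi, γ, h1, h2, h3, h4, h5, h6⟩ := hK
  obtain ⟨p, hp, rfl⟩ := t_SUPP K γ hc hs hi h1 h2 h3 h4 h5 h6
  exact t_FOL p hp

end Pool.Agent.H242.GX
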