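import Pool.Agent.H242.GX.Fin6

set_option autoImplicit false

open Set Filter Topology
open scoped ContDiff

namespace Pool.Agent.H242.GX

/-- The modulus vanishes if and only if the normal derivative is a constant multiple of the cube root of the radius of curvature. -/
theorem modulus_zero {p : ℝ → ℝ} (hp : Supp p) {Y : ℂ → ℝ} {k : ℝ → ℝ} (hM : Modulus p Y k) :
    (∀ θ, k θ = 0) ↔ ∃ C : ℝ, 0 < C ∧ ∀ θ : ℝ, slope p Y θ = C * cr p θ := by
  have hcr : ∀ θ, 0 < cr p θ := fun θ => Real.rpow_pos_of_pos (rho_pos hp θ) _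
  constructor
  · intro h
    have hc : ∀ θ θ', Real.log (cr p θ / slope p Y θ) = Real.log (cr p θ' / slope p Y θ') := by
      intro θ θ'
      refine is_const_of_deriv_eq_zero (f := fun α => Real.log (cr p α / slope p Y α))
        (fun α => (hM.log α).differentiableAt) (fun α => ?_) θ θ'
      rw [(hM.log α).deriv, h α, zero_mul]
    refine ⟨slope p Y 0 / cr p 0, div_pos (hM.pos 0) (hcr 0), fun θ => ?_⟩
    have h1 := Real.log_injOn_pos (div_pos (hcr θ) (hM.pos θ)) (div_pos (hcr 0) (hM.pos 0)) (hc θ 0)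
    have h2 := (hM.pos θ).ne'
    have h3 := (hM.pos 0).ne'
    have h4 := (hcr 0).ne'
    rw [div_eq_div_iff h2 h3] at h1
    rw [div_mul_eq_mul_div, eq_div_iff h4]
    linarith
  · rintro ⟨C, hC, h⟩ θ
    have h1 : (fun α => Real.log (cr p α / slope p Y α)) = fun _ => -Real.log C := by
      funext α
      rw [h, Real.log_div (hcr α).ne' (mul_pos hC (hcr α)).ne', Real.log_mul hC.ne' (hcr α).ne']
      ring
    have h2 := hM.log θ
    rw [h1] at h2
    have h3 := h2.unique (hasDerivAt_const θ _)
    exact (mul_eq_zero.1 h3).resolve_right (rho_pos hp θ).ne'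

end Pool.Agent.H242.GX
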