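import Pool.Agent.H242.GX.Stm

/-!
# Project GX (helper242), page MP_ae5b4e_an, third part: necessity of nonvanishing curvature

If all the involutions are point reflections (near the points) then `(curvature) * (normal derivative)^3` is constant along the curve,
so the curvature does not vanish.
-/

open Set Filter Topology
open scoped ContDiff

namespace Pool.Agent.H242.GX

/-- **GX3-TDIR.** The tangent line of the boundary curve of a convex body does not meet its interior.
PROOF. `γ t ∈ frontier K` is not in the open convex set `interior K`; by Hahn-Banach (`geometric_hahn_banach_open_point`) there is a continuous linear functional `f` with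
`f x < f (γ t)` for `x ∈ interior K`; so `f ≤ f (γ t)` on `closure (interior K) = K` (convex closed set with interior points), in particular on `frontier K = range γ`. So `s ↦ f (γ s)` has
a maximum at `s = t` and `f (deriv γ t) = 0`. Hence `f (γ t + s • deriv γ t) = f (γ t)` for all `s`, and these points are not in `interior K`. -/
def S_TDIR : Prop := ∀ (K : Set ℂ) (γ : ℝ → ℂ), IsClosed K → Convex ℝ K → (interior K).Nonempty → ContDiff ℝ ∞ γ →
  range γ = frontier K → ∀ t : ℝ, deriv γ t ≠ 0 → IsTangentDir K (γ t) (deriv γ t)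

/-- **GX3-CURV.** PROOF. Write `v = γ'`, `cross x y = x.re y.im - x.im y.re`, `D1 = fderiv Y`, `D2`, `D3` the second and third derivatives along `γ`. All functions of `t` below are smooth.
`Y (γ t) = 0` gives `D1 (v) = 0`. So (`v ≠ 0`, dimension two) there is a function `m t` with `D1 (x) = m t * cross (v t) x` for all `x` (`m = D1 (I v) / |v|²`, smooth), and `m t ≠ 0` because `D1 ≠ 0`.
Differentiate `D1 (v) = 0`: (1) `D2 (v, v) + D1 (v') = 0`, and once more: `D3 (v, v, v) + 3 D2 (v, v') + D1 (v'') = 0`. The function `s ↦ Y (γ t + s v t)` is even near `0`, so its third derivative at `0` vanishes: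
`D3 (v, v, v) = 0`. So (3) `3 D2 (v, v') + D1 (v'') = 0`. With `ω = cross v v'`: `ω' = cross v v''`, so `D1 (v'') = m ω'`. Differentiate `D1 (x) = m cross (v, x)` in `t` for a CONSTANT vector `x`:
`D2 (v, x) = m' cross (v, x) + m cross (v', x)`; for `x = v' t`: `D2 (v, v') = m' ω`. So `3 m' ω + m ω' = 0` and `(ω m³)' = m² (m ω' + 3 m' ω) = 0`: `ω m³` is constant. If `ω` vanished at some `t`, then everywhere (`m ≠ 0`);
then `cross v v' = 0`, so the direction of `v` is constant: for a fixed `x₀ ≠ 0` parallel to `v 0` the function `cross (v t) x₀` satisfies ... (simplest: `(v / |v|)' = 0` as `v'` is parallel to `v`, or: `v' = (ip v' v / |v|²) v`, a linear ODE, so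
`v t = c t • v 0`, `c > 0`), and then `ip (γ t) (v 0)` is strictly increasing, a contradiction to the periodicity. (To avoid third Frechet derivatives one may work with the functions `F (s, t) = Y (γ t + s • v t)` of two
real variables: `∂_s F (0, t) = 0` for all `t`, `∂_s³ F (0, t) = 0`, or use coordinates `Y_x, Y_y, Y_xx, ...`) -/
def S_CURV : Prop := ∀ (U : Set ℂ) (Y : ℂ → ℝ) (γ : ℝ → ℂ), IsOpen U → range γ ⊆ U → ContDiffOn ℝ ∞ Y U → ContDiff ℝ ∞ γ →
  Function.Periodic γ 1 → (∀ t, deriv γ t ≠ 0) → (∀ t, Y (γ t) = 0) → (∀ z ∈ U, fderiv ℝ Y z ≠ 0) →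
  (∀ t : ℝ, ∃ r : ℝ, 0 < r ∧ ∀ s : ℝ, |s| < r → Y (γ t + s • deriv γ t) = Y (γ t - s • deriv γ t)) →
  ∀ t, (deriv γ t).re * (deriv (deriv γ) t).im - (deriv γ t).im * (deriv (deriv γ) t).re ≠ 0

end Pool.Agent.H242.GX
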